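import Pool.Agent.H36.O2.Df
import Pool.Agent.H73.P2.Ev
import Pool.Agent.H73.P2.Hf
import Pool.Agent.H73.P2.Nq
import Pool.Agent.H73.ZO.Rc
import Pool.Agent.H30.PN.Nc
import Pool.Agent.H30.ZO.Ci
import Pool.Agent.H30.ZO.Ch
import Pool.Agent.H30.ZO.Na

/-!
ROW Oi (project MP_78d38b_O2, about 120 lines): at an odd prime where the cubic has no root the local condition holds for all elements
of square norm, for all twists of the curve.

PROOF. `a := D^2 A`, `b := D^3 B` (in `K`, integral). Let `k` be a field between `K` and `N`, `u` a prime of `k` above `v`, `d` with nonzero square norm `Te_nf`.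
(1) `NoRootAt v A B` (`H30PN.noroot_of` with `D := 1`, as at the end of `main_gen` in Pool/Agent/H30/ZO/Gs.lean), and it passes to `u`: `NoRootAt u (algebraMap K k A) (algebraMap K k B)`: induction over quadratic steps with `exists_half` (Pool/Agent/H73/P2/Hf.lean) and `NoRootAt.up` (Pool/Agent/H73/P2/Nu.lean),
exactly as in `chainS` of Pool/Agent/H73/ZO/Rc.lean (first component; start `nr_base`).
(2) Over `k` take the cubic field `L`, `θ` of `T^3 + A T + B` (`H24PD.exists_cub (H73P2.noroot hr hirr)`); `Ev_twist` (Pool/Agent/H73/P2/Ev.lean) gives `Cub k L (D^2 A) (D^3 B) (D θ)`.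
(3) There is at most one prime `w` of `L` above `u`, so `nb k L u ≤ 1` (`nb` in Pool/Agent/H30/ZO/Df.lean; `Set.ncard_le_one`): this is `Nq_sub` in Pool/Agent/H73/P2/Nq.lean (private there: copy it, or get `UniqueOver` as in the proof of `even_unique`) for `A, B` and `θ`.
(4) `qq u = 1` (`qq_odd`, `u.valuation k 2 = 1`). `loc_idx` (Pool/Agent/H30/ZO/Ci.lean) for `a, b`, with `W` from `exists_WW` (Ch.lean; the infinite group of points over the completion as in the uses of `exists_WW` in Pool/Agent/H30/ZO, for example Cj or Jb): `2 * W.relIndex (HH k L) ≤ 2 ^ 1 * 1`, so `relIndex = 1` (it is not zero), `HH k L ≤ W` (`AddSubgroup.relIndex_eq_one`).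
(5) `sc (ev (D θ) d) ∈ HH k L` (`mem_HH`, norm `= Te_nf`), hence in `W`, and `Wc_iff` (Na.lean) gives `LC`.
-/

set_option autoImplicit false
set_option linter.unusedSectionVars false
open scoped Classical

open WithZero NumberField IsDedekindDomain H76PP H36CY H24PD H73P2

namespace H36O2

section Copy

open H38RT
open H38T1 (SC sc scu rep eo la si Pri OddP tp unif)

section Val

variable {F Γ : Type*} [Field F] [LinearOrderedCommGroupWithZero Γ] {V : Valuation F Γ}

private lemma Oi_mul_lt {p q : F} (hp : V p ≤ 1) (hq : V q < 1) : V (p * q) < 1 := by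
  rw [map_mul]
  calc V p * V q ≤ 1 * V q := mul_le_mul' hp le_rfl
    _ = V q := one_mul _
    _ < 1 := hq

private lemma Oi_mul_le {p q : F} (hp : V p ≤ 1) (hq : V q ≤ 1) : V (p * q) ≤ 1 := by
  rw [map_mul]
  exact mul_le_one' hp hq

private lemma Oi_add_one {p q : F} (hp : V p = 1) (hq : V q < 1) : V (p + q) = 1 := by
  rw [← hp]
  exact Valuation.map_add_eq_of_lt_left V (by rw [hp]; exact hq)

private lemma Oi_form {a b : F} (hr : ∀ t : F, V t ≤ 1 → V (t ^ 3 + a * t + b) = 1)
    {x y : F} (hx : V x ≤ 1) (hy : V y = 1) : V (x ^ 3 + a * x * y ^ 2 - b * y ^ 3) = 1 := by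
  have hy0 : y ≠ 0 := by
    rintro rfl
    rw [map_zero] at hy
    exact zero_ne_one hy
  have h1 := hr (-x / y) (by rw [map_div₀, Valuation.map_neg, hy, div_one]; exact hx)
  have h2 : x ^ 3 + a * x * y ^ 2 - b * y ^ 3 = -(y ^ 3 * ((-x / y) ^ 3 + a * (-x / y) + b)) := by
    field_simp
    ring
  rw [h2, Valuation.map_neg, map_mul, h1, map_pow, hy, one_pow, one_mul]

private lemma Oi_nf {a b : F} (ha : V a ≤ 1) (hb : V b ≤ 1)
    (hr : ∀ t : F, V t ≤ 1 → V (t ^ 3 + a * t + b) = 1) {c : Fin 3 → F} (hc : ∀ j, V (c j) ≤ 1)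
    {j : Fin 3} (hj : V (c j) = 1) : V (Te_nf a b c) = 1 := by
  have hx := hc 0
  have hy := hc 1
  have hz := hc 2
  by_cases h2 : V (c 2) = 1
  · have hz0 : c 2 ≠ 0 := by
      intro h
      rw [h, map_zero] at h2
      exact zero_ne_one h2
    obtain ⟨m, hm⟩ : ∃ m : F, m = -(c 1) / c 2 := ⟨_, rfl⟩
    have hmV : V m ≤ 1 := by
      rw [hm, map_div₀, Valuation.map_neg, h2, div_one]
      exact hy
    have hym : c 1 = -(m * c 2) := by
      rw [hm, div_mul_cancel₀ _ hz0, neg_neg]
    obtain ⟨P, hP⟩ : ∃ P : F, P = c 0 * m - b * c 2 := ⟨_, rfl⟩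
    obtain ⟨Q, hQ⟩ : ∃ Q : F, Q = c 0 + c 1 * m - a * c 2 := ⟨_, rfl⟩
    have hM : V (m ^ 3 + a * m - b) = 1 := by
      have h3 := hr (-m) (by rw [Valuation.map_neg]; exact hmV)
      have h4 : m ^ 3 + a * m - b = -((-m) ^ 3 + a * (-m) + b) := by ring
      rw [h4, Valuation.map_neg, h3]
    have hmul : Te_nf a b c * (m ^ 3 + a * m - b) = P ^ 3 + a * P * Q ^ 2 - b * Q ^ 3 := by
      have h3 := Te_nf_mul a b c ![m, 1, 0]
      have h4 : Te_nf a b ![m, 1, 0] = m ^ 3 + a * m - b := by
        simp only [Te_nf, Matrix.cons_val_zero, Matrix.cons_val_one, Matrix.cons_val_two,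
          Matrix.head_cons, Matrix.tail_cons]
        ring
      have h5 : m3 a b c ![m, 1, 0] = ![P, Q, 0] := by
        funext i
        fin_cases i
        · simp [m3, hP]
        · simp [m3, hQ]
        · simp [m3, hym]
          ring
      rw [← h4, ← h3, h5]
      simp only [Te_nf, Matrix.cons_val_zero, Matrix.cons_val_one, Matrix.cons_val_two,
        Matrix.head_cons, Matrix.tail_cons]
      ring
    have hPV : V P ≤ 1 := by
      have : P ∈ V.integer := by
        rw [hP]
        exact sub_mem (mul_mem hx hmV) (mul_mem hb hz)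
      exact this
    have hQV : V Q ≤ 1 := by
      have : Q ∈ V.integer := by
        rw [hQ]
        exact sub_mem (add_mem hx (mul_mem hy hmV)) (mul_mem ha hz)
      exact this
    have hkey : V (P ^ 3 + a * P * Q ^ 2 - b * Q ^ 3) = 1 := by
      by_cases hQ1 : V Q = 1
      · exact Oi_form hr hPV hQ1
      · have hQ2 : V Q < 1 := lt_of_le_of_ne hQV hQ1
        have hP1 : V P = 1 := by
          have e : P = c 2 * (m ^ 3 + a * m - b) + m * Q := by
            rw [hP, hQ, hym]
            ring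
          rw [e]
          apply Oi_add_one
          · rw [map_mul, h2, hM, one_mul]
          · exact Oi_mul_lt hmV hQ2
        have e : P ^ 3 + a * P * Q ^ 2 - b * Q ^ 3 = P ^ 3 + ((a * P - b * Q) * Q) * Q := by ring
        rw [e]
        apply Oi_add_one
        · rw [map_pow, hP1, one_pow]
        · apply Oi_mul_lt _ hQ2
          have : (a * P - b * Q) * Q ∈ V.integer :=
            mul_mem (sub_mem (mul_mem ha hPV) (mul_mem hb hQV)) hQV
          exact this
    rw [← hmul, map_mul, hM, mul_one] at hkey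
    exact hkey
  · have h2' : V (c 2) < 1 := lt_of_le_of_ne hz h2
    have e : Te_nf a b c = (c 0 ^ 3 + a * c 0 * c 1 ^ 2 - b * c 1 ^ 3) +
        (-(a * c 0 ^ 2 + a * c 0 ^ 2) + a ^ 2 * c 0 * c 2 + (b * c 0 * c 1 + b * c 0 * c 1 +
          b * c 0 * c 1) + b ^ 2 * c 2 ^ 2 - a * b * c 1 * c 2) * c 2 := by
      simp only [Te_nf]
      ring
    have hE : -(a * c 0 ^ 2 + a * c 0 ^ 2) + a ^ 2 * c 0 * c 2 + (b * c 0 * c 1 + b * c 0 * c 1 +
          b * c 0 * c 1) + b ^ 2 * c 2 ^ 2 - a * b * c 1 * c 2 ∈ V.integer := by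
      have ha' : a ∈ V.integer := ha
      have hb' : b ∈ V.integer := hb
      have hx' : c 0 ∈ V.integer := hx
      have hy' : c 1 ∈ V.integer := hy
      have hz' : c 2 ∈ V.integer := hz
      have e1 : b * c 0 * c 1 ∈ V.integer := mul_mem (mul_mem hb' hx') hy'
      exact sub_mem (add_mem (add_mem (add_mem (neg_mem (add_mem (mul_mem ha' (pow_mem hx' 2))
        (mul_mem ha' (pow_mem hx' 2)))) (mul_mem (mul_mem (pow_mem ha' 2) hx') hz'))
        (add_mem (add_mem e1 e1) e1)) (mul_mem (pow_mem hb' 2) (pow_mem hz' 2)))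
        (mul_mem (mul_mem (mul_mem ha' hb') hy') hz')
    rw [e]
    apply Oi_add_one _ (Oi_mul_lt hE h2')
    by_cases h1 : V (c 1) = 1
    · exact Oi_form hr hx h1
    · have h1' : V (c 1) < 1 := lt_of_le_of_ne hy h1
      have h0 : V (c 0) = 1 := by
        fin_cases j
        · exact hj
        · exact absurd hj h1
        · exact absurd hj h2
      have e2 : c 0 ^ 3 + a * c 0 * c 1 ^ 2 - b * c 1 ^ 3 =
          c 0 ^ 3 + ((a * c 0 - b * c 1) * c 1) * c 1 := by ring
      rw [e2]
      apply Oi_add_one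
      · rw [map_pow, h0, one_pow]
      · apply Oi_mul_lt _ h1'
        have : (a * c 0 - b * c 1) * c 1 ∈ V.integer :=
          mul_mem (sub_mem (mul_mem ha hx) (mul_mem hb hy)) hy
        exact this

private lemma Oi_theta {a b θ : F} (hr : θ ^ 3 + a * θ + b = 0) (ha : V a ≤ 1) (hb : V b ≤ 1) :
    V θ ≤ 1 := by
  by_contra h
  have h1 : 1 < V θ := not_le.1 h
  have h0 : θ ≠ 0 := by
    rintro rfl
    rw [map_zero] at h1
    exact absurd h1 (not_lt.2 zero_le_one)
  have h2 : V θ⁻¹ < 1 := by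
    rw [map_inv₀]
    exact inv_lt_one_of_one_lt₀ h1
  have h3 : (1 : F) + (a * θ⁻¹ + b * θ⁻¹ * θ⁻¹) * θ⁻¹ = 0 := by
    have h4 : (1 : F) + (a * θ⁻¹ + b * θ⁻¹ * θ⁻¹) * θ⁻¹ = (θ ^ 3 + a * θ + b) * (θ⁻¹) ^ 3 := by
      field_simp
      ring
    rw [h4, hr, zero_mul]
  have h5 : V ((a * θ⁻¹ + b * θ⁻¹ * θ⁻¹) * θ⁻¹) < 1 := by
    apply Oi_mul_lt _ h2
    have hi : θ⁻¹ ∈ V.integer := h2.le
    have : a * θ⁻¹ + b * θ⁻¹ * θ⁻¹ ∈ V.integer :=
      add_mem (mul_mem ha hi) (mul_mem (mul_mem hb hi) hi)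
    exact this
  have h6 := Oi_add_one (map_one V) h5
  rw [h3, map_zero] at h6
  exact zero_ne_one h6

end Val

variable {k L : Type} [Field k] [NumberField k] [Field L] [NumberField L] [Algebra k L]

omit [NumberField k] [NumberField L] in
/-- The cubic after scaling. -/
private lemma Oi_cub {a b : k} {θ : L} (h : Cub k L a b θ) {c a' b' : k} (hc : c ≠ 0)
    (ha : a = c ^ 4 * a') (hb : b = c ^ 6 * b') : Cub k L a' b' (θ / algebraMap k L c ^ 2) := by
  have hC : algebraMap k L c ≠ 0 := by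
    rw [Ne, map_eq_zero]
    exact hc
  refine ⟨?_, ?_, ?_⟩
  · have h1 := h.root
    rw [ha, hb, map_mul, map_mul, map_pow, map_pow] at h1
    have h2 : (θ / algebraMap k L c ^ 2) ^ 3 + algebraMap k L a' * (θ / algebraMap k L c ^ 2) +
        algebraMap k L b' = (θ ^ 3 + algebraMap k L c ^ 4 * algebraMap k L a' * θ +
          algebraMap k L c ^ 6 * algebraMap k L b') / algebraMap k L c ^ 6 := by
      field_simp
    rw [h2, h1, zero_div]
  · intro c₀ c₁ c₂ h1
    have h2 : algebraMap k L c₀ + algebraMap k L (c₁ / c ^ 2) * θ +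
        algebraMap k L (c₂ / c ^ 4) * θ ^ 2 = 0 := by
      rw [← h1, map_div₀, map_div₀, map_pow, map_pow]
      field_simp
    obtain ⟨e0, e1, e2⟩ := h.li _ _ _ h2
    refine ⟨e0, ?_, ?_⟩
    · rw [div_eq_zero_iff] at e1
      exact e1.resolve_right (pow_ne_zero _ hc)
    · rw [div_eq_zero_iff] at e2
      exact e2.resolve_right (pow_ne_zero _ hc)
  · intro x
    obtain ⟨c₀, c₁, c₂, hx⟩ := h.sp x
    refine ⟨c₀, c₁ * c ^ 2, c₂ * c ^ 4, ?_⟩
    rw [hx, map_mul, map_mul, map_pow, map_pow]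
    field_simp

/-- The valuation of an element with integral coordinates, one of which is a unit. -/
private lemma Oi_one {a b : k} {θ : L} (h : Cub k L a b θ) {u : HeightOneSpectrum (𝓞 k)}
    (ha : u.valuation k a ≤ 1) (hb : u.valuation k b ≤ 1)
    (hr : ∀ t : k, u.valuation k t ≤ 1 → u.valuation k (t ^ 3 + a * t + b) = 1)
    {w : HeightOneSpectrum (𝓞 L)} (hw : dn k w = u) {c : Fin 3 → k}
    (hc : ∀ j, u.valuation k (c j) ≤ 1) {j : Fin 3} (hj : u.valuation k (c j) = 1) :
    w.valuation L (ev θ c) = 1 := by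
  subst hw
  have hθ : w.valuation L θ ≤ 1 := Oi_theta h.root (val_le ha) (val_le hb)
  have hev : ∀ d : Fin 3 → k, (∀ j, (dn k w).valuation k (d j) ≤ 1) → w.valuation L (ev θ d) ≤ 1 := by
    intro d hd
    have hθ' : θ ∈ (w.valuation L).integer := hθ
    have h0 : algebraMap k L (d 0) ∈ (w.valuation L).integer := val_le (hd 0)
    have h1 : algebraMap k L (d 1) ∈ (w.valuation L).integer := val_le (hd 1)
    have h2 : algebraMap k L (d 2) ∈ (w.valuation L).integer := val_le (hd 2)
    have : ev θ d ∈ (w.valuation L).integer :=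
      add_mem (add_mem h0 (mul_mem h1 hθ')) (mul_mem h2 (pow_mem hθ' 2))
    exact this
  have hN := val_one (w := w) (Oi_nf ha hb hr hc hj)
  rw [← Te_ev_adj h, map_mul] at hN
  have h1 := hev c hc
  have h2 := hev (Te_C a b c) (by
    have ha' : a ∈ ((dn k w).valuation k).integer := ha
    have hb' : b ∈ ((dn k w).valuation k).integer := hb
    have hx' : c 0 ∈ ((dn k w).valuation k).integer := hc 0
    have hy' : c 1 ∈ ((dn k w).valuation k).integer := hc 1
    have hz' : c 2 ∈ ((dn k w).valuation k).integer := hc 2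
    intro i
    fin_cases i
    · have : (c 0 - a * c 2) ^ 2 + a * c 1 ^ 2 + b * c 1 * c 2 ∈ ((dn k w).valuation k).integer :=
        add_mem (add_mem (pow_mem (sub_mem hx' (mul_mem ha' hz')) 2) (mul_mem ha' (pow_mem hy' 2)))
          (mul_mem (mul_mem hb' hy') hz')
      exact this
    · have : -(c 0 * c 1 + b * c 2 ^ 2) ∈ ((dn k w).valuation k).integer :=
        neg_mem (add_mem (mul_mem hx' hy') (mul_mem hb' (pow_mem hz' 2)))
      exact this
    · have : c 1 ^ 2 - c 0 * c 2 + a * c 2 ^ 2 ∈ ((dn k w).valuation k).integer :=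
        add_mem (sub_mem (pow_mem hy' 2) (mul_mem hx' hz')) (mul_mem ha' (pow_mem hz' 2))
      exact this)
  apply le_antisymm h1
  rw [← hN]
  calc w.valuation L (ev θ c) * w.valuation L (ev θ (Te_C a b c)) ≤ w.valuation L (ev θ c) * 1 :=
        mul_le_mul' le_rfl h2
    _ = _ := mul_one _

/-- All the places above `u` have the same ideal. -/
private lemma Oi_sub {a b : k} {θ : L} (h : Cub k L a b θ) {u : HeightOneSpectrum (𝓞 k)}
    (ha : u.valuation k a ≤ 1) (hb : u.valuation k b ≤ 1)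
    (hr : ∀ t : k, u.valuation k t ≤ 1 → u.valuation k (t ^ 3 + a * t + b) = 1)
    {w w' : HeightOneSpectrum (𝓞 L)} (hw : dn k w = u) (hw' : dn k w' = u) :
    w.asIdeal ≤ w'.asIdeal := by
  intro x hx
  by_cases hx0 : x = 0
  · rw [hx0]
    exact w'.asIdeal.zero_mem
  have hy0 : (algebraMap (𝓞 L) L x) ≠ 0 := by
    rw [Ne, FaithfulSMul.algebraMap_eq_zero_iff]
    exact hx0
  obtain ⟨c₀, c₁, c₂, hy⟩ := h.sp (algebraMap (𝓞 L) L x)
  obtain ⟨c, hcd⟩ : ∃ c : Fin 3 → k, c = ![c₀, c₁, c₂] := ⟨_, rfl⟩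
  have hyc : algebraMap (𝓞 L) L x = ev θ c := by
    rw [hy, hcd]
    simp [ev]
  obtain ⟨j, hj⟩ := Finite.exists_max (fun j => u.valuation k (c j))
  have hg0 : c j ≠ 0 := by
    intro h0
    apply hy0
    have hz : ∀ i, c i = 0 := by
      intro i
      have h1 := hj i
      simp only [h0, map_zero, le_zero_iff] at h1
      exact (Valuation.zero_iff _).1 h1
    rw [hyc]
    simp [ev, hz]
  have hscale : ev θ c = algebraMap k L (c j) * ev θ (fun i => c i / c j) := by
    have hgL : algebraMap k L (c j) ≠ 0 := by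
      rw [Ne, map_eq_zero]
      exact hg0
    simp only [ev, map_div₀]
    field_simp
  have hgV : u.valuation k (c j) ≠ 0 := (Valuation.ne_zero_iff _).2 hg0
  have hval : ∀ w₁ : HeightOneSpectrum (𝓞 L), dn k w₁ = u →
      w₁.valuation L (algebraMap (𝓞 L) L x) = w₁.valuation L (algebraMap k L (c j)) := by
    intro w₁ hw₁
    have hle : ∀ i, u.valuation k ((fun i => c i / c j) i) ≤ 1 := by
      intro i
      simp only [map_div₀]
      exact div_le_one_of_le₀ (hj i) zero_le
    have hone : u.valuation k ((fun i => c i / c j) j) = 1 := by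
      simp only [map_div₀]
      exact div_self hgV
    rw [hyc, hscale, map_mul, Oi_one h ha hb hr hw₁ hle hone, mul_one]
  have h1 : w.valuation L (algebraMap (𝓞 L) L x) < 1 :=
    (w.valuation_lt_one_iff_mem (K := L) x).2 hx
  rw [hval w hw] at h1
  have h2 : u.valuation k (c j) < 1 := by
    by_contra h3
    have h4 : (dn k w).valuation k (c j)⁻¹ ≤ 1 := by
      rw [hw, map_inv₀]
      exact inv_le_one_of_one_le₀ (not_lt.1 h3)
    have h5 := val_le h4
    rw [map_inv₀, map_inv₀] at h5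
    have h6 : w.valuation L (algebraMap k L (c j)) ≠ 0 := by
      rw [Ne, Valuation.zero_iff, map_eq_zero]
      exact hg0
    have h7 := (inv_le_one₀ (zero_lt_iff.2 h6)).1 h5
    exact absurd h1 (not_lt.2 h7)
  have h3 : w'.valuation L (algebraMap (𝓞 L) L x) < 1 := by
    rw [hval w' hw']
    apply val_lt
    rw [hw']
    exact h2
  exact (w'.valuation_lt_one_iff_mem (K := L) x).1 h3


theorem Oi_nb {a b : k} {θ : L} (h : Cub k L a b θ) {u : HeightOneSpectrum (𝓞 k)}
    (hN : NoRootAt u a b) : H30ZO.nb k L u ≤ 1 := by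
  obtain ⟨c, a', b', hc, ha, hb, ha', hb', hr⟩ := hN
  have h1 := Oi_cub h hc ha hb
  have hs : {w : HeightOneSpectrum (𝓞 L) | dn k w = u}.Subsingleton := by
    intro w hw w' hw'
    have h6 := Oi_sub h1 ha' hb' hr (w := w) (w' := w') hw hw'
    exact HeightOneSpectrum.ext (w.isMaximal.eq_of_le w'.isPrime.ne_top h6)
  exact (Set.ncard_le_one hs.finite).2 fun a ha b hb => hs ha hb

end Copy

/-- The condition of having no root passes to the places above in an extension inside `N`. -/
theorem Oi_up {K N : Type} [Field K] [NumberField K] [Field N] [NumberField N] [Algebra K N]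
    [IsGalois K N] {r : ℕ} (hr : Module.finrank K N = 2 ^ r) {a b : K} (n : ℕ) :
    ∀ (k : Type) [Field k] [NumberField k] [Algebra K k] [Algebra k N] [IsScalarTower K k N],
      Module.finrank K k = n →
      ∀ u : HeightOneSpectrum (𝓞 k), NoRootAt (dn K u) a b →
        NoRootAt u (algebraMap K k a) (algebraMap K k b) := by
  have _ : FiniteDimensional K N := Module.Finite.of_restrictScalars_finite ℚ K N
  induction n using Nat.strong_induction_on with
  | _ n ih =>
    intro k _ _ _ _ _ hn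
    by_cases h1 : Module.finrank K k = 1
    · exact fun u hu => nr_base h1 u hu
    · obtain ⟨k₀, hk₀⟩ := exists_half (K := K) (N := N) (k' := k) hr h1
      have _ : FiniteDimensional K k := Module.Finite.of_restrictScalars_finite ℚ K k
      have _ : NumberField k₀ := NumberField.of_module_finite K k₀
      have _ : IsScalarTower k₀ k N := inferInstance
      have _ : IsScalarTower K k₀ N := IsScalarTower.of_algebraMap_eq fun x => by
        rw [IsScalarTower.algebraMap_apply K k N, IsScalarTower.algebraMap_apply K k₀ k]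
        rfl
      have hmul := Module.finrank_mul_finrank K k₀ k
      rw [hk₀] at hmul
      have hpos : 0 < Module.finrank K k₀ := Module.finrank_pos
      have ih1 := ih (Module.finrank K k₀) (by omega) k₀ rfl
      have hab : ∀ x : K, algebraMap K k x = algebraMap k₀ k (algebraMap K k₀ x) :=
        IsScalarTower.algebraMap_apply K k₀ k
      intro u hu
      have h2 : dn K (dn k₀ u) = dn K u := H73P2.dn_dn u
      rw [hab, hab]
      refine NoRootAt.up hk₀ u (ih1 _ ?_)
      rw [h2]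
      exact hu

theorem descAt_noroot {K N : Type} [Field K] [NumberField K] [Field N] [NumberField N]
    [Algebra K N] {r : ℕ} (hr : Module.finrank K N = 2 ^ r) [IsGalois K N]
    {v : HeightOneSpectrum (𝓞 K)} (h2 : v.valuation K 2 = 1) {A B D : 𝓞 K} (hD : D ≠ 0)
    (hd : 4 * (A : K) ^ 3 + 27 * (B : K) ^ 2 ≠ 0)
    (hirr : ∀ t : K, t ^ 3 + (A : K) * t + (B : K) ≠ 0) (hn : H30PN.NoRt K v A B) :
    DescAt K N v ((D : K) ^ 2 * (A : K)) ((D : K) ^ 3 * (B : K)) := by
  intro k k' _ _ _ _ _ _ _ _ _ _ _ _ _ _ d hd0 hsq _ u hu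
  subst hu
  have _ : FiniteDimensional K N := Module.Finite.of_restrictScalars_finite ℚ K N
  have hDK : (D : K) ≠ 0 := by
    intro h0
    exact hD (RingOfIntegers.coe_injective (h0.trans (map_zero _).symm))
  have hDk : algebraMap K k (D : K) ≠ 0 := (map_ne_zero _).2 hDK
  -- (1)
  have h1 := H30PN.noroot_of (D := (1 : K)) one_ne_zero hn (by
    have : H38RT.ord ((dn K u).valuation K) (1 : K) = 0 := by
      unfold H38RT.ord
      rw [map_one]
      simp
    rw [this]
    exact Even.zero)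
  rw [one_pow, one_pow, one_mul, one_mul] at h1
  have h3 := Oi_up (N := N) hr _ k rfl u h1
  -- (2)
  obtain ⟨L, _, _, _, θ, hL⟩ := H24PD.exists_cub (K := k)
    (H73P2.noroot (K := K) (N := N) (k := k) hr hirr)
  have hnb := Oi_nb hL h3
  have hL2 := H73P2.Ev_twist hL hDk
  have ea : algebraMap K k ((D : K) ^ 2 * (A : K)) =
      algebraMap K k (D : K) ^ 2 * algebraMap K k (A : K) := by
    rw [map_mul, map_pow]
  have eb : algebraMap K k ((D : K) ^ 3 * (B : K)) =
      algebraMap K k (D : K) ^ 3 * algebraMap K k (B : K) := by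
    rw [map_mul, map_pow]
  rw [← ea, ← eb] at hL2
  obtain ⟨a, ha'⟩ : ∃ a : k, a = algebraMap K k ((D : K) ^ 2 * (A : K)) := ⟨_, rfl⟩
  obtain ⟨b, hb'⟩ : ∃ b : k, b = algebraMap K k ((D : K) ^ 3 * (B : K)) := ⟨_, rfl⟩
  have hua : u.valuation k a ≤ 1 := by
    rw [ha']
    apply val_le
    have e : (D : K) ^ 2 * (A : K) = ((D ^ 2 * A : 𝓞 K) : K) := by
      push_cast
      rfl
    rw [e]
    exact (dn K u).valuation_le_one _
  have hub : u.valuation k b ≤ 1 := by
    rw [hb']
    apply val_le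
    have e : (D : K) ^ 3 * (B : K) = ((D ^ 3 * B : 𝓞 K) : K) := by
      push_cast
      rfl
    rw [e]
    exact (dn K u).valuation_le_one _
  have hdd : 4 * a ^ 3 + 27 * b ^ 2 ≠ 0 := by
    have e : 4 * a ^ 3 + 27 * b ^ 2 =
        algebraMap K k ((D : K) ^ 6 * (4 * (A : K) ^ 3 + 27 * (B : K) ^ 2)) := by
      rw [ha', hb']
      simp only [map_mul, map_pow, map_add, map_ofNat]
      ring
    rw [e]
    exact (map_ne_zero _).2 (mul_ne_zero (pow_ne_zero 6 hDK) hd)
  rw [← ha', ← hb'] at hL2 hd0 hsq ⊢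
  obtain ⟨t, ht⟩ : ∃ t : L, t = algebraMap k L (algebraMap K k (D : K)) * θ := ⟨_, rfl⟩
  rw [← ht] at hL2
  have _ : CharZero (u.adicCompletion k) := H36CY.char_zero u
  obtain ⟨i, hi⟩ : ∃ i : k →+* u.adicCompletion k, i = algebraMap k (u.adicCompletion k) := ⟨_, rfl⟩
  have hD' : 4 * i a ^ 3 + 27 * i b ^ 2 ≠ 0 := by
    have e : 4 * i a ^ 3 + 27 * i b ^ 2 = i (4 * a ^ 3 + 27 * b ^ 2) := by
      simp only [map_add, map_mul, map_pow, map_ofNat]
    rw [e, Ne, map_eq_zero]
    exact hdd
  obtain ⟨W, hW⟩ := H30ZO.exists_WW hL2 i hD' (H24PD.inf_fin u (i a) (i b))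
  rw [hi] at hW
  obtain ⟨hi0, hi1⟩ := H30ZO.loc_idx hL2 u hua hub hdd hW
  have hq : H30ZO.qq u = 1 := by
    apply H30ZO.qq_odd
    have := val_one (w := u) h2
    rw [map_ofNat] at this
    exact this
  rw [hq, mul_one] at hi1
  have h2n : 2 ^ H30ZO.nb k L u ≤ 2 ^ 1 := Nat.pow_le_pow_right (by norm_num) hnb
  have hidx : W.relIndex (H30ZO.HH k L) = 1 := by omega
  have hle := AddSubgroup.relIndex_eq_one.1 hidx
  -- (5)
  have hne : ev t d ≠ 0 := by
    intro h0
    apply hd0
    rw [← Te_norm hL2, h0]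
    have _ : FiniteDimensional k L := Module.Finite.of_restrictScalars_finite ℚ k L
    exact Algebra.norm_zero
  have hmem : H38T1.sc (ev t d) ∈ H30ZO.HH k L := by
    rw [H30ZO.mem_HH hne, Te_norm hL2]
    exact hsq
  exact (H30ZO.Wc_iff _ hL2 hne).1 ((hW _).1 (hle hmem)).2

end H36O2
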