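import Pool.Agent.H36.CY.Df
import Pool.Agent.H24.PD.Df
import Pool.Agent.H10.GrHen

/-!
Definitions for the project MP_78d38b_O2 (no row): the auxiliary primes have decomposition groups of order at most
two.
-/

set_option autoImplicit false
set_option linter.unusedSectionVars false
open scoped Classical

open WithZero NumberField IsDedekindDomain H76PP H36CY H24PD

namespace H36O2

section Alg

variable {κ κ' : Type*} [Field κ] [Field κ']

/-- `κ'` is an extension of `κ` along `i` and `σ` is an involution of `κ'` with fixed field `κ`. -/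
structure Inv2 (i : κ →+* κ') (σ : κ' →+* κ') : Prop where
  inv : ∀ x, σ (σ x) = x
  fix : ∀ x, σ (i x) = i x
  desc : ∀ x, σ x = x → ∃ y, i y = x

/-- `e` in `κ` and `f` in `κ'` are roots of `T^3 + a T + b`, and `f` is not in `κ`. -/
structure Rts (i : κ →+* κ') (σ : κ' →+* κ') (a b e : κ) (f : κ') : Prop where
  r1 : e ^ 3 + a * e + b = 0
  r2 : f ^ 3 + i a * f + i b = 0
  ne : σ f ≠ f

variable {i : κ →+* κ'} {σ : κ' →+* κ'} {a b e : κ} {f : κ'}

theorem Rts.r1' (h : Rts i σ a b e f) : (i e) ^ 3 + i a * i e + i b = 0 := by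
  have h1 := congrArg i h.r1
  simpa using h1

theorem Rts.r3 (hI : Inv2 i σ) (h : Rts i σ a b e f) : (σ f) ^ 3 + i a * σ f + i b = 0 := by
  have h1 := congrArg σ h.r2
  simpa [hI.fix] using h1

theorem Rts.ne1 (hI : Inv2 i σ) (h : Rts i σ a b e f) : i e ≠ f := by
  intro h1
  apply h.ne
  rw [← h1, hI.fix]

theorem Rts.ne2 (hI : Inv2 i σ) (h : Rts i σ a b e f) : i e ≠ σ f := by
  intro h1
  apply h.ne1 hI
  have h2 := congrArg σ h1
  rwa [hI.inv, hI.fix] at h2

theorem Rts.sum (hI : Inv2 i σ) (h : Rts i σ a b e f) : i e + f + σ f = 0 := by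
  have h1 : (i e - f) * ((i e) ^ 2 + i e * f + f ^ 2 + i a) = 0 := by
    linear_combination h.r1' - h.r2
  have h2 : (i e - σ f) * ((i e) ^ 2 + i e * σ f + (σ f) ^ 2 + i a) = 0 := by
    linear_combination h.r1' - h.r3 hI
  have h3 := (mul_eq_zero.1 h1).resolve_left (sub_ne_zero.2 (h.ne1 hI))
  have h4 := (mul_eq_zero.1 h2).resolve_left (sub_ne_zero.2 (h.ne2 hI))
  have h5 : (f - σ f) * (i e + f + σ f) = 0 := by linear_combination h3 - h4
  exact (mul_eq_zero.1 h5).resolve_left (sub_ne_zero.2 h.ne.symm)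

theorem Rts.a_eq (hI : Inv2 i σ) (h : Rts i σ a b e f) :
    i a = i e * f + i e * σ f + f * σ f := by
  have h1 : (i e - f) * ((i e) ^ 2 + i e * f + f ^ 2 + i a) = 0 := by
    linear_combination h.r1' - h.r2
  have h3 := (mul_eq_zero.1 h1).resolve_left (sub_ne_zero.2 (h.ne1 hI))
  have h4 := h.sum hI
  linear_combination h3 - (i e + f) * h4

theorem Rts.b_eq (hI : Inv2 i σ) (h : Rts i σ a b e f) : i b = -(i e * f * σ f) := by
  have h1 := h.r1'
  have h2 := h.a_eq hI
  have h4 := h.sum hI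
  linear_combination h1 - i e * h2 - (i e) ^ 2 * h4

/-- The factorisation of the cubic over `κ'`. -/
theorem Rts.fac (hI : Inv2 i σ) (h : Rts i σ a b e f) (x : κ') :
    x ^ 3 + i a * x + i b = (x - i e) * (x - f) * (x - σ f) := by
  have h2 := h.a_eq hI
  have h3 := h.b_eq hI
  have h4 := h.sum hI
  linear_combination x * h2 + h3 + x ^ 2 * h4

/-- The product of the differences. -/
theorem Rts.prod (hI : Inv2 i σ) (h : Rts i σ a b e f) :
    (i e - f) * (i e - σ f) = i (3 * e ^ 2 + a) := by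
  have h2 := h.a_eq hI
  have h4 := h.sum hI
  rw [map_add, map_mul, map_pow, map_ofNat]
  linear_combination -h2 - 2 * i e * h4

end Alg

section Near

variable {M : Type*} [Field M] [Valued M (WithZero (Multiplicative ℤ))]

/-- The element `x` is close to the root `e` (relative to the other roots `f`, `g`), and the distances have
odd order. -/
structure Nr (n : ℤ) (e f g x : M) : Prop where
  sf : IsSquare ((x - f) * (e - f))
  sg : IsSquare ((x - g) * (e - g))
  vf : Valued.v (x - f) = exp (2 * n + 1)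
  vg : Valued.v (x - g) = exp (2 * n + 1)
  ve : ∃ m : ℤ, Valued.v (x - e) = exp (2 * m)

end Near

section Pts

variable {K : Type} [Field K] [NumberField K]

/-- Up to a twist by `D` the cubic has exactly one root modulo `v`. -/
def TypAt (v : HeightOneSpectrum (𝓞 K)) (a b : K) : Prop :=
  ∃ (D A B : 𝓞 K), D ≠ 0 ∧ a = (D : K) ^ 2 * (A : K) ∧ b = (D : K) ^ 3 * (B : K) ∧
    ∃ t : 𝓞 K, t ^ 3 + A * t + B ∈ v.asIdeal ∧ ∀ s : 𝓞 K, -3 * t ^ 2 - 4 * A - s ^ 2 ∉ v.asIdeal

/-- The decomposition groups of `v` in `N / K` have order at most two. -/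
def Dec2 (N : Type) [Field N] [NumberField N] [Algebra K N] (v : HeightOneSpectrum (𝓞 K)) : Prop :=
  ∀ W : HeightOneSpectrum (𝓞 N), dn K W = v → ∃ t : N ≃ₐ[K] N, ∀ g : N ≃ₐ[K] N,
    Stb K W g → g = 1 ∨ g = t

end Pts

end H36O2
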