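import Pool.Agent.H36.O2.Df
import Pool.Agent.H36.CY.Vl
import Pool.Agent.H36.CY.Ld

/-!
ROW Oe (project MP_78d38b_O2, about 150 lines): the completions of a quadratic extension at a prime which does not split and has
ramification index one.

PROOF. `σ` := the ring homomorphism of `exists_act` (Pool/Agent/H36/CY/Ac.lean) for `N := k'`, `K := k`, `W := w`, `g := τ`; it is continuous and extends `τ`. `j := (over_dn w).map` is continuous (`Over.continuous_map`) and extends `algebraMap k k'` (`Over.map_algebraMap`). All identities are proved on the dense subsets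
(`HeightOneSpectrum.denseRange_algebraMap`, `DenseRange.equalizer`, or `near_coe` of Pool/Agent/H36/CY/Ld.lean): `σ (σ x) = x` (`τ (τ x) = x`: `τ τ` fixes `k` and `ρ`, and `k' = k + k ρ` (`H73P2` quadratic basis lemmas, or: the group `k' ≃ₐ[k] k'` has at most two elements)); `σ (j x) = j x`;
`v (σ x) = v x` (`hτ` and `val_coe`; the valuation is locally constant away from zero: choose `y ∈ k'` with `v (y - x) < v x` and `v (σ y - σ x) < v (σ x)` by continuity); `v (j x) = v x` (`hun`; `v` is locally constant, `map_lt` in Pool/Agent/H36/CY/Vl.lean: `v x < v y → v (j x) < v (j y)`; take `y ∈ k` with `v (y - x) < v x`).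
DESCENT: let `σ x = x`. For every `n` choose `y_n ∈ k'` with `v (y_n - x) < exp (-n)` (`near_coe`), write `y_n = α_n + β_n ρ`, `α_n = (y_n + τ y_n) / 2 ∈ k` (fixed by `τ`). `v (j α_n - x) = v ((y_n - x) + (σ y_n - σ x)) < exp (-n)` (`v 2 = 1`). So `(α_n)` is a Cauchy sequence in the complete field `(dn k w).adicCompletion k` (`v (α_n - α_m) = v (j (α_n - α_m))`), with limit `α`, and `j α = x` (continuity of `j`).
Simpler: `j` is an isometric embedding (uniform inducing, `v (j x) = v x`) of a complete space, so its range is closed (`IsUniformInducing.isComplete_range`, `IsComplete.isClosed`), and `x` is in the closure of the range.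
-/

set_option autoImplicit false
set_option linter.unusedSectionVars false
open scoped Classical

open WithZero NumberField IsDedekindDomain H76PP H36CY H24PD H73P2

namespace H36O2

private theorem Oe_dens {K : Type} [Field K] [NumberField K] (u : HeightOneSpectrum (𝓞 K))
    {x : u.adicCompletion K} {s : Set (u.adicCompletion K)} (hs : s ∈ nhds x) :
    ∃ y : K, algebraMap K (u.adicCompletion K) y ∈ s := by
  obtain ⟨y, hy⟩ := (HeightOneSpectrum.denseRange_algebraMap (K := K) u).mem_nhds hs
  exact ⟨y, hy⟩

private theorem Oe_small {K : Type} [Field K] [NumberField K] (u : HeightOneSpectrum (𝓞 K))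
    {g : WithZero (Multiplicative ℤ)} (hg : g ≠ 0) :
    ∃ c : u.adicCompletion K, c ≠ 0 ∧ Valued.v c < g := by
  obtain ⟨n, hn⟩ := exists_exp_neg_natCast_lt (x := g) hg
  obtain ⟨π, hπ⟩ := u.valuation_exists_uniformizer K
  refine ⟨algebraMap K (u.adicCompletion K) (π ^ n), ?_, ?_⟩
  · have h1 : π ≠ 0 := by
      rintro rfl
      rw [map_zero] at hπ
      exact absurd hπ.symm exp_ne_zero
    exact (map_ne_zero _).2 (pow_ne_zero _ h1)
  · rw [val_coe, map_pow, hπ]
    refine lt_of_le_of_lt (le_of_eq ?_) hn
    rw [← exp_nsmul]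
    congr 1
    simp

private theorem Oe_ball {K : Type} [Field K] [NumberField K] (u : HeightOneSpectrum (𝓞 K))
    (x : u.adicCompletion K) {s : Set (u.adicCompletion K)} (hs : s ∈ nhds x) :
    ∃ c : u.adicCompletion K, c ≠ 0 ∧ ∀ z, Valued.v (z - x) < Valued.v c → z ∈ s := by
  obtain ⟨γ, hγ⟩ := Valued.mem_nhds.1 hs
  obtain ⟨c, hc, hc2⟩ := Oe_small u (g := MonoidWithZeroHom.ValueGroup₀.embedding γ.1) (by simp)
  refine ⟨c, hc, fun z hz => hγ ?_⟩
  change Valued.v.restrict _ < γ.1
  rw [Valuation.restrict_lt_iff_lt_embedding]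
  exact hz.trans hc2

private theorem Oe_grp {k k' : Type} [Field k] [NumberField k] [Field k'] [NumberField k']
    [Algebra k k'] (two : Module.finrank k k' = 2) {τ : k' ≃ₐ[k] k'} (hτ1 : τ ≠ 1) :
    (∀ y, τ (τ y) = y) ∧ ∀ y, τ y = y → ∃ z : k, algebraMap k k' z = y := by
  have hfd : FiniteDimensional k k' := FiniteDimensional.of_finrank_pos (by omega)
  have hc : Nat.card (k' ≃ₐ[k] k') ≤ 2 := by
    have h := AlgEquiv.card_le (F := k) (K := k')
    rw [two] at h
    rw [Nat.card_eq_fintype_card]
    exact h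
  have hfin : Finite (k' ≃ₐ[k] k') := inferInstance
  have hnt : Nontrivial (k' ≃ₐ[k] k') := ⟨τ, 1, hτ1⟩
  have hc2 : Nat.card (k' ≃ₐ[k] k') = 2 := by
    have h : 1 < Nat.card (k' ≃ₐ[k] k') := Finite.one_lt_card
    omega
  have hall : ∀ f : k' ≃ₐ[k] k', f = 1 ∨ f = τ := by
    intro f
    by_contra hf
    push Not at hf
    have h3 : ({1, τ, f} : Finset (k' ≃ₐ[k] k')).card = 3 := by
      rw [Finset.card_insert_of_notMem, Finset.card_insert_of_notMem, Finset.card_singleton]
      · rw [Finset.mem_singleton]
        exact fun h => hf.2 h.symm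
      · rw [Finset.mem_insert, Finset.mem_singleton]
        rintro (h | h)
        · exact hτ1 h.symm
        · exact hf.1 h.symm
    have h4 : ({1, τ, f} : Finset (k' ≃ₐ[k] k')).card ≤ Nat.card (k' ≃ₐ[k] k') := by
      rw [Nat.card_eq_fintype_card]
      exact Finset.card_le_univ _
    omega
  have hgal : IsGalois k k' := IsGalois.of_card_aut_eq_finrank k k' (by rw [two]; exact hc2)
  refine ⟨fun y => ?_, fun y hy => ?_⟩
  · have h : τ * τ = 1 := by
      rcases hall (τ * τ) with h | h
      · exact h
      · exact absurd (mul_eq_left.1 h) hτ1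
    exact DFunLike.congr_fun h y
  · obtain ⟨z, hz⟩ := (IsGalois.mem_range_algebraMap_iff_fixed y).2 (fun f => by
      rcases hall f with rfl | rfl
      · rfl
      · exact hy)
    exact ⟨z, hz⟩

theorem inv2_of {k k' : Type} [Field k] [NumberField k] [Field k'] [NumberField k'] [Algebra k k']
    (two : Module.finrank k k' = 2) (w : HeightOneSpectrum (𝓞 k')) {τ : k' ≃ₐ[k] k'}
    (hτ : Stb k w τ) {ρ : k'} (hρ0 : ρ ≠ 0) (hτρ : τ ρ = -ρ) (h2 : w.valuation k' 2 = 1)
    (hun : ∀ x : k, w.valuation k' (algebraMap k k' x) = (dn k w).valuation k x) :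
    ∃ σ : w.adicCompletion k' →+* w.adicCompletion k',
      Inv2 (over_dn (K := k) w).map σ ∧ (∀ x, Valued.v (σ x) = Valued.v x) ∧
      (∀ x : k', σ (algebraMap k' (w.adicCompletion k') x) =
        algebraMap k' (w.adicCompletion k') (τ x)) ∧
      ∀ x : (dn k w).adicCompletion k, Valued.v ((over_dn (K := k) w).map x) = Valued.v x := by
  have hτ1 : τ ≠ 1 := by
    rintro rfl
    have h1 : ρ = -ρ := hτρ
    have h2' : (2 : k') * ρ = 0 := by linear_combination h1
    rcases mul_eq_zero.1 h2' with h | h
    · exact two_ne_zero h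
    · exact hρ0 h
  obtain ⟨hinv, hfix⟩ := Oe_grp two hτ1
  obtain ⟨σ, hσc, hσ⟩ := exists_act w hτ
  obtain ⟨j, hj⟩ : ∃ j : (dn k w).adicCompletion k →+* w.adicCompletion k',
      j = (over_dn (K := k) w).map := ⟨_, rfl⟩
  have hjc : Continuous j := by rw [hj]; exact (over_dn (K := k) w).continuous_map
  have hja : ∀ x : k, j (algebraMap k ((dn k w).adicCompletion k) x) =
      algebraMap k' (w.adicCompletion k') (algebraMap k k' x) := by
    intro x
    rw [hj]
    exact (over_dn (K := k) w).map_algebraMap x
  rw [← hj]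
  have hσv : ∀ x, Valued.v (σ x) = Valued.v x := by
    intro x
    by_cases hx : x = 0
    · rw [hx, map_zero]
    have hx2 : σ x ≠ 0 := (map_ne_zero σ).2 hx
    obtain ⟨y, hy1, hy2⟩ := Oe_dens w (Filter.inter_mem (Te_nhd x hx)
      ((hσc.continuousAt (x := x)).preimage_mem_nhds (Te_nhd (σ x) hx2)))
    have h1 : Valued.v (algebraMap k' (w.adicCompletion k') y) = Valued.v x :=
      Valuation.map_eq_of_sub_lt _ hy1
    have h3 : Valued.v (σ (algebraMap k' (w.adicCompletion k') y)) = Valued.v (σ x) :=
      Valuation.map_eq_of_sub_lt _ hy2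
    rw [← h1, ← h3, hσ, val_coe, val_coe, hτ y]
  have hjv : ∀ x, Valued.v (j x) = Valued.v x := by
    intro x
    by_cases hx : x = 0
    · rw [hx, map_zero, map_zero, map_zero]
    have hx2 : j x ≠ 0 := (map_ne_zero j).2 hx
    obtain ⟨y, hy1, hy2⟩ := Oe_dens (dn k w) (Filter.inter_mem (Te_nhd x hx)
      ((hjc.continuousAt (x := x)).preimage_mem_nhds (Te_nhd (j x) hx2)))
    have h1 : Valued.v (algebraMap k ((dn k w).adicCompletion k) y) = Valued.v x :=
      Valuation.map_eq_of_sub_lt _ hy1
    have h3 : Valued.v (j (algebraMap k ((dn k w).adicCompletion k) y)) = Valued.v (j x) :=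
      Valuation.map_eq_of_sub_lt _ hy2
    rw [← h1, ← h3, hja, val_coe, val_coe, hun y]
  refine ⟨σ, ⟨?_, ?_, ?_⟩, hσv, hσ, hjv⟩
  · intro x
    have h := act_ext w (f := fun x => σ (σ x)) (f' := fun x => x) (hσc.comp hσc) continuous_id
      (fun y => by
        show σ (σ (algebraMap k' (w.adicCompletion k') y)) = _
        rw [hσ, hσ, hinv])
    exact congrFun h x
  · intro x
    have h := act_ext (dn k w) (f := fun x => σ (j x)) (f' := fun x => j x) (hσc.comp hjc) hjc
      (fun y => by
        show σ (j (algebraMap k ((dn k w).adicCompletion k) y)) = _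
        rw [hja, hσ, AlgEquiv.commutes])
    exact congrFun h x
  · intro x hx
    have h2v : Valued.v (2 : w.adicCompletion k') = 1 := by
      have h := val_coe w (2 : k')
      rw [map_ofNat, h2] at h
      exact h
    have hne2 : (2 : w.adicCompletion k') ≠ 0 := by
      intro h
      rw [h, map_zero] at h2v
      exact zero_ne_one h2v
    have hdense : ∀ c : w.adicCompletion k', c ≠ 0 → ∃ α, Valued.v (j α - x) < Valued.v c := by
      intro c hc
      obtain ⟨y, hy⟩ := near_coe w x hc
      obtain ⟨z, hz⟩ := hfix (y + τ y) (by rw [map_add, hinv]; ring)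
      refine ⟨algebraMap k ((dn k w).adicCompletion k) (z / 2), ?_⟩
      have e1 : (2 : w.adicCompletion k') *
          (j (algebraMap k ((dn k w).adicCompletion k) (z / 2)) - x) =
          (algebraMap k' (w.adicCompletion k') y - x) +
            σ (algebraMap k' (w.adicCompletion k') y - x) := by
        rw [map_sub, hx, hσ, hja, map_div₀, hz, map_ofNat, map_div₀, map_add, map_ofNat]
        field_simp
        ring
      have e2 : Valued.v (j (algebraMap k ((dn k w).adicCompletion k) (z / 2)) - x) =
          Valued.v ((algebraMap k' (w.adicCompletion k') y - x) +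
            σ (algebraMap k' (w.adicCompletion k') y - x)) := by
        rw [← e1, map_mul, h2v, one_mul]
      rw [e2]
      exact Valuation.map_add_lt _ hy (by rw [hσv]; exact hy)
    have hne : (Filter.comap j (nhds x)).NeBot := by
      rw [Filter.comap_neBot_iff]
      intro t ht
      obtain ⟨c, hc, hc2⟩ := Oe_ball w x ht
      obtain ⟨α, hα⟩ := hdense c hc
      exact ⟨α, hc2 _ hα⟩
    have hcau : Cauchy (Filter.comap j (nhds x)) := by
      rw [Valued.cauchy_iff]
      refine ⟨hne, fun γ => ?_⟩
      obtain ⟨c, hc, hc2⟩ := Oe_small w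
        (g := MonoidWithZeroHom.ValueGroup₀.embedding γ.1) (by simp)
      refine ⟨j ⁻¹' {z | Valued.v (z - x) < Valued.v c},
        Filter.preimage_mem_comap (Te_nhd x hc), ?_⟩
      intro α hα β hβ
      rw [Valuation.restrict_lt_iff_lt_embedding]
      refine lt_trans ?_ hc2
      rw [← hjv (β - α), map_sub j]
      have e : j β - j α = (j β - x) - (j α - x) := by ring
      rw [e]
      exact Valuation.map_sub_lt _ hβ hα
    obtain ⟨α, hα⟩ := CompleteSpace.complete hcau
    refine ⟨α, ?_⟩
    have h3 : Filter.Tendsto j (Filter.comap j (nhds x)) (nhds (j α)) :=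
      (hjc.tendsto α).mono_left hα
    have h4 : Filter.Tendsto j (Filter.comap j (nhds x)) (nhds x) := Filter.tendsto_comap
    exact tendsto_nhds_unique h3 h4

end H36O2
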