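import Pool.Agent.H36.O2.Df
import Pool.Agent.H36.LG.Hc

/-!
ROW Of (project MP_78d38b_O2, about 200 lines): the three roots.

PROOF. `v (3 t^2 + A) = 1`: it is `≤ 1`; if it is `< 1` take `s = 3 t` in `h2`: `-3 t^2 - 4 A - 9 t^2 = -4 (3 t^2 + A)` has value `< 1`. HENSEL (`Pool/Agent/H36/LG/Hc.lean` has a Hensel lemma for this cubic; or Newton, or `IsAdicComplete`/completeness): a root `e` of `T^3 + A T + B` in `κ` with `v (e - t) < 1`; `v e ≤ 1`.
`δ := -3 e^2 - 4 A`; `v (δ - (-3 t^2 - 4 A)) < 1`, so `v (δ - s^2) = 1` for all `s` with `v s ≤ 1`; `v δ = 1` (`s = 0`), and `δ` is not a square in `κ` (a root would have value one).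
`ρ^2` is fixed by `σ`, so `ρ^2 = i D₀`, `D₀ ≠ 0` (`hI.desc`). `v ρ = exp m` for some `m : ℤ` (`m = log (v ρ)`), `c := ϖ ^ (-m)` (zpow), `v c = v ρ`, `D₁ := D₀ / c^2`, `v D₁ = 1` (`hv`). `D₁` is not a square in `κ`: otherwise `ρ = ± i (c s)` would be fixed by `σ`, but `σ ρ = -ρ ≠ ρ` (`2 ≠ 0` since `v 4 = 1`). By `hns` `δ D₁ = r^2`, `r ∈ κ`.
`η := i (r c) / ρ`: `η^2 = i (r^2 c^2) / i D₀ = i (δ D₁ c^2 / D₀) = i δ`, `σ η = -η`, `v η = 1` (`v η^2 = v δ = 1`). `f := (-i e + η) / 2`, `σ f = (-i e - η) / 2`. `f^2 + i e f + (i e)^2 + i A = 0` (as `η^2 = -3 (i e)^2 - 4 i A`), so `f^3 + i A f + i B = (f - i e) (f^2 + i e f + (i e)^2 + i A) + (e^3 + A e + B) = 0`. `f - σ f = η`.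
`v f ≤ 1` (`v 2 = 1`), `(i e - f) (i e - σ f) = i (3 e^2 + A)` (`Rts.prod`) has value one (`v (3 e^2 + A) = 1` as for `t`), both factors have value `≤ 1`, so both have value one.
-/

set_option autoImplicit false
set_option linter.unusedSectionVars false
open scoped Classical

open WithZero NumberField IsDedekindDomain H76PP H36CY H24PD

namespace H36O2

theorem v_sq1 {a : WithZero (Multiplicative ℤ)} (h : a ^ 2 = 1) : a = 1 := by
  rcases lt_trichotomy a 1 with h1 | h1 | h1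
  · exact absurd h (ne_of_lt (pow_lt_one' h1 two_ne_zero))
  · exact h1
  · exact absurd h (ne_of_gt (one_lt_pow' h1 two_ne_zero))

theorem exists_rts {κ κ' : Type*} [Field κ] [Field κ'] [Valued κ (WithZero (Multiplicative ℤ))]
    [CompleteSpace κ] [Valued κ' (WithZero (Multiplicative ℤ))] [CompleteSpace κ']
    {i : κ →+* κ'} {σ : κ' →+* κ'} (hI : Inv2 i σ) (h4 : Valued.v (4 : κ) = 1)
    (hv : ∀ x : κ, Valued.v (i x) = Valued.v x) {ϖ : κ} (hϖ : Valued.v ϖ = exp (-1 : ℤ))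
    (hns : ∀ x y : κ, Valued.v x = 1 → Valued.v y = 1 → ¬ IsSquare x → ¬ IsSquare y →
      IsSquare (x * y))
    {ρ : κ'} (hρ0 : ρ ≠ 0) (hρ : σ ρ = -ρ) {A B t : κ} (hA : Valued.v A ≤ 1)
    (hB : Valued.v B ≤ 1) (ht : Valued.v t ≤ 1) (h1 : Valued.v (t ^ 3 + A * t + B) < 1)
    (h2 : ∀ s : κ, Valued.v s ≤ 1 → Valued.v (-3 * t ^ 2 - 4 * A - s ^ 2) = 1) :
    ∃ (e : κ) (f : κ'), Rts i σ A B e f ∧ Valued.v (i e) ≤ 1 ∧ Valued.v f ≤ 1 ∧
      Valued.v (i e - f) = 1 ∧ Valued.v (f - σ f) = 1 := by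
  obtain ⟨D, hDe⟩ : ∃ D, D = 3 * t ^ 2 + A := ⟨_, rfl⟩
  have hDle : Valued.v D ≤ 1 := by
    rw [hDe]
    exact Valuation.map_add_le _ (H36LG.v_ml1 (H36LG.v_ofNat 3) (H36LG.v_pw1 ht 2)) hA
  have h3t : Valued.v (3 * t) ≤ 1 := H36LG.v_ml1 (H36LG.v_ofNat 3) ht
  have hD1 : Valued.v D = 1 := by
    have h5 := h2 (3 * t) h3t
    have h6 : -3 * t ^ 2 - 4 * A - (3 * t) ^ 2 = -(4 * D) := by
      rw [hDe]
      ring
    rw [h6, Valuation.map_neg, map_mul, h4, one_mul] at h5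
    exact h5
  have hD0 : D ≠ 0 := by
    rintro rfl
    rw [map_zero] at hD1
    exact zero_ne_one hD1
  obtain ⟨F, hF⟩ : ∃ F, F = t ^ 3 + A * t + B := ⟨_, rfl⟩
  rw [← hF] at h1
  have hc0 : Valued.v (F / D ^ 2) < 1 := by
    rw [map_div₀, map_pow, hD1, one_pow, div_one]
    exact h1
  obtain ⟨Y, hY, hYv⟩ := H36LG.hens3 (F := κ) hc0 h3t hDle
  have hYv1 : Valued.v (D * Y) < 1 := by
    rw [map_mul, hD1, one_mul]
    exact hYv.trans_lt hc0
  obtain ⟨e, he⟩ : ∃ e, e = t + D * Y := ⟨_, rfl⟩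
  have het : e - t = D * Y := by
    rw [he]
    ring
  have hr1 : e ^ 3 + A * e + B = 0 := by
    have h7 : e ^ 3 + A * e + B = D ^ 2 * (F / D ^ 2 + Y + 3 * t * Y ^ 2 + D * Y ^ 3) := by
      have h8 : D ^ 2 * (F / D ^ 2) = F := by
        field_simp
      calc e ^ 3 + A * e + B = F + (3 * t ^ 2 + A) * (D * Y) + 3 * t * (D * Y) ^ 2 +
            (D * Y) ^ 3 := by
            rw [he, hF]
            ring
        _ = D ^ 2 * (F / D ^ 2) + D * (D * Y) + 3 * t * (D * Y) ^ 2 + (D * Y) ^ 3 := by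
            rw [h8, ← hDe]
        _ = _ := by ring
    rw [h7, hY, mul_zero]
  have hev : Valued.v e ≤ 1 := by
    rw [he]
    exact Valuation.map_add_le _ ht hYv1.le
  have hsm : ∀ z : κ, Valued.v z ≤ 1 → Valued.v (z * ((e - t) * (e + t))) < 1 := by
    intro z hz
    rw [map_mul, map_mul, het]
    have h9 : Valued.v (e + t) ≤ 1 := Valuation.map_add_le _ hev ht
    calc Valued.v z * (Valued.v (D * Y) * Valued.v (e + t)) ≤ 1 * (Valued.v (D * Y) * 1) :=
          mul_le_mul' hz (mul_le_mul' le_rfl h9)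
      _ = Valued.v (D * Y) := by rw [one_mul, mul_one]
      _ < 1 := hYv1
  obtain ⟨δ, hδ⟩ : ∃ δ, δ = -3 * e ^ 2 - 4 * A := ⟨_, rfl⟩
  have hδs : ∀ s : κ, Valued.v s ≤ 1 → Valued.v (δ - s ^ 2) = 1 := by
    intro s hs
    have h10 : δ - s ^ 2 = (-3 * t ^ 2 - 4 * A - s ^ 2) + -(3 * ((e - t) * (e + t))) := by
      rw [hδ]
      ring
    have h11 := h2 s hs
    rw [h10, Valuation.map_add_eq_of_lt_left, h11]
    rw [h11, Valuation.map_neg]
    exact hsm 3 (H36LG.v_ofNat 3)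
  have hδv : Valued.v δ = 1 := by
    have h12 := hδs 0 (by rw [map_zero]; exact zero_le_one)
    simpa using h12
  have hδns : ¬ IsSquare δ := by
    rintro ⟨s, hs⟩
    have h13 : Valued.v s * Valued.v s = 1 := by
      rw [← map_mul, ← hs]
      exact hδv
    have h14 : Valued.v s = 1 := by
      rw [← pow_two] at h13
      exact v_sq1 h13
    have h15 := hδs s h14.le
    rw [hs, pow_two, sub_self, map_zero] at h15
    exact zero_ne_one h15
  have h2v : Valued.v (2 : κ) = 1 := by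
    have h16 : Valued.v (2 : κ) ^ 2 = 1 := by
      rw [← map_pow]
      have h17 : (2 : κ) ^ 2 = 4 := by norm_num
      rw [h17]
      exact h4
    exact v_sq1 h16
  have h2v' : Valued.v (2 : κ') = 1 := by
    have h18 := hv 2
    rw [map_ofNat] at h18
    rw [h18]
    exact h2v
  have h20 : (2 : κ') ≠ 0 := by
    intro h
    rw [h, map_zero] at h2v'
    exact zero_ne_one h2v'
  -- the square of ρ
  obtain ⟨D0, hD0e⟩ := hI.desc (ρ ^ 2) (by rw [map_pow, hρ]; ring)
  have hD00 : D0 ≠ 0 := by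
    rintro rfl
    rw [map_zero] at hD0e
    exact hρ0 (pow_eq_zero_iff (two_ne_zero) |>.1 hD0e.symm)
  have hρv : Valued.v ρ ≠ 0 := (Valuation.ne_zero_iff _).2 hρ0
  obtain ⟨m, hm⟩ : ∃ m : ℤ, Valued.v ρ = exp m := ⟨_, (exp_log hρv).symm⟩
  obtain ⟨c, hc⟩ : ∃ c : κ, c = ϖ ^ (-m) := ⟨_, rfl⟩
  have hcv : Valued.v c = Valued.v ρ := by
    rw [hc, map_zpow₀, hϖ, hm, ← exp_zsmul]
    congr 1
    simp
  have hc0' : c ≠ 0 := by
    intro h
    rw [h, map_zero] at hcv
    exact hρv hcv.symm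
  have hD0v : Valued.v D0 = Valued.v c ^ 2 := by
    rw [← hv, hD0e, map_pow, hcv]
  have hD1v : Valued.v (D0 / c ^ 2) = 1 := by
    rw [map_div₀, map_pow, hD0v]
    exact div_self (pow_ne_zero _ ((Valuation.ne_zero_iff _).2 hc0'))
  have hD1ns : ¬ IsSquare (D0 / c ^ 2) := by
    rintro ⟨s, hs⟩
    have h21 : D0 = (c * s) ^ 2 := by
      have h22 : D0 = D0 / c ^ 2 * c ^ 2 := by
        field_simp
      rw [h22, hs]
      ring
    have h23 : ρ ^ 2 = (i (c * s)) ^ 2 := by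
      rw [← hD0e, h21, map_pow]
    have h24 : σ ρ = ρ := by
      rcases sq_eq_sq_iff_eq_or_eq_neg.1 h23 with h | h
      · rw [h, hI.fix]
      · rw [h, map_neg, hI.fix]
    have h25 : (2 : κ') * ρ = 0 := by
      have h26 : -ρ = ρ := by rw [← hρ, h24]
      linear_combination -h26
    rcases mul_eq_zero.1 h25 with h | h
    · exact h20 h
    · exact hρ0 h
  obtain ⟨r, hr⟩ := hns δ (D0 / c ^ 2) hδv hD1v hδns hD1ns
  obtain ⟨η, hη⟩ : ∃ η : κ', η = i (r * c) / ρ := ⟨_, rfl⟩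
  have hη2 : η ^ 2 = i δ := by
    have h27 : (r * c) ^ 2 = δ * D0 := by
      have h28 : (r * c) ^ 2 = (r * r) * c ^ 2 := by ring
      rw [h28, ← hr]
      field_simp
    rw [hη, div_pow, ← hD0e, ← map_pow, h27, map_mul]
    exact mul_div_cancel_right₀ _ (by
      intro h
      exact hD00 (i.injective (by rw [h, map_zero])))
  have hση : σ η = -η := by
    rw [hη, map_div₀, hI.fix, hρ, div_neg]
  have hηv : Valued.v η = 1 := by
    have h29 : Valued.v η ^ 2 = 1 := by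
      rw [← map_pow, hη2, hv]
      exact hδv
    exact v_sq1 h29
  have hη0 : η ≠ 0 := by
    intro h
    rw [h, map_zero] at hηv
    exact zero_ne_one hηv
  have hη3 : η ^ 2 = -3 * (i e) ^ 2 - 4 * i A := by
    rw [hη2, hδ, map_sub, map_mul, map_mul, map_neg, map_pow, map_ofNat, map_ofNat]
  obtain ⟨f, hf⟩ : ∃ f : κ', f = (-(i e) + η) / 2 := ⟨_, rfl⟩
  have h2f : 2 * f = -(i e) + η := by
    rw [hf]
    field_simp
  have hσf : 2 * σ f = -(i e) - η := by
    have h30 := congrArg σ h2f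
    rw [map_mul, map_ofNat, map_add, map_neg, hI.fix, hση] at h30
    rw [h30]
    ring
  have hdf : f - σ f = η := by
    have h31 : (2 : κ') * (f - σ f) = 2 * η := by
      linear_combination h2f - hσf
    exact mul_left_cancel₀ h20 h31
  have hq : f ^ 2 + i e * f + (i e) ^ 2 + i A = 0 := by
    have h32 : (4 : κ') * (f ^ 2 + i e * f + (i e) ^ 2 + i A) = 0 := by
      have h33 : (4 : κ') * (f ^ 2 + i e * f + (i e) ^ 2 + i A) =
          (2 * f) ^ 2 + 2 * i e * (2 * f) + 4 * (i e) ^ 2 + 4 * i A := by ring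
      rw [h33, h2f]
      linear_combination hη3
    have h40 : (4 : κ') ≠ 0 := by
      have h41 : (4 : κ') = 2 * 2 := by norm_num
      rw [h41]
      exact mul_ne_zero h20 h20
    exact (mul_eq_zero.1 h32).resolve_left h40
  have hr1' : (i e) ^ 3 + i A * i e + i B = 0 := by
    have h34 := congrArg i hr1
    simpa using h34
  have hR : Rts i σ A B e f := by
    refine ⟨hr1, ?_, ?_⟩
    · linear_combination (f - i e) * hq + hr1'
    · intro h
      apply hη0
      rw [← hdf, h, sub_self]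
  have hiev : Valued.v (i e) ≤ 1 := by
    rw [hv]
    exact hev
  have hfv : Valued.v f ≤ 1 := by
    have h35 : Valued.v (2 * f) ≤ 1 := by
      rw [h2f]
      refine Valuation.map_add_le _ ?_ hηv.le
      rw [Valuation.map_neg]
      exact hiev
    rw [map_mul, h2v', one_mul] at h35
    exact h35
  have hσfv : Valued.v (σ f) ≤ 1 := by
    have h35 : Valued.v (2 * σ f) ≤ 1 := by
      rw [hσf]
      refine Valuation.map_sub_le _ ?_ hηv.le
      rw [Valuation.map_neg]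
      exact hiev
    rw [map_mul, h2v', one_mul] at h35
    exact h35
  refine ⟨e, f, hR, hiev, hfv, ?_, ?_⟩
  · have h36 := hR.prod hI
    have h37 : Valued.v (3 * e ^ 2 + A) = 1 := by
      have h38 : 3 * e ^ 2 + A = D + 3 * ((e - t) * (e + t)) := by
        rw [hDe]
        ring
      rw [h38, Valuation.map_add_eq_of_lt_left, hD1]
      rw [hD1]
      exact hsm 3 (H36LG.v_ofNat 3)
    have h39 : Valued.v (i e - f) * Valued.v (i e - σ f) = 1 := by
      rw [← map_mul, h36, hv]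
      exact h37
    have h42 : Valued.v (i e - f) ≤ 1 := Valuation.map_sub_le _ hiev hfv
    have h43 : Valued.v (i e - σ f) ≤ 1 := Valuation.map_sub_le _ hiev hσfv
    refine le_antisymm h42 ?_
    rw [← h39]
    calc Valued.v (i e - f) * Valued.v (i e - σ f) ≤ Valued.v (i e - f) * 1 :=
          mul_le_mul' le_rfl h43
      _ = Valued.v (i e - f) := mul_one _
  · rw [hdf]
    exact hηv

end H36O2
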