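import Pool.Agent.H36.O2.Or

/-!
ROW Og (project MP_78d38b_O2, about 120 lines; uses only the statement of Or): a nonsquare modulo `v` remains a nonsquare modulo `dn k W` if
the decomposition group at `W` has order two and contains an element that is the identity on `k`.

PROOF. Let `q` be the number of elements of `𝓞 K ⧸ v` (`v = dn K W`), odd since `2 ∉ v`. `exists_frob W` gives `φ` with `Stb K W φ` and `φ x - x^q ∈ W` for all `x ∈ 𝓞 N`. By `hdec`: `φ = 1` or `φ = t₀`; the restriction of scalars of `g` (`AlgEquiv.restrictScalars K g`) also satisfies `Stb K W`, and is not `1`, so it is `t₀`.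
So `φ = 1` or `φ = g`; in both cases `φ s = s` for `s ∈ 𝓞 k` (as an element of `N`).
Assume `δ - s^2 ∈ dn k W`, `s : 𝓞 k`. In the field `𝓞 N ⧸ W`: `s = φ s = s^q = s * (s^2)^((q-1)/2) = s * δ^((q-1)/2) = -s`, because `δ^((q-1)/2) = -1` in `𝓞 K ⧸ v` (`FiniteField.pow_dichotomy` and `FiniteField.isSquare_iff`, as `δ` is not a square there by `hδ`, every class being represented by an element of `𝓞 K`; `δ ≠ 0` in the quotient by `hδ 0`).
So `2 s = 0`, `s ∈ W` (`2 ∉ W` since `2 ∉ v`), `δ ∈ W ∩ 𝓞 K = v`, contradiction to `hδ 0`.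
-/

set_option autoImplicit false
set_option linter.unusedSectionVars false
open scoped Classical

open WithZero NumberField IsDedekindDomain H76PP H36CY H24PD

namespace H36O2

theorem nonsq_up {K k N : Type} [Field K] [NumberField K] [Field k] [NumberField k] [Field N]
    [NumberField N] [Algebra K k] [Algebra k N] [Algebra K N] [IsScalarTower K k N]
    [IsGalois K N] (W : HeightOneSpectrum (𝓞 N)) (h2 : (2 : 𝓞 K) ∉ (dn K W).asIdeal)
    {t₀ : N ≃ₐ[K] N} (hdec : ∀ g : N ≃ₐ[K] N, Stb K W g → g = 1 ∨ g = t₀) {g : N ≃ₐ[k] N}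
    (hg : Stb k W g) (hg1 : g ≠ 1) {δ : 𝓞 K} (hδ : ∀ s : 𝓞 K, δ - s ^ 2 ∉ (dn K W).asIdeal)
    (s : 𝓞 k) : algebraMap (𝓞 K) (𝓞 k) δ - s ^ 2 ∉ (dn k W).asIdeal := by
  intro hmem
  obtain ⟨v, hv⟩ : ∃ v : Ideal (𝓞 K), v = (dn K W).asIdeal := ⟨_, rfl⟩
  have hvW : ∀ x : 𝓞 K, x ∈ v ↔ algebraMap (𝓞 K) (𝓞 N) x ∈ W.asIdeal := by
    intro x
    rw [hv]
    exact Ideal.mem_comap
  have hkW : ∀ x : 𝓞 k, x ∈ (dn k W).asIdeal ↔ algebraMap (𝓞 k) (𝓞 N) x ∈ W.asIdeal := by
    intro x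
    exact Ideal.mem_comap
  have hvp : v.IsPrime := by rw [hv]; exact (dn K W).isPrime
  have hvb : v ≠ ⊥ := by rw [hv]; exact (dn K W).ne_bot
  have hvm : v.IsMaximal := hvp.isMaximal hvb
  letI : Field (𝓞 K ⧸ v) := Ideal.Quotient.field v
  haveI : Finite (𝓞 K ⧸ v) := Ideal.finiteQuotientOfFreeOfNeBot v hvb
  letI : Fintype (𝓞 K ⧸ v) := Fintype.ofFinite _
  have h2v : (2 : 𝓞 K) ∉ v := by rw [hv]; exact h2
  have h2q : (2 : 𝓞 K ⧸ v) ≠ 0 := by
    intro h
    apply h2v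
    rw [← Ideal.Quotient.eq_zero_iff_mem, show Ideal.Quotient.mk v 2 = 2 from map_ofNat _ 2]
    exact h
  have hch : ringChar (𝓞 K ⧸ v) ≠ 2 := by
    intro h
    apply h2q
    have h3 := ringChar.Nat.cast_ringChar (R := 𝓞 K ⧸ v)
    rw [h] at h3
    exact_mod_cast h3
  have hδ0 : (Ideal.Quotient.mk v δ) ≠ 0 := by
    rw [Ne, Ideal.Quotient.eq_zero_iff_mem]
    have := hδ 0
    rw [← hv] at this
    simpa using this
  have hns : ¬ IsSquare (Ideal.Quotient.mk v δ) := by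
    rintro ⟨y, hy⟩
    obtain ⟨z, rfl⟩ := Ideal.Quotient.mk_surjective y
    apply hδ z
    rw [← hv, ← Ideal.Quotient.eq_zero_iff_mem, map_sub, map_pow, hy]
    ring
  obtain ⟨m, hm⟩ : ∃ m, m = Fintype.card (𝓞 K ⧸ v) / 2 := ⟨_, rfl⟩
  have hpow : (Ideal.Quotient.mk v δ) ^ m = -1 := by
    rw [hm]
    rcases FiniteField.pow_dichotomy hch hδ0 with h | h
    · exact absurd ((FiniteField.isSquare_iff hch hδ0).mpr h) hns
    · exact h
  have hodd : Nat.card (𝓞 K ⧸ v) = 2 * m + 1 := by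
    have h1 := FiniteField.odd_card_of_char_ne_two hch
    rw [Nat.card_eq_fintype_card, hm]
    omega
  have hpow' : δ ^ m + 1 ∈ v := by
    rw [← Ideal.Quotient.eq_zero_iff_mem, map_add, map_pow, hpow, map_one]
    ring
  -- Frobenius
  obtain ⟨φ, hφ, hφ2⟩ := exists_frob (K := K) W
  have hgK : Stb K W (AlgEquiv.restrictScalars K g) := fun y => hg y
  have hgK1 : AlgEquiv.restrictScalars K g ≠ 1 := by
    intro h
    apply hg1
    ext y
    have := DFunLike.congr_fun h y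
    simpa using this
  have ht : t₀ = AlgEquiv.restrictScalars K g := by
    rcases hdec _ hgK with h | h
    · exact absurd h hgK1
    · exact h.symm
  obtain ⟨s', hs'⟩ : ∃ s' : 𝓞 N, s' = algebraMap (𝓞 k) (𝓞 N) s := ⟨_, rfl⟩
  have hs'N : (s' : N) = algebraMap k N (s : k) := by
    rw [hs']
    rfl
  have hφs : φ (s' : N) = (s' : N) := by
    rcases hdec φ hφ with h | h
    · rw [h]; rfl
    · rw [h, ht, hs'N]
      exact g.commutes _
  have hfr := hφ2 s'
  rw [hφs, ← hv, hodd] at hfr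
  have hfr' : s' - s' ^ (2 * m + 1) ∈ W.asIdeal := by
    rw [← W.valuation_lt_one_iff_mem (K := N)]
    simpa using hfr
  have hD : algebraMap (𝓞 K) (𝓞 N) δ = algebraMap (𝓞 k) (𝓞 N) (algebraMap (𝓞 K) (𝓞 k) δ) :=
    IsScalarTower.algebraMap_apply (𝓞 K) (𝓞 k) (𝓞 N) δ
  rw [hkW, map_sub, map_pow, ← hD, ← hs'] at hmem
  rw [hvW, map_add, map_pow, map_one] at hpow'
  have hWp : W.asIdeal.IsPrime := W.isPrime
  have h2W : (2 : 𝓞 N) ∉ W.asIdeal := by
    intro h
    apply h2v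
    rw [hvW, show algebraMap (𝓞 K) (𝓞 N) 2 = 2 from map_ofNat _ 2]
    exact h
  have hδW : algebraMap (𝓞 K) (𝓞 N) δ ∉ W.asIdeal := by
    rw [← hvW]
    have := hδ 0
    rw [← hv] at this
    simpa using this
  obtain ⟨D, hDd⟩ : ∃ D : 𝓞 N, D = algebraMap (𝓞 K) (𝓞 N) δ := ⟨_, rfl⟩
  rw [← hDd] at hmem hpow' hδW
  have e1 : Ideal.Quotient.mk W.asIdeal D = (Ideal.Quotient.mk W.asIdeal s') ^ 2 := by
    rw [← map_pow, ← sub_eq_zero, ← map_sub, Ideal.Quotient.eq_zero_iff_mem]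
    exact hmem
  have e2 : (Ideal.Quotient.mk W.asIdeal D) ^ m = -1 := by
    have := Ideal.Quotient.eq_zero_iff_mem.mpr hpow'
    rw [map_add, map_pow, map_one] at this
    exact eq_neg_of_add_eq_zero_left this
  have e3 : Ideal.Quotient.mk W.asIdeal s' = (Ideal.Quotient.mk W.asIdeal s') ^ (2 * m + 1) := by
    rw [← map_pow, ← sub_eq_zero, ← map_sub, Ideal.Quotient.eq_zero_iff_mem]
    exact hfr'
  have e4 : Ideal.Quotient.mk W.asIdeal s' = - Ideal.Quotient.mk W.asIdeal s' := by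
    conv_lhs => rw [e3]
    rw [pow_succ, pow_mul, ← e1, e2]
    ring
  have e5 : Ideal.Quotient.mk W.asIdeal (2 * s') = 0 := by
    rw [map_mul]
    have : Ideal.Quotient.mk W.asIdeal s' + Ideal.Quotient.mk W.asIdeal s' = 0 := by
      nth_rewrite 1 [e4]
      ring
    have h22 : Ideal.Quotient.mk W.asIdeal 2 = 2 := map_ofNat _ 2
    rw [h22, two_mul, this]
  rw [Ideal.Quotient.eq_zero_iff_mem] at e5
  rcases hWp.mem_or_mem e5 with h | h
  · exact h2W h
  · apply hδW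
    have h6 : s' ^ 2 ∈ W.asIdeal := W.asIdeal.pow_mem_of_mem h 2 (by norm_num)
    have h7 := W.asIdeal.add_mem hmem h6
    simpa using h7

end H36O2
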