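import Pool.Agent.H36.O2.Df

/-!
The descent property is invariant under the change of variables `x = c^2 x'`, `y = c^3 y'`
(project MP_78d38b_O2, row Oj).
-/

set_option autoImplicit false
set_option linter.unusedSectionVars false
open scoped Classical

open WithZero NumberField IsDedekindDomain H76PP H36CY H24PD

namespace H36O2

private theorem te_scale {F : Type*} [CommRing F] (C A B : F) (d : Fin 3 → F) :
    Te_nf (C ^ 4 * A) (C ^ 6 * B) d = Te_nf A B ![d 0, C ^ 2 * d 1, C ^ 4 * d 2] := by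
  simp only [Te_nf, Matrix.cons_val_zero, Matrix.cons_val_one, Matrix.cons_val]
  ring

private theorem lc_scale {k F : Type*} [Field k] [Field F] (i : k →+* F) (C A B : k)
    (hC : C ≠ 0) (d : Fin 3 → k) (h : LC i (C ^ 4 * A) (C ^ 6 * B) d) :
    LC i A B ![d 0, C ^ 2 * d 1, C ^ 4 * d 2] := by
  obtain ⟨x, y, z, hy, hxy, hm⟩ := h
  have hg : i C ≠ 0 := by simpa using hC
  have h0 := congrFun hm 0
  have h1 := congrFun hm 1
  have h2 := congrFun hm 2
  simp only [m3, Matrix.cons_val_zero, Matrix.cons_val_one, Matrix.cons_val, map_mul,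
    map_pow] at h0 h1 h2 hxy
  refine ⟨x / (i C) ^ 2, y / (i C) ^ 3, ![z 0 / i C, i C * z 1, (i C) ^ 3 * z 2],
    div_ne_zero hy (pow_ne_zero _ hg), ?_, ?_⟩
  · field_simp
    linear_combination hxy
  · funext j
    fin_cases j
    · simp [m3]
      field_simp
      linear_combination h0
    · simp [m3]
      field_simp
      linear_combination h1
    · simp [m3]
      field_simp
      linear_combination h2

private theorem lc_scale_iff {k F : Type*} [Field k] [Field F] (i : k →+* F) (C A B : k)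
    (hC : C ≠ 0) (d : Fin 3 → k) :
    LC i (C ^ 4 * A) (C ^ 6 * B) d ↔ LC i A B ![d 0, C ^ 2 * d 1, C ^ 4 * d 2] := by
  refine ⟨lc_scale i C A B hC d, fun h => ?_⟩
  have h1 : LC i (C⁻¹ ^ 4 * (C ^ 4 * A)) (C⁻¹ ^ 6 * (C ^ 6 * B))
      ![d 0, C ^ 2 * d 1, C ^ 4 * d 2] := by
    have e1 : C⁻¹ ^ 4 * (C ^ 4 * A) = A := by field_simp
    have e2 : C⁻¹ ^ 6 * (C ^ 6 * B) = B := by field_simp
    rw [e1, e2]
    exact h
  have h2 := lc_scale i C⁻¹ _ _ (inv_ne_zero hC) _ h1
  have e3 : (![(![d 0, C ^ 2 * d 1, C ^ 4 * d 2] : Fin 3 → k) 0,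
      C⁻¹ ^ 2 * (![d 0, C ^ 2 * d 1, C ^ 4 * d 2] : Fin 3 → k) 1,
      C⁻¹ ^ 4 * (![d 0, C ^ 2 * d 1, C ^ 4 * d 2] : Fin 3 → k) 2] : Fin 3 → k) = d := by
    funext j
    fin_cases j
    · simp
    · simp
      field_simp
    · simp
      field_simp
  rw [e3] at h2
  exact h2

theorem descAt_scale {K N : Type} [Field K] [NumberField K] [Field N] [NumberField N]
    [Algebra K N] {v : HeightOneSpectrum (𝓞 K)} {a b c : K} (hc : c ≠ 0)
    (h : DescAt K N v a b) : DescAt K N v (c ^ 4 * a) (c ^ 6 * b) := by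
  intro k k' _ _ _ _ _ _ _ _ _ _ _ _ _ h2 d hn hsq hloc u hu
  have hCk : algebraMap K k c ≠ 0 := by simpa using hc
  have hCk' : algebraMap K k' c ≠ 0 := by simpa using hc
  simp only [map_mul, map_pow] at hn hsq hloc ⊢
  rw [te_scale] at hn hsq
  rw [lc_scale_iff _ _ _ _ hCk]
  refine h k k' h2 _ hn hsq (fun u' hu' => ?_) u hu
  have h3 := (lc_scale_iff _ _ _ _ hCk' _).1 (hloc u' hu')
  refine (congrArg (LC _ _ _) ?_).mpr h3
  funext j
  have e : algebraMap k k' (algebraMap K k c) = algebraMap K k' c :=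
    (IsScalarTower.algebraMap_apply K k k' c).symm
  fin_cases j
  · simp
  · simp [e]
  · simp [e]

end H36O2
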