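import Pool.Agent.H36.O2.Df
import Pool.Agent.H36.CY.Ld

/-!
ROW Oq (project MP_78d38b_O2, about 120 lines): nonsquare units of a completion at an odd prime.

PROOF. (1) For `x` in the completion with `Valued.v x ≤ 1` there is `x₀ : 𝓞 k` with `Valued.v (x - x₀) < 1`: by density (`near_coe`, Pool/Agent/H36/CY/Ld.lean) there is `y : k` with `Valued.v (y - x) < 1`, `u.valuation k y ≤ 1`; then `y = a / b` with `a, b : 𝓞 k`, `b ∉ u` (`HeightOneSpectrum.exists_primeCompl_mul_eq_of_integer` or similar, used in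
Pool/Agent/H76/PN/N2.lean), and since `𝓞 k ⧸ u` is a field there is `c` with `b c - 1 ∈ u`; `x₀ := a c`.
(2) If `x` is a unit and `x₀ - s^2 ∈ u` for some `s : 𝓞 k` then `x / s^2 = 1 + (value less than one)` is a square (`isSquare_one_add`, Pool/Agent/H10/GrHen.lean, `Valued.v 4 = 1`), so `x` is a square. So for a nonsquare unit `x` the residue class of `x₀` is not a square in the finite field `𝓞 k ⧸ u` (odd characteristic since `2 ∉ u`).
(3) In a finite field of odd characteristic the product of two nonsquares is a square (`FiniteField.isSquare_iff`, `FiniteField.pow_dichotomy`, or `quadraticChar`). Lift and apply (2) to `x y`.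
-/

set_option autoImplicit false
set_option linter.unusedSectionVars false
open scoped Classical

open WithZero NumberField IsDedekindDomain H76PP H36CY H24PD

namespace H36O2

/-- The residue class of an integral element of the completion. -/
theorem exists_int {k : Type} [Field k] [NumberField k] (u : HeightOneSpectrum (𝓞 k))
    {x : u.adicCompletion k} (hx : Valued.v x ≤ 1) :
    ∃ y : 𝓞 k, Valued.v (algebraMap k (u.adicCompletion k) (y : k) - x) < 1 := by
  obtain ⟨y, hy⟩ := near_coe u x (c := 1) one_ne_zero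
  rw [map_one] at hy
  have hyv : Valued.v (algebraMap k (u.adicCompletion k) y) ≤ 1 := by
    have e : algebraMap k (u.adicCompletion k) y =
        (algebraMap k (u.adicCompletion k) y - x) + x := by ring
    rw [e]
    exact Valuation.map_add_le _ hy.le hx
  have hyk : u.valuation k y ≤ 1 := by rw [← val_coe]; exact hyv
  obtain ⟨n, ⟨d, hd⟩, hnd⟩ := u.exists_primeCompl_mul_eq_of_integer y hyk
  obtain ⟨c, i, hi, hc⟩ := u.isMaximal.exists_inv (x := d) hd
  refine ⟨n * c, ?_⟩
  have hiv : Valued.v (algebraMap k (u.adicCompletion k) (i : k)) < 1 := by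
    rw [val_coe]
    exact (u.valuation_lt_one_iff_mem i).2 hi
  have e1 : (((n * c : 𝓞 k)) : k) = y * (1 - (i : k)) := by
    have h1 : ((n * c : 𝓞 k) : k) = (n : k) * (c : k) := rfl
    have h2 : (n : k) = y * (d : k) := hnd.symm
    have h3 : (c : k) * (d : k) + (i : k) = 1 := by
      have := congrArg (fun z : 𝓞 k => (z : k)) hc
      exact this
    rw [h1, h2]
    linear_combination y * h3
  have e3 : algebraMap k (u.adicCompletion k) (y * (1 - (i : k))) =
      algebraMap k (u.adicCompletion k) y * (1 - algebraMap k (u.adicCompletion k) (i : k)) := by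
    rw [map_mul, map_sub, map_one]
  rw [e1, e3]
  have e2 : algebraMap k (u.adicCompletion k) y * (1 - algebraMap k (u.adicCompletion k) (i : k)) - x
      = (algebraMap k (u.adicCompletion k) y - x) -
        algebraMap k (u.adicCompletion k) y * algebraMap k (u.adicCompletion k) (i : k) := by ring
  rw [e2]
  refine Valuation.map_sub_lt _ hy ?_
  rw [map_mul]
  exact lt_of_le_of_lt (mul_le_of_le_one_left' hyv) hiv

theorem Oq_two {k : Type} [Field k] [NumberField k] (u : HeightOneSpectrum (𝓞 k)) :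
    (2 : u.adicCompletion k) = algebraMap k (u.adicCompletion k) 2 := by rw [map_ofNat]

/-- A unit congruent to a square is a square. -/
theorem Oq_sq {k : Type} [Field k] [NumberField k] (u : HeightOneSpectrum (𝓞 k))
    (h2 : u.valuation k 2 = 1) {x : u.adicCompletion k} (hx : Valued.v x = 1) {x0 s : 𝓞 k}
    (hx0 : Valued.v (algebraMap k (u.adicCompletion k) (x0 : k) - x) < 1)
    (hs : x0 - s ^ 2 ∈ u.asIdeal) : IsSquare x := by
  have hv2 : Valued.v (2 : u.adicCompletion k) = 1 := by rw [Oq_two, val_coe]; exact h2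
  have h20 : (2 : u.adicCompletion k) ≠ 0 := by
    intro h
    rw [h, map_zero] at hv2
    exact zero_ne_one hv2
  have hv4 : Valued.v (4 : u.adicCompletion k) = 1 := by
    have e : (4 : u.adicCompletion k) = 2 * 2 := by norm_num
    rw [e, map_mul, hv2, mul_one]
  set r : u.adicCompletion k := algebraMap k (u.adicCompletion k) (s : k) with hr
  have h1 : Valued.v (algebraMap k (u.adicCompletion k) (x0 : k) - r ^ 2) < 1 := by
    have e : algebraMap k (u.adicCompletion k) (x0 : k) - r ^ 2 =
        algebraMap k (u.adicCompletion k) ((x0 - s ^ 2 : 𝓞 k) : k) := by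
      have e' : ((x0 - s ^ 2 : 𝓞 k) : k) = (x0 : k) - (s : k) ^ 2 := rfl
      rw [e', map_sub, map_pow]
    rw [e, val_coe]
    exact (u.valuation_lt_one_iff_mem _).2 hs
  have h3 : Valued.v (x - r ^ 2) < 1 := by
    have e : x - r ^ 2 = (algebraMap k (u.adicCompletion k) (x0 : k) - r ^ 2) -
        (algebraMap k (u.adicCompletion k) (x0 : k) - x) := by ring
    rw [e]
    exact Valuation.map_sub_lt _ h1 hx0
  have h4 : Valued.v (r ^ 2) = 1 := by
    have e : r ^ 2 = x - (x - r ^ 2) := by ring
    rw [e, Valuation.map_sub_eq_of_lt_left _ (by rw [hx]; exact h3), hx]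
  have hr0 : r ≠ 0 := by
    intro h
    rw [h, zero_pow two_ne_zero, map_zero] at h4
    exact zero_ne_one h4
  obtain ⟨t, ht⟩ := Pool.Agent.H10.isSquare_one_add h20 (x := (x - r ^ 2) / r ^ 2) (by
    rw [map_div₀, h4, div_one, hv4]; exact h3)
  refine ⟨t * r, ?_⟩
  have e5 : x = (1 + (x - r ^ 2) / r ^ 2) * r ^ 2 := by
    field_simp
    ring
  rw [e5, ht]
  ring

theorem nonsq_mul {k : Type} [Field k] [NumberField k] (u : HeightOneSpectrum (𝓞 k))
    (h2 : u.valuation k 2 = 1) {x y : u.adicCompletion k} (hx : Valued.v x = 1)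
    (hy : Valued.v y = 1) (hx' : ¬ IsSquare x) (hy' : ¬ IsSquare y) : IsSquare (x * y) := by
  obtain ⟨x0, hx0⟩ := exists_int u hx.le
  obtain ⟨y0, hy0⟩ := exists_int u hy.le
  have _ : u.asIdeal.IsMaximal := u.isMaximal
  let _ : Field (𝓞 k ⧸ u.asIdeal) := Ideal.Quotient.field _
  have _ : Finite (𝓞 k ⧸ u.asIdeal) := Ideal.finiteQuotientOfFreeOfNeBot _ u.ne_bot
  let _ : Fintype (𝓞 k ⧸ u.asIdeal) := Fintype.ofFinite _
  have hsq : ∀ {z : u.adicCompletion k} {z0 : 𝓞 k}, Valued.v z = 1 →
      Valued.v (algebraMap k (u.adicCompletion k) (z0 : k) - z) < 1 →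
      IsSquare (Ideal.Quotient.mk u.asIdeal z0) → IsSquare z := by
    intro z z0 hz hz0 hq
    obtain ⟨a, ha⟩ := hq
    obtain ⟨s, rfl⟩ := Ideal.Quotient.mk_surjective a
    refine Oq_sq u h2 hz hz0 (s := s) ?_
    rw [← Ideal.Quotient.eq, ha, map_pow, pow_two]
  have hch : ringChar (𝓞 k ⧸ u.asIdeal) ≠ 2 := by
    intro h
    have h3 : ((2 : ℕ) : 𝓞 k ⧸ u.asIdeal) = 0 := by
      rw [← h]; exact ringChar.Nat.cast_ringChar
    have h4 : Ideal.Quotient.mk u.asIdeal (2 : 𝓞 k) = 0 := by
      rw [map_ofNat]; exact_mod_cast h3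
    rw [Ideal.Quotient.eq_zero_iff_mem, ← u.valuation_lt_one_iff_mem (K := k)] at h4
    have h5 : u.valuation k (2 : k) < 1 := h4
    rw [h2] at h5
    exact lt_irrefl _ h5
  have hnx : ¬ IsSquare (Ideal.Quotient.mk u.asIdeal x0) := fun h => hx' (hsq hx hx0 h)
  have hny : ¬ IsSquare (Ideal.Quotient.mk u.asIdeal y0) := fun h => hy' (hsq hy hy0 h)
  have hnz : ∀ a : 𝓞 k ⧸ u.asIdeal, ¬ IsSquare a → a ≠ 0 := by
    intro a ha h
    exact ha ⟨0, by rw [h, mul_zero]⟩
  have hpow : ∀ a : 𝓞 k ⧸ u.asIdeal, ¬ IsSquare a →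
      a ^ (Fintype.card (𝓞 k ⧸ u.asIdeal) / 2) = -1 := by
    intro a ha
    rcases FiniteField.pow_dichotomy hch (hnz a ha) with h | h
    · exact absurd ((FiniteField.isSquare_iff hch (hnz a ha)).2 h) ha
    · exact h
  have hprod : IsSquare (Ideal.Quotient.mk u.asIdeal (x0 * y0)) := by
    rw [map_mul, FiniteField.isSquare_iff hch (mul_ne_zero (hnz _ hnx) (hnz _ hny)), mul_pow,
      hpow _ hnx, hpow _ hny]
    ring
  refine hsq (z0 := x0 * y0) (by rw [map_mul, hx, hy, mul_one]) ?_ hprod
  have e1 : ((x0 * y0 : 𝓞 k) : k) = (x0 : k) * (y0 : k) := rfl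
  have hxv : Valued.v (algebraMap k (u.adicCompletion k) (x0 : k)) ≤ 1 := by
    rw [val_coe]
    exact u.valuation_le_one x0
  have e2 : algebraMap k (u.adicCompletion k) (x0 : k) * algebraMap k (u.adicCompletion k) (y0 : k) -
      x * y = algebraMap k (u.adicCompletion k) (x0 : k) *
        (algebraMap k (u.adicCompletion k) (y0 : k) - y) +
        (algebraMap k (u.adicCompletion k) (x0 : k) - x) * y := by ring
  rw [e1, map_mul, e2]
  refine Valuation.map_add_lt _ ?_ ?_
  · rw [map_mul]
    exact lt_of_le_of_lt (mul_le_of_le_one_left' hxv) hy0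
  · rw [map_mul, hy, mul_one]
    exact hx0

end H36O2
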