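import Pool.Agent.H36.O2.Od
import Pool.Agent.H36.O2.Oe
import Pool.Agent.H36.O2.Of
import Pool.Agent.H36.O2.Oq
import Pool.Agent.H36.O2.Og
import Pool.Agent.H36.O2.Oj
import Pool.Agent.H73.ZO.Gd
import Pool.Agent.H30.PN.Nc

/-!
The descent property at the auxiliary primes (project MP_78d38b_O2, no row).
-/

set_option autoImplicit false
set_option linter.unusedSectionVars false
open scoped Classical

open WithZero NumberField IsDedekindDomain H76PP H36CY H24PD H73P2

namespace H36O2

/-- Two elements with the same order have the same value. -/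
theorem val_of_ord {F F' : Type} [Field F] [Field F'] {V : Valuation F (WithZero (Multiplicative ℤ))}
    {V' : Valuation F' (WithZero (Multiplicative ℤ))} {x : F} {y : F'} (hx : x ≠ 0) (hy : y ≠ 0)
    (h : H38RT.ord V x = H38RT.ord V' y) : V x = V' y := by
  rw [Ev_V hx, Ev_V hy, h]

section

variable {K k k' N : Type} [Field K] [NumberField K] [Field k] [NumberField k] [Field k']
  [NumberField k'] [Field N] [NumberField N] [Algebra K k] [Algebra K k'] [Algebra k k']
  [IsScalarTower K k k'] [Algebra k N] [Algebra k' N] [Algebra K N] [IsScalarTower K k N]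
  [IsScalarTower K k' N] [IsScalarTower k k' N]

/-- The valuation of a middle field at an unramified prime. -/
theorem val_mid {W : HeightOneSpectrum (𝓞 N)} (h : ¬ Ram K W) (x : k) :
    (dn k W).valuation k x = W.valuation N (algebraMap k N x) := by
  by_cases hx : x = 0
  · rw [hx, map_zero, map_zero, map_zero]
  · exact (val_of_ord ((map_ne_zero _).2 hx) hx ((unram_mid (k := k) h).1 x hx)).symm

theorem valued_eq (u : HeightOneSpectrum (𝓞 k)) {n : WithZero (Multiplicative ℤ)} {x : k}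
    (h : u.valuation k x = n) : Valued.v (algebraMap k (u.adicCompletion k) x) = n := by
  rw [val_coe, h]

theorem notMem_iff {u : HeightOneSpectrum (𝓞 k)} {x : 𝓞 k} (h : x ∉ u.asIdeal) :
    u.valuation k (x : k) = 1 :=
  le_antisymm (u.valuation_le_one x) (not_lt.1 fun h1 => h ((u.valuation_lt_one_iff_mem x).1 h1))

/-- Up to a square a nonzero element of even order is an integer which is a unit at `v`. -/
theorem even_fac {v : HeightOneSpectrum (𝓞 K)} {D : 𝓞 K} (hD : D ≠ 0)
    (hev : Even (H38RT.ord (v.valuation K) (D : K))) :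
    ∃ (c : K) (E : 𝓞 K), c ≠ 0 ∧ E ∉ v.asIdeal ∧ (D : K) = c ^ 2 * (E : K) := by
  have hD' : (D : K) ≠ 0 := by
    intro h
    apply hD
    apply RingOfIntegers.coe_injective
    exact h.trans (map_zero (algebraMap (𝓞 K) K)).symm
  obtain ⟨c, u, hc, hcu, hu⟩ := H30PN.Nc_fac hD' v hev
  obtain ⟨n, ⟨d, hd⟩, hnd⟩ := HeightOneSpectrum.exists_primeCompl_mul_eq_of_integer v u hu.le
  change d ∉ v.asIdeal at hd
  have hnd' : (d : K) * u = (n : K) := by
    first
      | exact hnd
      | (rw [mul_comm]; exact hnd)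
  have hd1 := notMem_iff hd
  have hd0 : (d : K) ≠ 0 := by
    intro h
    rw [h, map_zero] at hd1
    exact zero_ne_one hd1
  have h2 : ((n * d : 𝓞 K) : K) = (d : K) * u * (d : K) := by
    rw [hnd']
    exact map_mul (algebraMap (𝓞 K) K) n d
  refine ⟨c / (d : K), n * d, div_ne_zero hc hd0, fun h => ?_, ?_⟩
  · have h1 : v.valuation K ((n * d : 𝓞 K) : K) < 1 :=
      (v.valuation_lt_one_iff_mem (K := K) (n * d)).2 h
    rw [h2, map_mul, map_mul, hd1, hu, one_mul, one_mul] at h1
    exact lt_irrefl _ h1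
  · rw [h2, hcu]
    field_simp

/-- The discriminant is a unit. -/
theorem dsc_notMem {v : HeightOneSpectrum (𝓞 K)} (h2 : (2 : 𝓞 K) ∉ v.asIdeal) {A B t : 𝓞 K}
    (ht : t ^ 3 + A * t + B ∈ v.asIdeal) (hs : ∀ s : 𝓞 K, -3 * t ^ 2 - 4 * A - s ^ 2 ∉ v.asIdeal) :
    dsc A B ∉ v.asIdeal := by
  intro h
  have h0 := hs 0
  have h1 := hs (3 * t)
  have e1 : -3 * t ^ 2 - 4 * A - (0 : 𝓞 K) ^ 2 = -3 * t ^ 2 - 4 * A := by ring
  have e2 : -3 * t ^ 2 - 4 * A - (3 * t) ^ 2 = -(2 * (2 * (3 * t ^ 2 + A))) := by ring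
  rw [e1] at h0
  rw [e2, neg_mem_iff] at h1
  -- the discriminant is `-(3 t^2 + A)^2 (-3 t^2 - 4 A)` modulo `v`
  have e3 : (3 * t ^ 2 + A) ^ 2 * (-3 * t ^ 2 - 4 * A) = -dsc A B +
      (t ^ 3 + A * t + B) * (27 * (B - t ^ 3 - A * t)) := by
    unfold dsc
    ring
  have h3 : (3 * t ^ 2 + A) ^ 2 * (-3 * t ^ 2 - 4 * A) ∈ v.asIdeal := by
    rw [e3]
    exact add_mem (neg_mem_iff.2 h) (v.asIdeal.mul_mem_right _ ht)
  rcases v.isPrime.mem_or_mem h3 with h4 | h4
  · exact h1 (v.asIdeal.mul_mem_left _ (v.asIdeal.mul_mem_left _ (v.isPrime.mem_of_pow_mem 2 h4)))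
  · exact h0 h4

end

section Odd

variable {K N : Type} [Field K] [NumberField K] [Field N] [NumberField N] [Algebra K N]
  [IsGalois K N]

theorem descAt_odd {v : HeightOneSpectrum (𝓞 K)} (h2 : (2 : 𝓞 K) ∉ v.asIdeal)
    (hu : ∀ V : HeightOneSpectrum (𝓞 N), dn K V = v → ¬ Ram K V) (hdec : Dec2 N v)
    {A B D t : 𝓞 K} (hD : Odd (H38RT.ord (v.valuation K) (D : K))) (ht : t ^ 3 + A * t + B ∈ v.asIdeal)
    (hs : ∀ s : 𝓞 K, -3 * t ^ 2 - 4 * A - s ^ 2 ∉ v.asIdeal) :
    DescAt K N v ((D : K) ^ 2 * (A : K)) ((D : K) ^ 3 * (B : K)) := by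
  intro k k' _ _ _ _ _ _ _ _ _ _ _ _ _ two d hd0 hsq hloc u hu'
  have _ : IsGalois k N := IsGalois.tower_top_of_isGalois K k N
  have _ : FiniteDimensional k k' := Module.Finite.of_restrictScalars_finite ℚ k k'
  obtain ⟨D₀, ρ, hρ, hρk⟩ := exists_gen0 (k := k) (k' := k') two
  have hρ0 : ρ ≠ 0 := fun h => hρk 0 (by rw [map_zero, h])
  obtain ⟨W, rfl⟩ := exists_above (L := N) u
  subst hu'
  have hab : ∀ x : K, algebraMap K k' x = algebraMap k k' (algebraMap K k x) :=
    IsScalarTower.algebraMap_apply K k k'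
  by_cases hA : ∀ g : N ≃ₐ[k] N, Stb k W g → g (algebraMap k' N ρ) = algebraMap k' N ρ
  · refine ld_split two W hρ hρk hA ?_
    intro u' hu'
    have h1 := hloc u' (by rw [← hu', dn_dn])
    rw [hab, hab] at h1
    exact h1
  push Not at hA
  obtain ⟨g, hg, hgne⟩ := hA
  have hgρ : g (algebraMap k' N ρ) = -algebraMap k' N ρ := by
    have h1 : g (algebraMap k' N ρ) ^ 2 = algebraMap k' N ρ ^ 2 := by
      rw [← map_pow, ← map_pow, hρ, ← IsScalarTower.algebraMap_apply, g.commutes]
    rcases sq_eq_sq_iff_eq_or_eq_neg.1 h1 with h2 | h2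
    · exact absurd h2 hgne
    · exact h2
  have hg1 : g ≠ 1 := by
    rintro rfl
    exact hgne rfl
  -- the primes
  have eW : dn K W = dn K (dn k W) := (dn_dn W).symm
  have hW : ¬ Ram K W := hu W eW
  have hvk : ∀ x : k, (dn k W).valuation k x = W.valuation N (algebraMap k N x) := val_mid hW
  have hvk' : ∀ x : k', (dn k' W).valuation k' x = W.valuation N (algebraMap k' N x) := val_mid hW
  have hvK : ∀ x : K, (dn K W).valuation K x = W.valuation N (algebraMap K N x) := val_mid hW
  have hdd : dn k (dn k' W) = dn k W := dn_dn W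
  -- the involution of the quadratic extension
  have _ : Algebra.IsQuadraticExtension k k' := ⟨two⟩
  have _ : Normal k k' := inferInstance
  obtain ⟨τ, hτ⟩ : ∃ τ : k' ≃ₐ[k] k', ∀ x : k', algebraMap k' N (τ x) = g (algebraMap k' N x) :=
    ⟨g.restrictNormal k', fun x => g.restrictNormal_commutes k' x⟩
  have hτs : Stb k (dn k' W) τ := by
    intro y
    rw [hvk', hvk', hτ]
    exact hg _
  have hτρ : τ ρ = -ρ := by
    apply (algebraMap k' N).injective
    rw [hτ, hgρ, map_neg]
  have hvv : ∀ x : k, (dn k' W).valuation k' (algebraMap k k' x) = (dn k (dn k' W)).valuation k x := by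
    intro x
    rw [hdd, hvk', hvk, ← IsScalarTower.algebraMap_apply]
  have h2K : (dn K W).valuation K (2 : K) = 1 := by
    rw [eW]
    exact notMem_iff h2
  have h2N : W.valuation N (2 : N) = 1 := by
    rw [← map_ofNat (algebraMap K N) 2, ← hvK, h2K]
  have h2k : (dn k (dn k' W)).valuation k (2 : k) = 1 := by
    rw [hdd, hvk, map_ofNat, h2N]
  have h2k' : (dn k' W).valuation k' (2 : k') = 1 := by
    rw [hvk', map_ofNat, h2N]
  obtain ⟨σ, hI, hσ, hσx, hiv⟩ := inv2_of two (dn k' W) hτs hρ0 hτρ h2k' hvv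
  obtain ⟨i, hi⟩ : ∃ i, i = (over_dn (K := k) (dn k' W)).map := ⟨_, rfl⟩
  have hix : ∀ x : k, i (algebraMap k ((dn k (dn k' W)).adicCompletion k) x) =
      algebraMap k' ((dn k' W).adicCompletion k') (algebraMap k k' x) := by
    intro x
    rw [hi]
    exact Pool.Agent.H10.Over.map_algebraMap _ x
  rw [← hi] at hI hiv
  -- values in the completions
  have hvc : ∀ x : k, Valued.v (algebraMap k ((dn k (dn k' W)).adicCompletion k) x) =
      (dn k (dn k' W)).valuation k x := fun x => val_coe _ x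
  have hvKk : ∀ x : K, (dn k (dn k' W)).valuation k (algebraMap K k x) =
      (dn K W).valuation K x := by
    intro x
    rw [hdd, hvk, hvK, ← IsScalarTower.algebraMap_apply]
  have h4 : Valued.v (4 : (dn k (dn k' W)).adicCompletion k) = 1 := by
    have e : (4 : (dn k (dn k' W)).adicCompletion k) =
        algebraMap k ((dn k (dn k' W)).adicCompletion k) (2 ^ 2) := by
      rw [map_pow, map_ofNat]
      norm_num
    rw [e, hvc, map_pow, h2k, one_pow]
  have h4' : Valued.v (4 : (dn k' W).adicCompletion k') = 1 := by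
    have e : (4 : (dn k' W).adicCompletion k') =
        algebraMap k' ((dn k' W).adicCompletion k') (2 ^ 2) := by
      rw [map_pow, map_ofNat]
      norm_num
    rw [e, val_coe, map_pow, h2k', one_pow]
  obtain ⟨ϖ, hϖ⟩ := (dn k (dn k' W)).valuation_exists_uniformizer k
  have hϖ' : Valued.v (algebraMap k ((dn k (dn k' W)).adicCompletion k) ϖ) = exp (-1 : ℤ) := by
    rw [hvc, hϖ]
  have hρ' : σ (algebraMap k' ((dn k' W).adicCompletion k') ρ) =
      -algebraMap k' ((dn k' W).adicCompletion k') ρ := by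
    rw [hσx, hτρ, map_neg]
  have hint : ∀ x : 𝓞 K, Valued.v (algebraMap k ((dn k (dn k' W)).adicCompletion k)
      (algebraMap K k (x : K))) ≤ 1 := by
    intro x
    rw [hvc, hvKk]
    exact (dn K W).valuation_le_one x
  -- the nonsquare
  obtain ⟨t₀, ht₀⟩ := hdec W eW
  have hns : ∀ s : (dn k (dn k' W)).adicCompletion k, Valued.v s ≤ 1 →
      Valued.v (-3 * (algebraMap k ((dn k (dn k' W)).adicCompletion k) (algebraMap K k (t : K))) ^ 2 -
        4 * (algebraMap k ((dn k (dn k' W)).adicCompletion k) (algebraMap K k (A : K))) - s ^ 2) = 1 := by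
    intro s hs1
    obtain ⟨y, hy⟩ := exists_int (dn k (dn k' W)) hs1
    have h5 := nonsq_up (K := K) (k := k) (N := N) W (by rw [eW]; exact h2) ht₀ hg hg1
      (δ := -3 * t ^ 2 - 4 * A) (by rw [eW]; exact hs) y
    rw [← hdd] at h5
    have h6 := notMem_iff h5
    have e1 : ((algebraMap (𝓞 K) (𝓞 k) (-3 * t ^ 2 - 4 * A) - y ^ 2 : 𝓞 k) : k) =
        -3 * (algebraMap K k (t : K)) ^ 2 - 4 * (algebraMap K k (A : K)) - (y : k) ^ 2 := by
      have e2 : algebraMap (𝓞 k) k (algebraMap (𝓞 K) (𝓞 k) (-3 * t ^ 2 - 4 * A) - y ^ 2) =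
          algebraMap (𝓞 k) k (algebraMap (𝓞 K) (𝓞 k) (-3 * t ^ 2 - 4 * A)) -
            (algebraMap (𝓞 k) k y) ^ 2 := by
        rw [map_sub (algebraMap (𝓞 k) k), map_pow]
      refine e2.trans ?_
      have e3 : algebraMap (𝓞 k) k (algebraMap (𝓞 K) (𝓞 k) (-3 * t ^ 2 - 4 * A)) =
          algebraMap K k (algebraMap (𝓞 K) K (-3 * t ^ 2 - 4 * A)) := rfl
      rw [e3]
      simp only [map_sub, map_mul, map_pow, map_neg, map_ofNat]
    rw [e1] at h6
    have h7 : Valued.v (algebraMap k ((dn k (dn k' W)).adicCompletion k)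
        (-3 * (algebraMap K k (t : K)) ^ 2 - 4 * (algebraMap K k (A : K)) - (y : k) ^ 2)) = 1 := by
      rw [hvc, h6]
    obtain ⟨z, hz⟩ : ∃ z, z = algebraMap k ((dn k (dn k' W)).adicCompletion k) (y : k) := ⟨_, rfl⟩
    rw [← hz] at hy
    have hz1 : Valued.v z ≤ 1 := by
      rw [hz, hvc]
      exact (dn k (dn k' W)).valuation_le_one y
    have e3 : -3 * (algebraMap k ((dn k (dn k' W)).adicCompletion k) (algebraMap K k (t : K))) ^ 2 -
        4 * (algebraMap k ((dn k (dn k' W)).adicCompletion k) (algebraMap K k (A : K))) - s ^ 2 =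
        algebraMap k ((dn k (dn k' W)).adicCompletion k)
        (-3 * (algebraMap K k (t : K)) ^ 2 - 4 * (algebraMap K k (A : K)) - (y : k) ^ 2) +
        (z - s) * (z + s) := by
      rw [hz]
      simp only [map_sub, map_mul, map_pow, map_neg, map_ofNat]
      ring
    rw [e3]
    have h8 : Valued.v ((z - s) * (z + s)) < 1 := by
      rw [map_mul]
      calc Valued.v (z - s) * Valued.v (z + s) ≤ Valued.v (z - s) * 1 :=
            mul_le_mul' le_rfl (Valuation.map_add_le _ hz1 hs1)
        _ = Valued.v (z - s) := mul_one _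
        _ < 1 := hy
    rw [← h7] at h8 ⊢
    exact Valuation.map_add_eq_of_lt_left _ h8
  have hroot : Valued.v ((algebraMap k ((dn k (dn k' W)).adicCompletion k)
      (algebraMap K k (t : K))) ^ 3 + algebraMap k ((dn k (dn k' W)).adicCompletion k)
      (algebraMap K k (A : K)) * algebraMap k ((dn k (dn k' W)).adicCompletion k)
      (algebraMap K k (t : K)) + algebraMap k ((dn k (dn k' W)).adicCompletion k)
      (algebraMap K k (B : K))) < 1 := by
    have e1 : (algebraMap k ((dn k (dn k' W)).adicCompletion k)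
      (algebraMap K k (t : K))) ^ 3 + algebraMap k ((dn k (dn k' W)).adicCompletion k)
      (algebraMap K k (A : K)) * algebraMap k ((dn k (dn k' W)).adicCompletion k)
      (algebraMap K k (t : K)) + algebraMap k ((dn k (dn k' W)).adicCompletion k)
      (algebraMap K k (B : K)) = algebraMap k ((dn k (dn k' W)).adicCompletion k)
        (algebraMap K k ((t ^ 3 + A * t + B : 𝓞 K) : K)) := by
      simp
    rw [e1, hvc, hvKk, eW]
    exact ((dn K (dn k W)).valuation_lt_one_iff_mem _).2 ht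
  obtain ⟨e, f, hR, he, hf, hef, hff⟩ := exists_rts hI h4 hiv hϖ'
    (fun x y hx hy hx' hy' => nonsq_mul (dn k (dn k' W)) h2k hx hy hx' hy')
    ((map_ne_zero _).2 hρ0) hρ' (hint A) (hint B) (hint t) hroot hns
  -- the twist
  obtain ⟨δ, hδ⟩ : ∃ δ, δ = algebraMap k ((dn k (dn k' W)).adicCompletion k)
    (algebraMap K k (D : K)) := ⟨_, rfl⟩
  obtain ⟨n, hn⟩ := hD
  have hDv : Valued.v δ = exp (2 * (-n - 1) + 1 : ℤ) := by
    have hD0 : (D : K) ≠ 0 := by
      intro h
      have h5 : H38RT.ord ((dn K (dn k W)).valuation K) (D : K) = 0 := by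
        unfold H38RT.ord
        rw [h, map_zero, log_zero, neg_zero]
      omega
    rw [hδ, hvc, hvKk, eW, Ev_V hD0, hn]
    congr 1
    ring
  have hiδ : Valued.v (i δ) = exp (2 * (-n - 1) + 1 : ℤ) := by rw [hiv, hDv]
  have hRD : Rts i σ (algebraMap k ((dn k (dn k' W)).adicCompletion k)
      (algebraMap K k ((D : K) ^ 2 * (A : K)))) (algebraMap k ((dn k (dn k' W)).adicCompletion k)
      (algebraMap K k ((D : K) ^ 3 * (B : K)))) (δ * e) (i δ * f) := by
    have hδ0 : i δ ≠ 0 := by
      intro h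
      rw [h, map_zero] at hiδ
      exact exp_ne_zero hiδ.symm
    refine ⟨?_, ?_, ?_⟩
    · have h5 := hR.r1
      simp only [map_mul, map_pow, ← hδ]
      linear_combination δ ^ 3 * h5
    · have h5 := hR.r2
      simp only [map_mul, map_pow, ← hδ]
      linear_combination (i δ) ^ 3 * h5
    · intro h5
      rw [map_mul, hI.fix] at h5
      exact hR.ne (mul_left_cancel₀ hδ0 h5)
  have hmul : ∀ x : (dn k' W).adicCompletion k', Valued.v x ≤ 1 →
      Valued.v (i δ * x) ≤ exp (2 * (-n - 1) + 1 : ℤ) := by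
    intro x hx
    rw [map_mul, hiδ]
    calc exp (2 * (-n - 1) + 1 : ℤ) * Valued.v x ≤ exp (2 * (-n - 1) + 1 : ℤ) * 1 :=
          mul_le_mul' le_rfl hx
      _ = _ := mul_one _
  have hmul1 : ∀ x : (dn k' W).adicCompletion k', Valued.v x = 1 →
      Valued.v (i δ * x) = exp (2 * (-n - 1) + 1 : ℤ) := by
    intro x hx
    rw [map_mul, hiδ, hx, mul_one]
  have hϖ0 : algebraMap k ((dn k (dn k' W)).adicCompletion k) ϖ ≠ 0 := by
    intro h
    rw [h, map_zero] at hϖ'
    exact exp_ne_zero hϖ'.symm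
  have hϖ1 : Valued.v (algebraMap k ((dn k (dn k' W)).adicCompletion k) ϖ) < 1 := by
    rw [hϖ', ← exp_zero]
    exact exp_lt_exp.2 (by norm_num)
  have hfin := LC_down hI h4 h4' hϖ0 hϖ1 hiv hσ hRD (n := -n - 1) (by
      rw [map_mul]
      exact hmul _ he) (hmul _ hf) (by
      rw [map_mul, ← mul_sub]
      exact hmul1 _ hef) (by
      rw [map_mul, hI.fix, ← mul_sub]
      exact hmul1 _ hff) hd0 hsq ?_
  · rw [hdd] at hfin
    exact hfin
  · have hLC := hloc (dn k' W) (by
      have e1 : dn K (dn k (dn k' W)) = dn K (dn k' W) := dn_dn _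
      rw [← e1, hdd])
    rw [hab, hab] at hLC
    obtain ⟨x, y, z, h1, h5, h6⟩ := hLC
    refine ⟨x, y, z, h1, ?_, ?_⟩
    · rw [RingHom.comp_apply, RingHom.comp_apply, hix, hix]
      exact h5
    · rw [RingHom.comp_apply, RingHom.comp_apply, hix, hix]
      have e4 : (fun j => (i.comp (algebraMap k ((dn k (dn k' W)).adicCompletion k))) (d j)) =
          fun j => algebraMap k' ((dn k' W).adicCompletion k') (algebraMap k k' (d j)) :=
        funext fun j => hix _
      rw [e4]
      exact h6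

end Odd

/-- The descent property at a prime with decomposition groups of order at most two, for all twists of a curve with exactly
one root modulo the prime. -/
theorem descAt_T {K N : Type} [Field K] [NumberField K] [Field N] [NumberField N] [Algebra K N]
    [IsGalois K N] {r : ℕ} (hr : Module.finrank K N = 2 ^ r) {v : HeightOneSpectrum (𝓞 K)}
    (h2 : (2 : 𝓞 K) ∉ v.asIdeal) (hu : ∀ V : HeightOneSpectrum (𝓞 N), dn K V = v → ¬ Ram K V)
    (hdec : Dec2 N v) {A B D t : 𝓞 K} (hD : D ≠ 0)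
    (hirr : ∀ x : K, x ^ 3 + (A : K) * x + (B : K) ≠ 0) (ht : t ^ 3 + A * t + B ∈ v.asIdeal)
    (hs : ∀ s : 𝓞 K, -3 * t ^ 2 - 4 * A - s ^ 2 ∉ v.asIdeal) :
    DescAt K N v ((D : K) ^ 2 * (A : K)) ((D : K) ^ 3 * (B : K)) := by
  rcases Int.even_or_odd (H38RT.ord (v.valuation K) (D : K)) with hev | hodd
  · obtain ⟨c, E, hc, hE, hDE⟩ := even_fac hD hev
    have hE0 : (E : K) ≠ 0 := by
      intro h
      have := notMem_iff hE
      rw [h, map_zero] at this
      exact zero_ne_one this
    have h3 := H73ZO.descAt_good (a := E ^ 2 * A) (b := E ^ 3 * B) hr h2 hu ?_ ?_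
    · have h4 := descAt_scale hc h3
      have e1 : (D : K) ^ 2 * (A : K) = c ^ 4 * ((E ^ 2 * A : 𝓞 K) : K) := by
        rw [hDE]
        push_cast
        ring
      have e2 : (D : K) ^ 3 * (B : K) = c ^ 6 * ((E ^ 3 * B : 𝓞 K) : K) := by
        rw [hDE]
        push_cast
        ring
      rw [e1, e2]
      exact h4
    · intro x hx
      apply hirr (x / (E : K))
      have e3 : ((E ^ 2 * A : 𝓞 K) : K) = (E : K) ^ 2 * (A : K) := by push_cast; rfl
      have e4 : ((E ^ 3 * B : 𝓞 K) : K) = (E : K) ^ 3 * (B : K) := by push_cast; rfl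
      rw [e3, e4] at hx
      field_simp
      linear_combination hx
    · intro h5
      have h6 : dsc A B ∈ v.asIdeal := by
        have e5 : dsc (E ^ 2 * A) (E ^ 3 * B) = E ^ 6 * dsc A B := by
          unfold dsc
          ring
        rw [e5] at h5
        exact (v.isPrime.mem_or_mem h5).resolve_left fun h7 => hE (v.isPrime.mem_of_pow_mem 6 h7)
      exact dsc_notMem h2 ht hs h6
  · exact descAt_odd h2 hu hdec hodd ht hs

end H36O2
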