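import Pool.Agent.H36.O2.Ol
import Pool.Agent.H36.ZO.Ex
import Pool.Agent.H30.ZO.Us

/-!
Final assembly for the project MP_78d38b_O2 (no row): the class of admissible extensions with infinitely many primes whose
decomposition groups have order at most two.
-/

set_option autoImplicit false
set_option linter.unusedSectionVars false
open scoped Classical

open WeierstrassCurve NumberField IsDedekindDomain Pool.Agent.H10 H76PP H36CY

namespace H36O2

/-- The admissible extensions. -/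
structure AdmF2 (K F : Type) [Field K] [NumberField K] [Field F] [Algebra K F] : Prop where
  gal : IsGalois K F
  deg : ∀ (N : IntermediateField K F) [NumberField N], IsGalois K N →
      ∃ r : ℕ, Module.finrank K N = 2 ^ r
  ram : {v : HeightOneSpectrum (𝓞 K) | ∃ (N : IntermediateField K F) (_ : NumberField N)
      (V : HeightOneSpectrum (𝓞 N)), dn K V = v ∧ H73P2.Ram K V}.Finite
  dec : FiniteDimensional K F ∨ {v : HeightOneSpectrum (𝓞 K) | DecF F v}.Infinite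

/-- A completely split prime has trivial decomposition groups. -/
theorem decF_split {K F : Type} [Field K] [NumberField K] [Field F] [Algebra K F]
    {v : HeightOneSpectrum (𝓞 K)} (h : ∃ ι : F →+* v.adicCompletion K, ∀ x : K,
      ι (algebraMap K F x) = algebraMap K (v.adicCompletion K) x) : DecF F v := by
  obtain ⟨ι, hι⟩ := h
  intro N _ hN W hW
  refine ⟨1, fun g hg => Or.inl ?_⟩
  have hj : ∀ x : K, (ι.comp N.val.toRingHom) (algebraMap K N x) =
      algebraMap K (v.adicCompletion K) x := fun x => hι x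
  have h0 : dn K W = dn K (H73P2.Cm_pl v (ι.comp N.val.toRingHom) hj) := by
    rw [H30ZO.cm_dn, hW]
  exact H36CY.triv_conj (K := K) h0 (fun g hg => H30ZO.stb_triv v _ hj g hg) g hg

theorem AdmF2.dec_inf {K F : Type} [Field K] [NumberField K] [Field F] [Algebra K F]
    (h : AdmF2 K F) : {v : HeightOneSpectrum (𝓞 K) | DecF F v}.Infinite := by
  have _ := h.gal
  rcases h.dec with h | h
  · have _ : NumberField F := NumberField.of_module_finite K F
    exact (H30PN.split_inf K F).mono fun v hv => decF_split hv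
  · exact h

theorem mainSig2 {K F : Type} [Field K] [NumberField K] [Field F] [Algebra K F]
    (h : AdmF2 K F) : H36ZO.MainSig K F := by
  intro Sg e A₀ B₀ h2 hcl
  have _ := h.gal
  obtain ⟨c, X₀, hc, h1⟩ := main_inf4 K F h.deg h.ram h.dec_inf h2 e A₀ B₀
    (fun v hv => (hcl v hv).1) (fun v hv => (hcl v hv).2)
  refine ⟨c, X₀, hc, fun X hX => ?_⟩
  obtain ⟨G, hG, hj, hcard⟩ := h1 X hX
  refine ⟨G, fun p hp => ?_, hj, hcard⟩
  obtain ⟨g1, g2, g3, g4, g5⟩ := hG p hp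
  exact ⟨g1, g3, ⟨g2, g5⟩, g4⟩

section Main

variable {K F : Type} [Field K] [NumberField K] [Field F] [Algebra K F] [IsGalois K F]

/-- A pair with an irreducible polynomial which satisfies the local condition. -/
theorem exists_irr2 (h : AdmF2 K F) {v : HeightOneSpectrum (𝓞 K)}
    (hl : H30ZO.LocOK K F v) : ∃ p : 𝓞 K × 𝓞 K, (∀ t : K, t ^ 3 + (p.1 : K) * t + (p.2 : K) ≠ 0) ∧
      H36ZO.LocC K F v (p.1 : K) (p.2 : K) := by
  obtain ⟨a, b, hd, hab⟩ := hl
  choose e he1 he2 using fun v : HeightOneSpectrum (𝓞 K) => H36LG.descAt_open v hd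
  obtain ⟨S₂, hS₂⟩ := H30CY.two_fin K
  obtain ⟨w, -, hw⟩ := h.dec_inf.exists_notMem_finset (insert v S₂)
  obtain ⟨m, E, A₀, B₀, -, -, -, -, hcl⟩ := H30ZO.exists_cls (S := insert v S₂) (R := {w})
    (fun v' hv' => Finset.mem_insert_of_mem ((hS₂ v').2 hv'))
    (fun v' hv' => by
      rw [Finset.mem_singleton] at hv'
      rw [hv']
      exact hw) e (fun _ => a) (fun _ => b) (fun v' _ => he1 v')
  obtain ⟨h1, h2⟩ := hcl A₀ B₀ (by rw [sub_self]; exact Ideal.zero_mem _)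
    (by rw [sub_self]; exact Ideal.zero_mem _)
  obtain ⟨h3, h4⟩ := h1 v (Finset.mem_insert_self _ _)
  have hirr := H36ZO.noroot_K (h2 w (Finset.mem_singleton_self w))
  exact ⟨(A₀, B₀), hirr, H36ZO.locC_of_descAt h.deg hirr
    fun N _ hN => he2 v A₀ B₀ h3 h4 N (hab N hN)⟩

/-- The local condition at the odd primes of good reduction which are unramified in `F`. -/
theorem exists_good2 (h : AdmF2 K F) {m : Ideal (𝓞 K)} (hm : m ≠ ⊥)
    {v : HeightOneSpectrum (𝓞 K)} (hmv : m ≤ v.asIdeal) (h2 : (2 : 𝓞 K) ∉ v.asIdeal)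
    (hu : ∀ (N : IntermediateField K F) [NumberField N] (V : HeightOneSpectrum (𝓞 N)),
      dn K V = v → ¬ H73P2.Ram K V) {q : 𝓞 K × 𝓞 K} (hq : dsc q.1 q.2 ∉ v.asIdeal) :
    ∃ p : 𝓞 K × 𝓞 K, (∀ n : ℕ, m ≤ v.asIdeal ^ n → p.1 - q.1 ∈ v.asIdeal ^ n ∧
      p.2 - q.2 ∈ v.asIdeal ^ n) ∧ (∀ t : K, t ^ 3 + (p.1 : K) * t + (p.2 : K) ≠ 0) ∧
      H36ZO.LocC K F v (p.1 : K) (p.2 : K) := by
  obtain ⟨p, h1, h3, h4⟩ := H36ZO.exists_near h.dec_inf hm q
  refine ⟨p, fun n hn => ⟨hn h1, hn h3⟩, h4, H36ZO.locC_of_descAt h.deg h4 fun N _ hN => ?_⟩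
  obtain ⟨r, hr⟩ := h.deg N hN
  refine H36ZO.descAt_good hr h2 (hu N) h4 fun h5 => hq ?_
  have e : dsc q.1 q.2 = dsc p.1 p.2 - ((p.1 - q.1) *
      (4 * (p.1 ^ 2 + p.1 * q.1 + q.1 ^ 2)) + (p.2 - q.2) * (27 * (p.2 + q.2))) := by
    unfold dsc
    ring
  rw [e]
  exact Ideal.sub_mem _ h5 (Ideal.add_mem _ (Ideal.mul_mem_right _ _ (hmv h1))
    (Ideal.mul_mem_right _ _ (hmv h3)))

/-- The local condition at the odd primes where the polynomial has no root. -/
theorem exists_nort2 (h : AdmF2 K F) {m : Ideal (𝓞 K)} (hm : m ≠ ⊥)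
    {v : HeightOneSpectrum (𝓞 K)} (hmv : m ≤ v.asIdeal) (h2 : (2 : 𝓞 K) ∉ v.asIdeal)
    {q : 𝓞 K × 𝓞 K} (hq : ∀ t : 𝓞 K, t ^ 3 + q.1 * t + q.2 ∉ v.asIdeal) :
    ∃ p : 𝓞 K × 𝓞 K, (∀ n : ℕ, m ≤ v.asIdeal ^ n → p.1 - q.1 ∈ v.asIdeal ^ n ∧
      p.2 - q.2 ∈ v.asIdeal ^ n) ∧ (∀ t : K, t ^ 3 + (p.1 : K) * t + (p.2 : K) ≠ 0) ∧
      H36ZO.LocC K F v (p.1 : K) (p.2 : K) := by
  obtain ⟨p, h1, h3, h4⟩ := H36ZO.exists_near h.dec_inf hm q
  refine ⟨p, fun n hn => ⟨hn h1, hn h3⟩, h4, H36ZO.locC_of_descAt h.deg h4 fun N _ hN => ?_⟩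
  obtain ⟨r, hr⟩ := h.deg N hN
  have h2' : v.valuation K (2 : K) = 1 := by
    have h5 := notMem_iff h2
    have e : ((2 : 𝓞 K) : K) = 2 := map_ofNat (algebraMap (𝓞 K) K) 2
    rwa [e] at h5
  have hn : H30PN.NoRt K v p.1 p.2 := by
    intro t ht
    apply hq t
    have e : t ^ 3 + q.1 * t + q.2 = (t ^ 3 + p.1 * t + p.2) - ((p.1 - q.1) * t + (p.2 - q.2)) := by
      ring
    rw [e]
    exact Ideal.sub_mem _ ht (Ideal.add_mem _ (Ideal.mul_mem_right _ _ (hmv h1)) (hmv h3))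
  have h5 := descAt_noroot (N := N) hr h2' (D := 1) one_ne_zero (H36ZO.dsc_ne h4) h4 hn
  have e1 : (((1 : 𝓞 K) : K)) = 1 := map_one (algebraMap (𝓞 K) K)
  rw [e1, one_pow, one_pow, one_mul, one_mul] at h5
  exact h5

end Main

end H36O2
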