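import Pool.Agent.H36.O2.Df
import Pool.Agent.H24.PD.Ip

/-!
ROW Oa (project MP_78d38b_O2, about 110 lines): square roots in `κ[T] / (T^3 + a T + b)` from square roots of the values.

PROOF. Put `E := i e`, `g := σ f`; `E, f, g` are pairwise different (`hR.ne1 hI`, `hR.ne2 hI`, `hR.ne`). `S := i r`. Lagrange interpolation over `κ'`:
`c 2 := S / ((E - f) (E - g)) + s / ((f - E) (f - g)) + σ s / ((g - E) (g - f))`,
`c 1 := -(S (f + g) / ((E - f) (E - g)) + s (E + g) / ((f - E) (f - g)) + σ s (E + f) / ((g - E) (g - f)))`,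
`c 0 := S f g / ((E - f) (E - g)) + s E g / ((f - E) (f - g)) + σ s E f / ((g - E) (g - f))`.
`E3 E c = S`, `E3 f c = s`, `E3 g c = σ s` (field_simp, ring). `σ (c j) = c j` (σ fixes `E`, `S` and exchanges `f, g` and `s, σ s`: `hI.fix`, `hI.inv`), so `c j = i (z j)` (`hI.desc`). The elements `m3 a b z z` and `w` have after `i` the same values at `E, f, g`
(`E3_m3` in Pool/Agent/H24/PD/Ip.lean or direct computation; the value of `i ∘ w` at `g` is `σ (s^2)` as `σ` fixes `i (w j)`), and an element `u` of `κ'^3` with `u 0 + u 1 X + u 2 X^2 = 0` at three different `X` is zero (subtract: `(E - f) (u 1 + u 2 (E + f)) = 0` etc.). `i` is injective.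
-/

set_option autoImplicit false
set_option linter.unusedSectionVars false
open scoped Classical

open WithZero NumberField IsDedekindDomain H76PP H36CY H24PD

namespace H36O2

private theorem Oa_E3_map {R S : Type*} [CommRing R] [CommRing S] (g : R →+* S) (x : R) (u : Fin 3 → R) :
    E3 (g x) (fun j => g (u j)) = g (E3 x u) := by
  unfold E3
  simp only [map_add, map_mul, map_pow]

private theorem Oa_m3_map {R S : Type*} [CommRing R] [CommRing S] (g : R →+* S) (a b : R) (u v : Fin 3 → R) :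
    (fun j => g (m3 a b u v j)) = m3 (g a) (g b) (fun j => g (u j)) (fun j => g (v j)) := by
  funext j
  fin_cases j
  · show g (u 0 * v 0 - b * (u 1 * v 2 + u 2 * v 1)) = g (u 0) * g (v 0) - g b * (g (u 1) * g (v 2) + g (u 2) * g (v 1))
    simp only [map_add, map_mul, map_sub]
  · show g (u 0 * v 1 + u 1 * v 0 - a * (u 1 * v 2 + u 2 * v 1) - b * (u 2 * v 2))
      = g (u 0) * g (v 1) + g (u 1) * g (v 0) - g a * (g (u 1) * g (v 2) + g (u 2) * g (v 1)) - g b * (g (u 2) * g (v 2))
    simp only [map_add, map_mul, map_sub]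
  · show g (u 0 * v 2 + u 1 * v 1 + u 2 * v 0 - a * (u 2 * v 2))
      = g (u 0) * g (v 2) + g (u 1) * g (v 1) + g (u 2) * g (v 0) - g a * (g (u 2) * g (v 2))
    simp only [map_add, map_mul, map_sub]

theorem sq_interp {κ κ' : Type*} [Field κ] [Field κ'] {i : κ →+* κ'} {σ : κ' →+* κ'}
    (hI : Inv2 i σ) {a b e : κ} {f : κ'} (hR : Rts i σ a b e f) {w : Fin 3 → κ} {r : κ} {s : κ'}
    (h1 : E3 e w = r ^ 2) (h2 : E3 f (fun j => i (w j)) = s ^ 2) :
    ∃ z : Fin 3 → κ, m3 a b z z = w := by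
  have n1 : i e ≠ f := hR.ne1 hI
  have n2 : i e ≠ σ f := hR.ne2 hI
  have n3 : f ≠ σ f := hR.ne.symm
  obtain ⟨v, hv⟩ : ∃ v : Fin 3 → κ', v = ![i e, f, σ f] := ⟨_, rfl⟩
  have v0 : v 0 = i e := by rw [hv]; rfl
  have v1 : v 1 = f := by rw [hv]; rfl
  have v2 : v 2 = σ f := by rw [hv]; rfl
  have m01 : v 0 ≠ v 1 := by rw [v0, v1]; exact n1
  have m02 : v 0 ≠ v 2 := by rw [v0, v2]; exact n2
  have m12 : v 1 ≠ v 2 := by rw [v1, v2]; exact n3
  obtain ⟨c, hc⟩ := E3_ex m01 m02 m12 ![i r, s, σ s]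
  have c0 : E3 (i e) c = i r := by
    have h := hc 0
    rw [v0] at h
    exact h
  have c1 : E3 f c = s := by
    have h := hc 1
    rw [v1] at h
    exact h
  have c2 : E3 (σ f) c = σ s := by
    have h := hc 2
    rw [v2] at h
    exact h
  have hfix : (fun j => σ (c j)) = c := by
    refine E3_inj m01 m02 m12 fun k => ?_
    fin_cases k
    · show E3 (v 0) (fun j => σ (c j)) = E3 (v 0) c
      rw [v0, c0]
      have h := Oa_E3_map σ (i e) c
      rw [hI.fix, c0, hI.fix] at h
      exact h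
    · show E3 (v 1) (fun j => σ (c j)) = E3 (v 1) c
      rw [v1, c1]
      have h := Oa_E3_map σ (σ f) c
      rw [hI.inv, c2, hI.inv] at h
      exact h
    · show E3 (v 2) (fun j => σ (c j)) = E3 (v 2) c
      rw [v2, c2]
      have h := Oa_E3_map σ f c
      rw [c1] at h
      exact h
  have hex : ∀ j, ∃ y : κ, i y = c j := fun j => hI.desc (c j) (congrFun hfix j)
  choose z hz using hex
  refine ⟨z, ?_⟩
  have hzc : (fun j => i (z j)) = c := funext hz
  have hfin : (fun j => i (m3 a b z z j)) = fun j => i (w j) := by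
    rw [Oa_m3_map, hzc]
    refine E3_inj m01 m02 m12 fun k => ?_
    fin_cases k
    · show E3 (v 0) (m3 (i a) (i b) c c) = E3 (v 0) (fun j => i (w j))
      rw [v0, E3_m3 hR.r1' c c, c0, Oa_E3_map i e w, h1]
      rw [map_pow, sq]
    · show E3 (v 1) (m3 (i a) (i b) c c) = E3 (v 1) (fun j => i (w j))
      rw [v1, E3_m3 hR.r2 c c, c1, h2, sq]
    · show E3 (v 2) (m3 (i a) (i b) c c) = E3 (v 2) (fun j => i (w j))
      rw [v2, E3_m3 (hR.r3 hI) c c, c2]
      have h := Oa_E3_map σ f (fun j => i (w j))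
      simp only [hI.fix] at h
      rw [h, h2, map_pow, sq]
  funext j
  exact i.injective (congrFun hfin j)

end H36O2
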