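import Pool.Agent.H36.O2.Df

/-!
ROW Ob (project MP_78d38b_O2, about 130 lines): the position of a point relative to three roots at odd distance.

PROOF. `isSquare_one_add` (Pool/Agent/H10/GrHen.lean; `v 4 = 1`, `2 ≠ 0` since `v 4 ≠ 0`): `v c < 1` implies `IsSquare (1 + c)`. Let `γ := exp (2 n + 1)`.
CASE A: `γ < v x`. Then `x - e_j = x (1 - e_j / x)`, `v (e_j / x) < 1`, so `x - e_j = x s_j^2`, `s_j ≠ 0`; `y^2 = x^3 (s₁ s₂ s₃)^2`, so `x = (y / (x s₁ s₂ s₃))^2` and all `x - e_j` are squares.
CASE B: `v x ≤ γ`: `v (x - e_j) ≤ γ`. If all three are `= γ`: `v (y)^2 = exp (6 n + 3)`, impossible (`y ≠ 0`, `v y = exp m` with `m = log (v y)`, parity). So `v (x - e_i) < γ` for some `i`. For `j ≠ i`: `x - e_j = (x - e_i) + (e_i - e_j)`, so `v (x - e_j) = γ` (`Valuation.map_add_eq_of_lt_left` or similar) and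
`(x - e_j) (e_i - e_j) = (e_i - e_j)^2 (1 + (x - e_i) / (e_i - e_j))` is a square. `v (x - e_i)` : `v (y)^2 = v (x - e_i) * exp (4 n + 2)`, so `v (x - e_i) = exp (2 m)`.
-/

set_option autoImplicit false
set_option linter.unusedSectionVars false
open scoped Classical

open WithZero NumberField IsDedekindDomain H76PP H36CY H24PD

namespace H36O2

theorem sq_one_add_aux {M : Type*} [Field M] [Valued M (WithZero (Multiplicative ℤ))]
    [CompleteSpace M] (h4 : Valued.v (4 : M) = 1) {c : M} (hc : Valued.v c < 1) :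
    IsSquare (1 + c) := by
  have h40 : (4 : M) ≠ 0 := by
    intro h
    rw [h, map_zero] at h4
    exact zero_ne_one h4
  have h20 : (2 : M) ≠ 0 := by
    intro h
    apply h40
    have : (4 : M) = 2 * 2 := by norm_num
    rw [this, h, mul_zero]
  exact Pool.Agent.H10.isSquare_one_add h20 (by rw [h4]; exact hc)

theorem near_aux {M : Type*} [Field M] [Valued M (WithZero (Multiplicative ℤ))] [CompleteSpace M]
    (h4 : Valued.v (4 : M) = 1) {n : ℤ} {e f g x y : M}
    (hef : Valued.v (e - f) = exp (2 * n + 1)) (heg : Valued.v (e - g) = exp (2 * n + 1))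
    (hy : y ≠ 0) (hxy : y ^ 2 = (x - e) * (x - f) * (x - g))
    (hlt : Valued.v (x - e) < exp (2 * n + 1)) : Nr n e f g x := by
  have key : ∀ r : M, Valued.v (e - r) = exp (2 * n + 1) →
      Valued.v (x - r) = exp (2 * n + 1) ∧ IsSquare ((x - r) * (e - r)) := by
    intro r hr
    have h0 : e - r ≠ 0 := by
      intro h
      rw [h, map_zero] at hr
      exact exp_ne_zero hr.symm
    constructor
    · have h1 : x - r = (x - e) + (e - r) := by ring
      rw [h1, Valuation.map_add_eq_of_lt_right _ (by rw [hr]; exact hlt), hr]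
    · obtain ⟨s, hs⟩ := sq_one_add_aux h4 (c := (x - e) / (e - r)) (by
        rw [map_div₀, hr, div_lt_one₀ (zero_lt_iff.mpr exp_ne_zero)]
        exact hlt)
      refine ⟨(e - r) * s, ?_⟩
      have h2 : (x - r) * (e - r) = (e - r) * (e - r) * (1 + (x - e) / (e - r)) := by
        field_simp
        ring
      rw [h2, hs]
      ring
  obtain ⟨h1, h2⟩ := key f hef
  obtain ⟨h3, h4'⟩ := key g heg
  refine ⟨h2, h4', h1, h3, ?_⟩
  have hvy : Valued.v y ≠ 0 := (Valuation.ne_zero_iff _).mpr hy
  refine ⟨log (Valued.v y) - (2 * n + 1), ?_⟩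
  have h5 : Valued.v y ^ 2 = Valued.v (x - e) * exp (2 * n + 1) * exp (2 * n + 1) := by
    rw [← map_pow, hxy, map_mul, map_mul, h1, h3]
  have h6 : Valued.v y ^ 2 = exp (2 * log (Valued.v y)) := by
    rw [pow_two]
    nth_rewrite 1 [← exp_log hvy]
    nth_rewrite 2 [← exp_log hvy]
    rw [← exp_add]
    congr 1
    ring
  have h7 : exp (2 * (log (Valued.v y) - (2 * n + 1))) * exp (2 * n + 1) * exp (2 * n + 1) =
      exp (2 * log (Valued.v y)) := by
    rw [← exp_add, ← exp_add]
    congr 1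
    ring
  have h8 : Valued.v (x - e) * exp (2 * n + 1) * exp (2 * n + 1) =
      exp (2 * (log (Valued.v y) - (2 * n + 1))) * exp (2 * n + 1) * exp (2 * n + 1) := by
    rw [h7, ← h6, h5]
  exact mul_right_cancel₀ exp_ne_zero (mul_right_cancel₀ exp_ne_zero h8)

theorem cases_pt {M : Type*} [Field M] [Valued M (WithZero (Multiplicative ℤ))] [CompleteSpace M]
    (h4 : Valued.v (4 : M) = 1) {n : ℤ} {e f g x y : M} (he : Valued.v e ≤ exp (2 * n + 1))
    (hf : Valued.v f ≤ exp (2 * n + 1)) (hg : Valued.v g ≤ exp (2 * n + 1))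
    (hef : Valued.v (e - f) = exp (2 * n + 1)) (heg : Valued.v (e - g) = exp (2 * n + 1))
    (hfg : Valued.v (f - g) = exp (2 * n + 1)) (hy : y ≠ 0)
    (hxy : y ^ 2 = (x - e) * (x - f) * (x - g)) :
    (IsSquare (x - e) ∧ IsSquare (x - f) ∧ IsSquare (x - g)) ∨ Nr n e f g x ∨ Nr n f e g x ∨
      Nr n g e f x := by
  have hvy : Valued.v y ≠ 0 := (Valuation.ne_zero_iff _).mpr hy
  rcases lt_or_ge (exp (2 * n + 1)) (Valued.v x) with hA | hB
  · left
    have hx0 : x ≠ 0 := by
      intro h
      rw [h, map_zero] at hA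
      exact absurd hA (not_lt_of_ge zero_le)
    have hvx : Valued.v x ≠ 0 := (Valuation.ne_zero_iff _).mpr hx0
    have key : ∀ r : M, Valued.v r ≤ exp (2 * n + 1) → ∃ s, x - r = x * s ^ 2 := by
      intro r hr
      obtain ⟨s, hs⟩ := sq_one_add_aux h4 (c := -(r / x)) (by
        rw [Valuation.map_neg, map_div₀, div_lt_one₀ (zero_lt_iff.mpr hvx)]
        exact lt_of_le_of_lt hr hA)
      refine ⟨s, ?_⟩
      have h2 : x - r = x * (1 + -(r / x)) := by
        field_simp
        ring
      rw [h2, hs]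
      ring
    obtain ⟨s1, hs1⟩ := key e he
    obtain ⟨s2, hs2⟩ := key f hf
    obtain ⟨s3, hs3⟩ := key g hg
    have hp : y ^ 2 = x * (x * (s1 * s2 * s3)) ^ 2 := by
      rw [hxy, hs1, hs2, hs3]
      ring
    have hs0 : x * (s1 * s2 * s3) ≠ 0 := by
      intro h
      rw [h] at hp
      have : y ^ 2 = 0 := by rw [hp]; ring
      exact hy (pow_eq_zero_iff (two_ne_zero) |>.1 this)
    have hx : x = (y / (x * (s1 * s2 * s3))) ^ 2 := by
      rw [div_pow, hp, mul_div_assoc, div_self (pow_ne_zero 2 hs0), mul_one]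
    have sq : ∀ s : M, IsSquare (x * s ^ 2) := by
      intro s
      refine ⟨(y / (x * (s1 * s2 * s3))) * s, ?_⟩
      nth_rewrite 1 [hx]
      ring
    rw [hs1, hs2, hs3]
    exact ⟨sq s1, sq s2, sq s3⟩
  · right
    have hle : ∀ r : M, Valued.v r ≤ exp (2 * n + 1) → Valued.v (x - r) ≤ exp (2 * n + 1) := by
      intro r hr
      exact (Valuation.map_sub _ _ _).trans (max_le hB hr)
    have hfe : Valued.v (f - e) = exp (2 * n + 1) := by
      rw [Valuation.map_sub_swap]; exact hef
    have hge : Valued.v (g - e) = exp (2 * n + 1) := by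
      rw [Valuation.map_sub_swap]; exact heg
    have hgf : Valued.v (g - f) = exp (2 * n + 1) := by
      rw [Valuation.map_sub_swap]; exact hfg
    rcases lt_or_eq_of_le (hle e he) with h1 | h1
    · left
      exact near_aux h4 hef heg hy hxy h1
    rcases lt_or_eq_of_le (hle f hf) with h2 | h2
    · right; left
      exact near_aux h4 hfe hfg hy (by rw [hxy]; ring) h2
    rcases lt_or_eq_of_le (hle g hg) with h3 | h3
    · right; right
      exact near_aux h4 hge hgf hy (by rw [hxy]; ring) h3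
    exfalso
    have h5 : Valued.v y ^ 2 = exp (2 * n + 1) * exp (2 * n + 1) * exp (2 * n + 1) := by
      rw [← map_pow, hxy, map_mul, map_mul, h1, h2, h3]
    have h6 : Valued.v y ^ 2 = exp (2 * log (Valued.v y)) := by
      rw [pow_two]
      nth_rewrite 1 [← exp_log hvy]
      nth_rewrite 2 [← exp_log hvy]
      rw [← exp_add]
      congr 1
      ring
    rw [h6, ← exp_add, ← exp_add] at h5
    have h7 := exp_injective h5
    omega

end H36O2
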