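import Pool.Agent.H36.O2.Df

/-!
ROW Oc (project MP_78d38b_O2, about 130 lines): points of the curve over `κ` near infinity and near the root `e`.

PROOF. `g := i e - f`, `g' := i e - σ f`, `g g' = i q` with `q := 3 e^2 + a` (`hR.prod hI`), `q ≠ 0`, `g + g' = i (3 e)` (`hR.sum hI`). Choose `s ∈ κ`, `s ≠ 0`, small: `s = π^N` with `v (s^2 * 3 e) < 1`, `v (s^4 q) < 1`, `v (s^2 g) < 1`, `v (s^2 g') < 1` in `κ'` for `i s` (`hv`); (`v π < 1`, `v π ≠ 0`: `(v π)^N` is eventually smaller than any `exp (-m)`; all valuations in `WithZero (Multiplicative ℤ)`).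
By `isSquare_one_add` (Pool/Agent/H10/GrHen.lean, `v 4 = 1` in `κ` and in `κ'`): `ν := 1 + 3 e s^2 + q s^4 = m^2` in `κ` (`v (3 e s^2 + q s^4) < 1`), `m ≠ 0`, and `1 + (i s)^2 g`, `1 + (i s)^2 g'` are squares in `κ'`. Use `x^3 + a x + b = (x - e) ((x - e)^2 + 3 e (x - e) + q)` (from `hR.r1`).
`x₀ := e + 1 / s^2`: `x₀ - e = (1/s)^2`, cubic `= s^-6 ν`, `y₀ := m / s^3`; `i x₀ - f = (i s)^-2 (1 + (i s)^2 g)`.
`x₁ := e + q s^2`: `(x₁ - e) q = (q s)^2`, cubic `= q s^2 (q^2 s^4 + 3 e q s^2 + q) = q^2 s^2 ν`, `y₁ := q s m`; `(i x₁ - f) g = (g + g g' (i s)^2) g = g^2 (1 + (i s)^2 g')`.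
-/

set_option autoImplicit false
set_option linter.unusedSectionVars false
open scoped Classical

open WithZero NumberField IsDedekindDomain H76PP H36CY H24PD

namespace H36O2

private theorem Oc_pow {γ : WithZero (Multiplicative ℤ)} (h1 : γ < 1)
    (c : WithZero (Multiplicative ℤ)) : ∃ N : ℕ, γ ^ N * c < 1 := by
  by_cases hc : c = 0
  · refine ⟨0, ?_⟩
    rw [hc, mul_zero]
    exact zero_lt_one
  · obtain ⟨N, hN⟩ := exists_pow_lt₀ h1 (Units.mk0 c⁻¹ (inv_ne_zero hc))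
    refine ⟨N, ?_⟩
    rw [Units.val_mk0] at hN
    calc γ ^ N * c < c⁻¹ * c := mul_lt_mul_of_pos_right hN (zero_lt_iff.2 hc)
      _ = 1 := inv_mul_cancel₀ hc

theorem exists_pts {κ κ' : Type*} [Field κ] [Field κ'] [Valued κ (WithZero (Multiplicative ℤ))]
    [CompleteSpace κ] [Valued κ' (WithZero (Multiplicative ℤ))] [CompleteSpace κ']
    {i : κ →+* κ'} {σ : κ' →+* κ'} (hI : Inv2 i σ) (h4 : Valued.v (4 : κ) = 1)
    (h4' : Valued.v (4 : κ') = 1) {π : κ} (hπ0 : π ≠ 0) (hπ : Valued.v π < 1)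
    (hv : ∀ x : κ, Valued.v (i x) = Valued.v x) {a b e : κ} {f : κ'} (hR : Rts i σ a b e f) :
    ∃ x₀ y₀ x₁ y₁ : κ, y₀ ≠ 0 ∧ y₀ ^ 2 = x₀ ^ 3 + a * x₀ + b ∧ IsSquare (x₀ - e) ∧
      IsSquare (i x₀ - f) ∧ y₁ ≠ 0 ∧ y₁ ^ 2 = x₁ ^ 3 + a * x₁ + b ∧
      IsSquare ((x₁ - e) * (3 * e ^ 2 + a)) ∧ IsSquare ((i x₁ - f) * (i e - f)) := by
  have h40 : (4 : κ) ≠ 0 := by
    intro h
    rw [h, map_zero] at h4
    exact zero_ne_one h4
  have h20 : (2 : κ) ≠ 0 := by
    intro h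
    apply h40
    linear_combination 2 * h
  have h40' : (4 : κ') ≠ 0 := by
    intro h
    rw [h, map_zero] at h4'
    exact zero_ne_one h4'
  have h20' : (2 : κ') ≠ 0 := by
    intro h
    apply h40'
    linear_combination 2 * h
  obtain ⟨q, hq⟩ : ∃ q, q = 3 * e ^ 2 + a := ⟨_, rfl⟩
  obtain ⟨g, hg⟩ : ∃ g, g = i e - f := ⟨_, rfl⟩
  obtain ⟨g', hg'⟩ : ∃ g', g' = i e - σ f := ⟨_, rfl⟩
  have hgg : g * g' = i q := by
    rw [hg, hg', hq]
    exact hR.prod hI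
  have hg0 : g ≠ 0 := by
    rw [hg]
    exact sub_ne_zero.2 (hR.ne1 hI)
  have hg0' : g' ≠ 0 := by
    rw [hg']
    exact sub_ne_zero.2 (hR.ne2 hI)
  have hq0 : q ≠ 0 := by
    intro h
    rw [h, map_zero] at hgg
    exact mul_ne_zero hg0 hg0' hgg
  obtain ⟨c, hc⟩ : ∃ c : WithZero (Multiplicative ℤ), c = max 1 (max (Valued.v (3 * e))
    (max (Valued.v q) (max (Valued.v g) (Valued.v g')))) := ⟨_, rfl⟩
  have c0 : 1 ≤ c := by
    rw [hc]
    exact le_max_left _ _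
  have c1 : Valued.v (3 * e) ≤ c := by
    rw [hc]
    exact (le_max_left _ _).trans (le_max_right _ _)
  have c2 : Valued.v q ≤ c := by
    rw [hc]
    exact ((le_max_left _ _).trans (le_max_right _ _)).trans (le_max_right _ _)
  have c3 : Valued.v g ≤ c := by
    rw [hc]
    exact (((le_max_left _ _).trans (le_max_right _ _)).trans (le_max_right _ _)).trans
      (le_max_right _ _)
  have c4 : Valued.v g' ≤ c := by
    rw [hc]
    exact (((le_max_right _ _).trans (le_max_right _ _)).trans (le_max_right _ _)).trans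
      (le_max_right _ _)
  obtain ⟨N, hN⟩ := Oc_pow hπ c
  obtain ⟨s, hs⟩ : ∃ s, s = π ^ N := ⟨_, rfl⟩
  have hs0 : s ≠ 0 := by
    rw [hs]
    exact pow_ne_zero _ hπ0
  have hsc : Valued.v s * c < 1 := by
    rw [hs, map_pow]
    exact hN
  have hs1 : Valued.v s < 1 :=
    lt_of_le_of_lt (by simpa using mul_le_mul_right c0 (Valued.v s)) hsc
  have hbd : ∀ t : WithZero (Multiplicative ℤ), t ≤ c → Valued.v s ^ 2 * t < 1 := by
    intro t ht
    refine lt_of_le_of_lt ?_ hsc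
    rw [sq]
    refine mul_le_mul' ?_ ht
    exact mul_le_of_le_one_right' hs1.le
  have his0 : i s ≠ 0 := by
    intro h
    exact hs0 (i.injective (h.trans (map_zero i).symm))
  have hx : Valued.v (3 * e * s ^ 2 + q * s ^ 4) < 1 := by
    refine Valuation.map_add_lt _ ?_ ?_
    · rw [map_mul, map_pow, mul_comm]
      exact hbd _ c1
    · have e1 : q * s ^ 4 = s ^ 2 * (s ^ 2 * q) := by ring
      rw [e1, map_mul, map_mul, map_pow]
      refine lt_of_le_of_lt ?_ (hbd _ c2)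
      refine mul_le_of_le_one_left' ?_
      exact pow_le_one₀ zero_le hs1.le
  obtain ⟨m, hm⟩ := Pool.Agent.H10.isSquare_one_add h20 (x := 3 * e * s ^ 2 + q * s ^ 4)
    (by rw [h4]; exact hx)
  have hm0 : m ≠ 0 := by
    intro h
    rw [h, mul_zero] at hm
    have h1 : 3 * e * s ^ 2 + q * s ^ 4 = -1 := by linear_combination hm
    rw [h1, Valuation.map_neg, map_one] at hx
    exact lt_irrefl _ hx
  obtain ⟨n, hn⟩ := Pool.Agent.H10.isSquare_one_add h20' (x := (i s) ^ 2 * g) (by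
    rw [h4', map_mul, map_pow, hv]
    exact hbd _ c3)
  obtain ⟨n', hn'⟩ := Pool.Agent.H10.isSquare_one_add h20' (x := (i s) ^ 2 * g') (by
    rw [h4', map_mul, map_pow, hv]
    exact hbd _ c4)
  have hr := hR.r1
  refine ⟨e + 1 / s ^ 2, m / s ^ 3, e + q * s ^ 2, q * s * m, ?_, ?_, ?_, ?_, ?_, ?_, ?_, ?_⟩
  · exact div_ne_zero hm0 (pow_ne_zero _ hs0)
  · have e1 : (e + 1 / s ^ 2) ^ 3 + a * (e + 1 / s ^ 2) + b =
        (1 + (3 * e * s ^ 2 + q * s ^ 4)) / s ^ 6 := by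
      rw [hq]
      field_simp
      linear_combination s ^ 6 * hr
    rw [e1, hm]
    field_simp
  · refine ⟨1 / s, ?_⟩
    field_simp
    ring
  · refine ⟨n / i s, ?_⟩
    have e1 : i (e + 1 / s ^ 2) - f = (1 + (i s) ^ 2 * g) / (i s) ^ 2 := by
      rw [hg, map_add, map_div₀, map_one, map_pow]
      field_simp
      ring
    rw [e1, hn]
    field_simp
  · exact mul_ne_zero (mul_ne_zero hq0 hs0) hm0
  · have e1 : (e + q * s ^ 2) ^ 3 + a * (e + q * s ^ 2) + b =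
        q ^ 2 * s ^ 2 * (1 + (3 * e * s ^ 2 + q * s ^ 4)) := by
      linear_combination hr - q * s ^ 2 * hq
    rw [e1, hm]
    ring
  · refine ⟨q * s, ?_⟩
    rw [← hq]
    ring
  · refine ⟨g * n', ?_⟩
    rw [← hg, map_add, map_mul, map_pow, ← hgg]
    linear_combination g ^ 2 * hn' + (-g) * hg

end H36O2
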