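import Pool.Agent.H36.O2.Oa
import Pool.Agent.H36.O2.Ob
import Pool.Agent.H36.O2.Oc

/-!
ROW Od (project MP_78d38b_O2, about 170 lines): descent of the local condition in the unramified quadratic extension. USE ONLY THE STATEMENTS of Oa, Ob, Oc.

PROOF. Write `α = i₀ a`, `β = i₀ b`, `δ j = i₀ (d j)` in `κ`. The hypothesis gives `x, y, z` over `κ'`: `y ≠ 0`, `y^2 = x^3 + i α x + i β = (x - E) (x - f) (x - g)` (`hR.fac hI`; `E = i e`, `g = σ f`), `m3 (i α) (i β) (i ∘ δ) ![x, -1, 0] = m3 z z`. Evaluate at `E, f, g` (`H24PD.E3_m3`, Pool/Agent/H24/PD/Ip.lean): with `D₁ := E3 e δ ∈ κ`, `D₂ := E3 f (i ∘ δ)`, the value at `g` is `σ D₂`: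
`i D₁ (x - E) = ζ₁^2`, `D₂ (x - f) = ζ₂^2`, `σ D₂ (x - g) = ζ₃^2`. `x - E, x - f, x - g ≠ 0` (product `y^2`). NORM: `i D₁ * D₂ * σ D₂ = i (Te_nf α β δ)` (polynomial identity modulo the relations `hR.a_eq, hR.b_eq, hR.sum`; substitute `E = -f - g`), and `Te_nf α β δ = i₀ (Te_nf a b d) = ν^2`, `ν ≠ 0` (`Te_nf_map`). So `D₁, D₂ ≠ 0`.
An element `u` of `κ'` with `u = i c` and `u = t * σ t`, ...: for `t ∈ κ'`, `t * σ t` is fixed by `σ`, so `t * σ t = i (N t)` for some `N t ∈ κ` (`hI.inv`, `hI.desc`).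
Apply cases_pt (`e := E, f, g`): (A) all of `x - E, x - f, x - g` squares: `D₂ = t^2`, so `i D₁ (i (N t))^2 = i (ν^2)`, `D₁ = (ν / N t)^2` (`i` injective). Take `(x₀, y₀)` of exists_pts: the element `w = m3 α β δ ![x₀, -1, 0]` has the value `D₁ (x₀ - e)` at `e` and `D₂ (i x₀ - f)` at `f`: squares; sq_interp gives `z`.
(B) Nr E f g x: `(x - f) (E - f)` is a square, so `D₂ (E - f)` is a square `t^2` (`D₂ (x - f)` is a square, `x - f ≠ 0`); multiply with the conjugate: `D₂ σ D₂ i q = i (N t)^2`, `q = 3 e^2 + a` (`hR.prod hI`), so `D₁ q` is a square in `κ` (`D₁ D₂ σD₂ = ν^2`; `q ≠ 0`). Take `(x₁, y₁)`: the values `D₁ (x₁ - e)` and `D₂ (i x₁ - f)` of `m3 α β δ ![x₁, -1, 0]` are squares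
(`D₁ (x₁ - e) = (D₁ q) ((x₁ - e) q) / q^2`, similarly with `i e - f`).
(C) Nr f E g x: `v (x - f) = exp (2 m)` and `v (x - g) = exp (2 n + 1)`: from `ζ₂^2 = D₂ (x - f)` the order of `D₂` is even, from `ζ₃^2 = σ D₂ (x - g)` the order of `σ D₂` is odd, but `v (σ D₂) = v D₂` (`hσ`). (D) Nr g E f x: the same with `f` and `g` exchanged.
-/

set_option autoImplicit false
set_option linter.unusedSectionVars false
open scoped Classical

open WithZero NumberField IsDedekindDomain H76PP H36CY H24PD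

namespace H36O2

private lemma Od_norm {F : Type*} [CommRing F] {E f g A B : F} (hs : E + f + g = 0)
    (hA : A = E * f + E * g + f * g) (hB : B = -(E * f * g)) (u : Fin 3 → F) :
    E3 E u * E3 f u * E3 g u = Te_nf A B u := by
  have hE : E = -f - g := by linear_combination hs
  subst hA hB hE
  unfold E3 Te_nf
  ring

private lemma Od_map {κ κ' : Type*} [Field κ] [Field κ'] (i : κ →+* κ') (e : κ) (d : Fin 3 → κ) :
    E3 (i e) (fun j => i (d j)) = i (E3 e d) := by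
  unfold E3
  simp only [map_add, map_mul, map_pow]

private lemma Od_x {F : Type*} [CommRing F] (e x : F) : E3 e ![x, -1, 0] = x - e := by
  simp [E3]
  ring

private lemma Od_fin {κ κ' : Type*} [Field κ] [Field κ'] {i : κ →+* κ'} {σ : κ' →+* κ'}
    (hI : Inv2 i σ) {a b e : κ} {f : κ'} (hR : Rts i σ a b e f) {d : Fin 3 → κ} {x₀ y₀ : κ}
    (hy : y₀ ≠ 0) (hxy : y₀ ^ 2 = x₀ ^ 3 + a * x₀ + b)
    {r : κ} (h1 : E3 e d * (x₀ - e) = r ^ 2)
    {s : κ'} (h2 : E3 f (fun j => i (d j)) * (i x₀ - f) = s ^ 2) :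
    ∃ (x y : κ) (z : Fin 3 → κ), y ≠ 0 ∧ y ^ 2 = x ^ 3 + a * x + b ∧
      m3 a b d ![x, -1, 0] = m3 a b z z := by
  obtain ⟨z, hz⟩ := sq_interp hI hR (w := m3 a b d ![x₀, -1, 0]) (r := r) (s := s)
    (by rw [E3_m3 hR.r1, Od_x, h1])
    (by
      have h3 : (fun j => i (m3 a b d ![x₀, -1, 0] j)) =
          m3 (i a) (i b) (fun j => i (d j)) (fun j => i ((![x₀, -1, 0] : Fin 3 → κ) j)) := by
        funext j
        exact (Te_m3_map i a b d ![x₀, -1, 0] j).symm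
      have h4 : (fun j => i ((![x₀, -1, 0] : Fin 3 → κ) j)) = ![i x₀, -1, 0] := by
        funext j
        fin_cases j <;> simp
      rw [h3, h4, E3_m3 hR.r2, Od_x, h2])
  exact ⟨x₀, y₀, z, hy, hxy, hz.symm⟩

private lemma Od_exp {Γ : Type*} [Field Γ] [Valued Γ (WithZero (Multiplicative ℤ))] {D u z : Γ}
    {k m : ℤ} (hD : Valued.v D = exp k) (hu : Valued.v u = exp m) (hz : D * u = z * z) :
    ∃ l : ℤ, k + m = 2 * l := by
  have hz0 : z ≠ 0 := by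
    rintro rfl
    rw [mul_zero] at hz
    have h1 := congrArg Valued.v hz
    rw [map_mul, hD, hu, map_zero, ← exp_add] at h1
    exact absurd h1 exp_ne_zero
  have hvz : Valued.v z ≠ 0 := (Valuation.ne_zero_iff _).2 hz0
  refine ⟨log (Valued.v z), ?_⟩
  have h1 := congrArg Valued.v hz
  rw [map_mul, map_mul, hD, hu, ← exp_log hvz, ← exp_add, ← exp_add, exp_inj] at h1
  rw [h1]
  ring

private lemma Od_core {κ κ' : Type*} [Field κ] [Field κ']
    [Valued κ (WithZero (Multiplicative ℤ))] [CompleteSpace κ]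
    [Valued κ' (WithZero (Multiplicative ℤ))] [CompleteSpace κ']
    {i : κ →+* κ'} {σ : κ' →+* κ'} (hI : Inv2 i σ) (h4 : Valued.v (4 : κ) = 1)
    (h4' : Valued.v (4 : κ') = 1) {π : κ} (hπ0 : π ≠ 0) (hπ : Valued.v π < 1)
    (hv : ∀ x : κ, Valued.v (i x) = Valued.v x) (hσ : ∀ x : κ', Valued.v (σ x) = Valued.v x)
    {a b : κ} {e : κ} {f : κ'} (hR : Rts i σ a b e f) {n : ℤ}
    (he : Valued.v (i e) ≤ exp (2 * n + 1)) (hf : Valued.v f ≤ exp (2 * n + 1))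
    (hef : Valued.v (i e - f) = exp (2 * n + 1)) (hfg : Valued.v (f - σ f) = exp (2 * n + 1))
    {d : Fin 3 → κ} {ν : κ} (hν0 : ν ≠ 0) (hν : Te_nf a b d = ν ^ 2)
    {x y : κ'} {z : Fin 3 → κ'} (hy : y ≠ 0) (hxy : y ^ 2 = x ^ 3 + i a * x + i b)
    (hz : m3 (i a) (i b) (fun j => i (d j)) ![x, -1, 0] = m3 (i a) (i b) z z) :
    ∃ (x y : κ) (z : Fin 3 → κ), y ≠ 0 ∧ y ^ 2 = x ^ 3 + a * x + b ∧
      m3 a b d ![x, -1, 0] = m3 a b z z := by
  have hfac : y ^ 2 = (x - i e) * (x - f) * (x - σ f) := by rw [hxy, hR.fac hI]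
  have hy2 : y ^ 2 ≠ 0 := pow_ne_zero _ hy
  have nE : x - i e ≠ 0 := by
    intro h0
    rw [hfac, h0, zero_mul, zero_mul] at hy2
    exact hy2 rfl
  have nf : x - f ≠ 0 := by
    intro h0
    rw [hfac, h0, mul_zero, zero_mul] at hy2
    exact hy2 rfl
  have ng : x - σ f ≠ 0 := by
    intro h0
    rw [hfac, h0, mul_zero] at hy2
    exact hy2 rfl
  obtain ⟨D₁, hD₁⟩ : ∃ D₁, D₁ = E3 e d := ⟨_, rfl⟩
  obtain ⟨D₂, hD₂⟩ : ∃ D₂, D₂ = E3 f (fun j => i (d j)) := ⟨_, rfl⟩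
  have hσD : E3 (σ f) (fun j => i (d j)) = σ D₂ := by
    rw [hD₂]
    unfold E3
    simp only [map_add, map_mul, map_pow, hI.fix]
  have hED : E3 (i e) (fun j => i (d j)) = i D₁ := by rw [hD₁, Od_map]
  have q1 : i D₁ * (x - i e) = E3 (i e) z * E3 (i e) z := by
    rw [← E3_m3 hR.r1', ← hz, E3_m3 hR.r1', Od_x, hED]
  have q2 : D₂ * (x - f) = E3 f z * E3 f z := by
    rw [← E3_m3 hR.r2, ← hz, E3_m3 hR.r2, Od_x, hD₂]
  have q3 : σ D₂ * (x - σ f) = E3 (σ f) z * E3 (σ f) z := by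
    rw [← E3_m3 (hR.r3 hI), ← hz, E3_m3 (hR.r3 hI), Od_x, hσD]
  have hN : i D₁ * D₂ * σ D₂ = (i ν) ^ 2 := by
    have h1 := Od_norm (hR.sum hI) (hR.a_eq hI) (hR.b_eq hI) (fun j => i (d j))
    rw [hED, ← hD₂, hσD, Te_nf_map, hν, map_pow] at h1
    exact h1
  have hiν : i ν ≠ 0 := (map_ne_zero i).2 hν0
  have hN0 : i D₁ * D₂ * σ D₂ ≠ 0 := by
    rw [hN]
    exact pow_ne_zero _ hiν
  have hD20 : D₂ ≠ 0 := by
    rintro h0
    rw [h0, mul_zero, zero_mul] at hN0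
    exact hN0 rfl
  have hinj : Function.Injective i := i.injective
  have hdesc : ∀ t : κ', t ≠ 0 → ∃ N : κ, N ≠ 0 ∧ i N = t * σ t := by
    intro t ht
    obtain ⟨N, hN⟩ := hI.desc (t * σ t) (by rw [map_mul, hI.inv, mul_comm])
    refine ⟨N, ?_, hN⟩
    rintro rfl
    rw [map_zero] at hN
    exact (mul_ne_zero ht ((map_ne_zero σ).2 ht)) hN.symm
  have hvD : Valued.v D₂ ≠ 0 := (Valuation.ne_zero_iff _).2 hD20
  obtain ⟨x₀, y₀, x₁, y₁, hy₀, hxy₀, hs₀, ht₀, hy₁, hxy₁, hs₁, ht₁⟩ :=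
    exists_pts hI h4 h4' hπ0 hπ hv hR
  have hg : Valued.v (σ f) ≤ exp (2 * n + 1) := by
    rw [hσ]
    exact hf
  have heg : Valued.v (i e - σ f) = exp (2 * n + 1) := by
    have h1 : i e - σ f = σ (i e - f) := by rw [map_sub, hI.fix]
    rw [h1, hσ, hef]
  rcases cases_pt h4' he hf hg hef heg hfg hy hfac with ⟨-, hB, -⟩ | hB | hC | hD
  · -- near infinity
    obtain ⟨p, hp⟩ := hB
    have hp0 : p ≠ 0 := by
      rintro rfl
      rw [mul_zero] at hp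
      exact nf hp
    obtain ⟨t, ht⟩ : ∃ t, t = E3 f z / p := ⟨_, rfl⟩
    have htD : D₂ = t ^ 2 := by
      rw [ht, div_pow, eq_div_iff (pow_ne_zero _ hp0)]
      rw [hp] at q2
      linear_combination q2
    have ht0 : t ≠ 0 := by
      rintro h0
      rw [h0] at htD
      apply hD20
      rw [htD]
      ring
    obtain ⟨N, hN1, hN2⟩ := hdesc t ht0
    have h5 : D₁ * N ^ 2 = ν ^ 2 := by
      apply hinj
      rw [map_mul, map_pow, map_pow, hN2, ← hN, htD, map_pow]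
      ring
    obtain ⟨r, hr⟩ := hs₀
    obtain ⟨s, hs⟩ := ht₀
    refine Od_fin hI hR hy₀ hxy₀ (r := ν / N * r) (s := t * s) ?_ ?_
    · rw [← hD₁, hr]
      have h6 : D₁ = (ν / N) ^ 2 := by
        rw [div_pow, eq_div_iff (pow_ne_zero _ hN1), h5]
      rw [h6]
      ring
    · rw [← hD₂, hs, htD]
      ring
  · -- near `e`
    obtain ⟨p, hp⟩ := hB.sf
    have nef : i e - f ≠ 0 := sub_ne_zero.2 (hR.ne1 hI)
    obtain ⟨t, ht⟩ : ∃ t, t = E3 f z * p / (x - f) := ⟨_, rfl⟩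
    have htD : D₂ * (i e - f) = t ^ 2 := by
      rw [ht, div_pow, eq_div_iff (pow_ne_zero _ nf)]
      linear_combination (x - f) * (i e - f) * q2 + E3 f z * E3 f z * hp
    have ht0 : t ≠ 0 := by
      rintro h0
      rw [h0] at htD
      have h6 : D₂ * (i e - f) ≠ 0 := mul_ne_zero hD20 nef
      apply h6
      rw [htD]
      ring
    obtain ⟨N, hN1, hN2⟩ := hdesc t ht0
    have hσt : σ D₂ * (i e - σ f) = (σ t) ^ 2 := by
      rw [← map_pow, ← htD, map_mul, map_sub, hI.fix]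
    have hpr := hR.prod hI
    have h5 : D₁ * N ^ 2 = ν ^ 2 * (3 * e ^ 2 + a) := by
      apply hinj
      rw [map_mul, map_pow, map_mul, map_pow, hN2, ← hN, ← hpr]
      linear_combination (-i D₁ * (σ t) ^ 2) * htD - i D₁ * D₂ * (i e - f) * hσt
    have hq0 : 3 * e ^ 2 + a ≠ 0 := by
      intro h0
      rw [h0, map_zero] at hpr
      rcases mul_eq_zero.1 hpr with h6 | h6
      · exact nef h6
      · exact (sub_ne_zero.2 (hR.ne2 hI)) h6
    obtain ⟨r, hr⟩ := hs₁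
    obtain ⟨s, hs⟩ := ht₁
    refine Od_fin hI hR hy₁ hxy₁ (r := ν / N * r) (s := t * s / (i e - f)) ?_ ?_
    · rw [← hD₁]
      have h6 : D₁ = (ν / N) ^ 2 * (3 * e ^ 2 + a) := by
        rw [div_pow, div_mul_eq_mul_div, eq_div_iff (pow_ne_zero _ hN1), h5]
      rw [h6]
      linear_combination (ν / N) ^ 2 * hr
    · rw [← hD₂, div_pow, eq_div_iff (pow_ne_zero _ nef)]
      linear_combination (i x₁ - f) * (i e - f) * htD + t ^ 2 * hs
  · -- near `f`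
    exfalso
    obtain ⟨m, hm⟩ := hC.ve
    obtain ⟨l, hl⟩ := Od_exp (exp_log hvD).symm hm q2
    obtain ⟨l', hl'⟩ := Od_exp (D := σ D₂) (k := log (Valued.v D₂))
      (by rw [hσ, exp_log hvD]) hC.vg q3
    omega
  · -- near `σ f`
    exfalso
    obtain ⟨m, hm⟩ := hD.ve
    obtain ⟨l, hl⟩ := Od_exp (exp_log hvD).symm hD.vg q2
    obtain ⟨l', hl'⟩ := Od_exp (D := σ D₂) (k := log (Valued.v D₂))
      (by rw [hσ, exp_log hvD]) hm q3
    omega

theorem LC_down {k κ κ' : Type*} [Field k] [Field κ] [Field κ']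
    [Valued κ (WithZero (Multiplicative ℤ))] [CompleteSpace κ]
    [Valued κ' (WithZero (Multiplicative ℤ))] [CompleteSpace κ']
    {i : κ →+* κ'} {σ : κ' →+* κ'} (hI : Inv2 i σ) (h4 : Valued.v (4 : κ) = 1)
    (h4' : Valued.v (4 : κ') = 1) {π : κ} (hπ0 : π ≠ 0) (hπ : Valued.v π < 1)
    (hv : ∀ x : κ, Valued.v (i x) = Valued.v x) (hσ : ∀ x : κ', Valued.v (σ x) = Valued.v x)
    {i₀ : k →+* κ} {a b : k} {e : κ} {f : κ'} (hR : Rts i σ (i₀ a) (i₀ b) e f) {n : ℤ}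
    (he : Valued.v (i e) ≤ exp (2 * n + 1)) (hf : Valued.v f ≤ exp (2 * n + 1))
    (hef : Valued.v (i e - f) = exp (2 * n + 1)) (hfg : Valued.v (f - σ f) = exp (2 * n + 1))
    {d : Fin 3 → k} (hd0 : Te_nf a b d ≠ 0) (hd : IsSquare (Te_nf a b d))
    (h : LC (i.comp i₀) a b d) : LC i₀ a b d := by
  obtain ⟨x, y, z, hy, hxy, hz⟩ := h
  obtain ⟨ν, hν⟩ := hd
  have hν0 : ν ≠ 0 := by
    rintro rfl
    rw [mul_zero] at hν
    exact hd0 hν
  exact Od_core hI h4 h4' hπ0 hπ hv hσ hR he hf hef hfg (ν := i₀ ν) ((map_ne_zero i₀).2 hν0)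
    (d := fun j => i₀ (d j)) (by rw [Te_nf_map, hν, map_mul, pow_two]) hy hxy hz

end H36O2
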