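import Pool.Agent.H36.O2.Or
import Mathlib.FieldTheory.Finite.Basic
import Mathlib.FieldTheory.Normal.Closure
import Mathlib.RingTheory.Valuation.LocalSubring

/-!
ROW Ok (project MP_78d38b_O2, about 160 lines; uses only the statement of Or): a valuation subring of `F` above `v` with finite residue field if all
decomposition groups above `v` in the finite Galois layers have order at most two.

PROOF. `A :=` the image of `𝓞 K` in `F` (a subring, `RingHom.range`), `I :=` the image of `v` (an ideal of `A`, not `⊤`: `algebraMap K F` is injective). `Ideal.image_subset_nonunits_valuationSubring` (`Mathlib/RingTheory/Valuation/LocalSubring.lean`) gives `R : ValuationSubring F` with `A ≤ R` and the image of `v` in the nonunits. These are the second and third claims.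
FINITE RESIDUE FIELD: let `q := Nat.card (𝓞 K ⧸ v)` (`≥ 2`). Claim: every `z` in the residue field `κ` of `R` satisfies `z ^ (q ^ 2) = z`; then `κ` is finite (the roots of the nonzero polynomial `X ^ (q ^ 2) - X`, `Polynomial.rootSet_finite` or `Set.Finite` of roots; `Set.finite_univ_iff`).
Proof of the claim: `z` is the class of `x ∈ R`. `x` lies in a finite Galois layer `N` of `F / K` (normal closure of `K(x)`; `exists_big` in Pool/Agent/H30/CY/Inf.lean gives it). `𝓞 N ⊂ R` (elements of `𝓞 N` are integral over `ℤ`; `R` is integrally closed: `ValuationSubring` `mem_of_integral`/`IsIntegrallyClosed`). `W := {y ∈ 𝓞 N | R.valuation y < 1}`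
is a prime ideal of `𝓞 N`, not zero (it contains a nonzero element of `v`), `W ∩ 𝓞 K = v` (it contains `v`, `v` is maximal, `1 ∉ W`), so `W` is a place of `N` with `dn K W = v`. `R ∩ N` is the valuation ring of `W`: if `y ∈ N`, `W.valuation y ≤ 1` then `y = a / b`, `a, b ∈ 𝓞 N`, `b ∉ W` (`IsDedekindDomain.HeightOneSpectrum` lemma
`exists_primeCompl_mul_eq_of_integer` or as in Pool/Agent/H73/P2/Wh.lean), so `y ∈ R` (`b` is a unit of `R`); if `W.valuation y > 1` then `y⁻¹ = a / b` as before with `a ∈ W`, `b ∉ W`, so `R.valuation y⁻¹ < 1` and `y ∉ R`. So `W.valuation x ≤ 1`, and by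
`HeightOneSpectrum.exists_valuation_sub_lt_of_integer` (used in Wh.lean) there is `a : 𝓞 N` with `W.valuation (x - a) < 1`; `x` and `a` have the same class in `κ`. `exists_frob W` gives `φ`, `Stb K W φ`, `φ y - y^q ∈ W` for `y ∈ 𝓞 N`. By `hdec` for `W`: `φ = 1` or `φ = t`, and `φ * φ` also satisfies `Stb`, so it is `1` or `t`; in all cases `φ * φ = 1`.
So `a = φ (φ a) ≡ φ (a^q) = (φ a)^q ≡ a^(q^2)` modulo `W` (the first congruence: `φ` preserves `W.valuation`), and `a ^ (q ^ 2) = a` in `κ`.
-/

set_option autoImplicit false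
set_option linter.unusedSectionVars false
open scoped Classical

open WithZero NumberField IsDedekindDomain H76PP H36CY H24PD

namespace H36O2

private theorem Ok_base {K F : Type} [Field K] [NumberField K] [Field F] [Algebra K F]
    (v : HeightOneSpectrum (𝓞 K)) :
    ∃ R : ValuationSubring F,
      (∀ x : 𝓞 K, algebraMap K F (x : K) ∈ R) ∧
      ∀ x : 𝓞 K, x ∈ v.asIdeal → R.valuation (algebraMap K F (x : K)) < 1 := by
  let g : 𝓞 K →+* F := (algebraMap K F).comp (algebraMap (𝓞 K) K)
  have hg : Function.Injective g :=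
    (algebraMap K F).injective.comp (NumberField.RingOfIntegers.coe_injective)
  have hsur : Function.Surjective g.rangeRestrict := g.rangeRestrict_surjective
  have hI : Ideal.map g.rangeRestrict v.asIdeal ≠ ⊤ := by
    intro h
    have h1 : (1 : g.range) ∈ Ideal.map g.rangeRestrict v.asIdeal := by
      rw [h]
      exact Submodule.mem_top
    obtain ⟨x, hx, hx1⟩ := (Ideal.mem_map_iff_of_surjective _ hsur).1 h1
    have h2 : g x = 1 := congrArg Subtype.val hx1
    have h3 : x = 1 := hg (h2.trans (map_one g).symm)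
    exact v.isPrime.ne_top ((Ideal.eq_top_iff_one _).2 (h3 ▸ hx))
  obtain ⟨R, hR1, hR2⟩ := Ideal.image_subset_nonunits_valuationSubring _ hI
  refine ⟨R, fun x => hR1 ⟨x, rfl⟩, fun x hx => ?_⟩
  have h1 : g x ∈ R.nonunits :=
    hR2 ⟨g.rangeRestrict x, Ideal.mem_map_of_mem _ hx, rfl⟩
  exact R.mem_nonunits_iff.1 h1

private theorem Ok_int {K F : Type} [Field K] [NumberField K] [Field F] [Algebra K F]
    (R : ValuationSubring F) (N : IntermediateField K F) [NumberField N] (y : 𝓞 N) :
    ((y : N) : F) ∈ R := by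
  have h1 : IsIntegral ℤ (((y : N)) : F) := by
    have h2 : IsIntegral ℤ (y : N) := y.2
    exact h2.map (N.val.toRingHom.toIntAlgHom)
  have h3 : IsIntegral R (((y : N)) : F) := h1.tower_top
  obtain ⟨z, hz⟩ := (IsIntegrallyClosed.isIntegral_iff (R := R) (K := F)).1 h3
  rw [← hz]
  exact z.2

private theorem Ok_pow {K F : Type} [Field K] [NumberField K] [Field F] [Algebra K F] [IsGalois K F]
    {v : HeightOneSpectrum (𝓞 K)} {R : ValuationSubring F}
    (hR2 : ∀ x : 𝓞 K, x ∈ v.asIdeal → R.valuation (algebraMap K F (x : K)) < 1)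
    (N : IntermediateField K F) [NumberField N] (hN : IsGalois K N) (hd : Dec2 N v)
    (x : N) (hx : (x : F) ∈ R) :
    R.valuation ((x : F) ^ (Nat.card (𝓞 K ⧸ v.asIdeal) ^ 2) - (x : F)) < 1 := by
  obtain ⟨q, hq⟩ : ∃ q, q = Nat.card (𝓞 K ⧸ v.asIdeal) := ⟨_, rfl⟩
  rw [← hq]
  -- the ring homomorphism of the integers of `N` into `R`
  let j₀ : 𝓞 N →+* F := N.val.toRingHom.comp (algebraMap (𝓞 N) N)
  have hj₀ : ∀ y : 𝓞 N, j₀ y = ((y : N) : F) := fun _ => rfl
  have hj₀R : ∀ y : 𝓞 N, j₀ y ∈ R := fun y => Ok_int R N y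
  let j : 𝓞 N →+* R := j₀.codRestrict R hj₀R
  have hj : ∀ y : 𝓞 N, ((j y : R) : F) = ((y : N) : F) := fun _ => rfl
  let I : Ideal (𝓞 N) := (IsLocalRing.maximalIdeal R).comap j
  have hI : ∀ y : 𝓞 N, y ∈ I ↔ R.valuation ((y : N) : F) < 1 := by
    intro y
    rw [Ideal.mem_comap, ValuationSubring.valuation_lt_one_iff, hj]
  have hIp : I.IsPrime := Ideal.comap_isPrime _ _
  have hIv : ∀ a : 𝓞 K, a ∈ v.asIdeal → algebraMap (𝓞 K) (𝓞 N) a ∈ I := by
    intro a ha
    rw [hI]
    have e : (((algebraMap (𝓞 K) (𝓞 N) a : 𝓞 N) : N) : F) = algebraMap K F (a : K) := rfl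
    rw [e]
    exact hR2 a ha
  have hI0 : I ≠ ⊥ := by
    intro h0
    obtain ⟨a, ha, ha0⟩ := Submodule.exists_mem_ne_zero_of_ne_bot v.ne_bot
    have h1 := hIv a ha
    rw [h0, Ideal.mem_bot] at h1
    exact ha0 ((FaithfulSMul.algebraMap_injective (𝓞 K) (𝓞 N)) (h1.trans (map_zero _).symm))
  let W : HeightOneSpectrum (𝓞 N) := ⟨I, hIp, hI0⟩
  have hW : ∀ y : 𝓞 N, y ∈ W.asIdeal ↔ R.valuation ((y : N) : F) < 1 := hI
  have hdn : dn K W = v := by
    apply HeightOneSpectrum.ext
    refine (v.isMaximal.eq_of_le (dn K W).isPrime.ne_top ?_).symm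
    intro a ha
    exact hIv a ha
  -- comparison of the valuations
  have hdR : ∀ d : 𝓞 N, d ∉ W.asIdeal → R.valuation ((d : N) : F) = 1 := by
    intro d hd1
    have h1 := (R.valuation_le_one_iff _).2 (hj₀R d)
    exact le_antisymm h1 (not_lt.1 fun h2 => hd1 ((hW d).2 h2))
  have hle : ∀ y : N, W.valuation N y < 1 → R.valuation (y : F) < 1 := by
    intro y hy
    obtain ⟨n, d, hnd⟩ := W.exists_primeCompl_mul_eq_of_integer (K := N) y hy.le
    have hd1 := hdR d d.2
    have hn : W.valuation N (algebraMap (𝓞 N) N n) < 1 := by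
      rw [← hnd, map_mul]
      exact mul_lt_one_of_lt_of_le hy (W.valuation_le_one (K := N) (d : 𝓞 N))
    rw [W.valuation_lt_one_iff_mem, hW] at hn
    have e : ((n : N) : F) = (y : F) * (((d : 𝓞 N) : N) : F) := by
      have h2 := congrArg (fun z : N => (z : F)) hnd
      exact h2.symm
    rw [e, map_mul, hd1, mul_one] at hn
    exact hn
  have hge : ∀ y : N, (y : F) ∈ R → W.valuation N y ≤ 1 := by
    intro y hy
    by_contra h1
    rw [not_le] at h1
    have hy0 : y ≠ 0 := by
      rintro rfl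
      rw [map_zero] at h1
      exact not_lt_bot h1
    have h2 : W.valuation N y⁻¹ < 1 := by
      rw [map_inv₀]
      exact inv_lt_one_of_one_lt₀ h1
    have h3 := hle _ h2
    have e : ((y⁻¹ : N) : F) = (y : F)⁻¹ := rfl
    rw [e, map_inv₀] at h3
    have hy0' : (y : F) ≠ 0 := fun h => hy0 (Subtype.ext h)
    have h4 : 0 < R.valuation (y : F) := by
      rw [zero_lt_iff, Ne, map_eq_zero]
      exact hy0'
    have h5 : 1 < R.valuation (y : F) := (inv_lt_one₀ h4).1 h3
    exact absurd ((R.valuation_le_one_iff _).2 hy) (not_le.2 h5)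
  -- an integer close to `x`
  obtain ⟨a, ha⟩ := W.exists_valuation_sub_lt_of_integer (K := N) (hge x hx) 1
  rw [Units.val_one] at ha
  -- the Frobenius element
  obtain ⟨φ, hφ, hφ1⟩ := exists_frob (K := K) (N := N) W
  rw [hdn, ← hq] at hφ1
  have hφφ : φ * φ = 1 := by
    obtain ⟨t, ht⟩ := hd W hdn
    have h2 : Stb K W (φ * φ) := by
      intro y
      rw [AlgEquiv.mul_apply, hφ, hφ]
    rcases ht φ hφ with h | h
    · rw [h, mul_one]
    · rcases ht _ h2 with h3 | h3
      · exact h3
      · have h4 : φ = 1 := by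
          have h5 : φ * φ = φ * 1 := by rw [h3, mul_one, h]
          exact mul_left_cancel h5
        rw [h4, mul_one]
  have hkey : W.valuation N ((a : N) - (a : N) ^ (q ^ 2)) < 1 := by
    have h1 := hφ1 a
    have h2 := hφ1 (a ^ q)
    have h3 : W.valuation N (φ (φ (a : N) - (a : N) ^ q)) < 1 := by
      rw [hφ]
      exact h1
    have e1 : ((a ^ q : 𝓞 N) : N) = (a : N) ^ q := by
      exact map_pow (algebraMap (𝓞 N) N) a q
    rw [e1] at h2
    have e2 : φ (φ (a : N)) = (a : N) := by
      rw [← AlgEquiv.mul_apply, hφφ, AlgEquiv.one_apply]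
    have e : (a : N) - (a : N) ^ (q ^ 2) = φ (φ (a : N) - (a : N) ^ q) +
        (φ ((a : N) ^ q) - ((a : N) ^ q) ^ q) := by
      rw [map_sub, e2, ← pow_mul, pow_two]
      ring
    rw [e]
    exact (Valuation.map_add _ _ _).trans_lt (max_lt h3 h2)
  -- conclusion in the residue field
  have hxa : R.valuation ((x : F) - ((a : N) : F)) < 1 := by
    have h1 := hle _ ha
    have e : ((algebraMap (𝓞 N) N a - x : N) : F) = -((x : F) - ((a : N) : F)) := by
      have : ((algebraMap (𝓞 N) N a - x : N) : F) = ((a : N) : F) - (x : F) := rfl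
      rw [this]
      ring
    rwa [e, Valuation.map_neg] at h1
  have hka : R.valuation (((a : N) : F) - ((a : N) : F) ^ (q ^ 2)) < 1 := by
    have h1 := hle _ hkey
    have e : (((a : N) - (a : N) ^ (q ^ 2) : N) : F) =
        ((a : N) : F) - ((a : N) : F) ^ (q ^ 2) := by
      push_cast
      rfl
    rwa [e] at h1
  let X : R := ⟨x, hx⟩
  have hX : IsLocalRing.residue R X = IsLocalRing.residue R (j a) := by
    rw [← sub_eq_zero, ← map_sub, IsLocalRing.residue_eq_zero_iff,
      ValuationSubring.valuation_lt_one_iff]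
    exact hxa
  have hA : IsLocalRing.residue R (j a) = IsLocalRing.residue R (j a) ^ (q ^ 2) := by
    rw [← map_pow, ← sub_eq_zero, ← map_sub, IsLocalRing.residue_eq_zero_iff,
      ValuationSubring.valuation_lt_one_iff]
    exact hka
  have hfin : IsLocalRing.residue R (X ^ (q ^ 2) - X) = 0 := by
    rw [map_sub, map_pow, hX, ← hA, sub_self]
  rw [IsLocalRing.residue_eq_zero_iff, ValuationSubring.valuation_lt_one_iff] at hfin
  exact hfin

private theorem Ok_layer {K F : Type} [Field K] [NumberField K] [Field F] [Algebra K F]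
    [IsGalois K F] (x : F) :
    ∃ (N : IntermediateField K F) (_ : NumberField N), IsGalois K N ∧ x ∈ N := by
  have hxi : IsIntegral K x := Algebra.IsIntegral.isIntegral _
  have hfd : FiniteDimensional K (IntermediateField.adjoin K {x}) :=
    IntermediateField.adjoin.finiteDimensional hxi
  let N : IntermediateField K F :=
    IntermediateField.normalClosure K (IntermediateField.adjoin K {x}) F
  have hN : FiniteDimensional K N := normalClosure.is_finiteDimensional K _ F
  have hNn : Normal K N := normalClosure.normal K _ F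
  have hle : IntermediateField.adjoin K {x} ≤ N := IntermediateField.le_normalClosure _
  exact ⟨N, NumberField.of_module_finite K N, ⟨⟩, hle (IntermediateField.mem_adjoin_simple_self K x)⟩

theorem exists_vs {K F : Type} [Field K] [NumberField K] [Field F] [Algebra K F] [IsGalois K F]
    {v : HeightOneSpectrum (𝓞 K)}
    (hdec : ∀ (N : IntermediateField K F) [NumberField N], IsGalois K N → Dec2 N v) :
    ∃ R : ValuationSubring F, Finite (IsLocalRing.ResidueField R) ∧
      (∀ x : 𝓞 K, algebraMap K F (x : K) ∈ R) ∧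
      ∀ x : 𝓞 K, x ∈ v.asIdeal → R.valuation (algebraMap K F (x : K)) < 1 := by
  obtain ⟨R, hR1, hR2⟩ := Ok_base (F := F) v
  refine ⟨R, ?_, hR1, hR2⟩
  obtain ⟨q, hq⟩ : ∃ q, q = Nat.card (𝓞 K ⧸ v.asIdeal) := ⟨_, rfl⟩
  have hq1 : 1 < q := by
    have hfin : Finite (𝓞 K ⧸ v.asIdeal) := Ideal.finiteQuotientOfFreeOfNeBot v.asIdeal v.ne_bot
    have hnt : Nontrivial (𝓞 K ⧸ v.asIdeal) :=
      Ideal.Quotient.nontrivial_iff.2 v.isPrime.ne_top
    rw [hq]
    exact Finite.one_lt_card
  have hpow : ∀ z : IsLocalRing.ResidueField R, z ^ (q ^ 2) = z := by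
    intro z
    obtain ⟨x, rfl⟩ := IsLocalRing.residue_surjective z
    obtain ⟨N, hNn, hNg, hxN⟩ := Ok_layer (K := K) (x : F)
    have h1 := Ok_pow hR2 N hNg (hdec N hNg) ⟨(x : F), hxN⟩ x.2
    rw [← hq] at h1
    rw [← map_pow, ← sub_eq_zero, ← map_sub, IsLocalRing.residue_eq_zero_iff,
      ValuationSubring.valuation_lt_one_iff]
    exact h1
  have hq2 : 1 < q ^ 2 := one_lt_pow₀ hq1 two_ne_zero
  have hne : (Polynomial.X ^ (q ^ 2) - Polynomial.X :
      Polynomial (IsLocalRing.ResidueField R)) ≠ 0 :=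
    FiniteField.X_pow_card_sub_X_ne_zero _ hq2
  refine Set.finite_univ_iff.1 ((Polynomial.finite_setOfPred_isRoot hne).subset fun z _ => ?_)
  rw [Set.mem_ofPred_eq, Polynomial.IsRoot.def, Polynomial.eval_sub, Polynomial.eval_pow,
    Polynomial.eval_X, hpow, sub_self]

end H36O2
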