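import Pool.Agent.H36.O2.Ok
import Pool.Agent.H38.T1.Ga

/-!
ROW Ow (project MP_78d38b_O2, about 90 lines; uses only the statement of Ok): the torsion of the curve over `F`.

PROOF. As `tors_emb` in Pool/Agent/H73/P2/Wh.lean, with the valuation subrings `R, R'` of `exists_vs hdec`, `exists_vs hdec'` in place of the two completions: `H38T1.tors_of_two` (Pool/Agent/H38/T1/Ga.lean). For a natural number `n` prime to `l`: `R.valuation (n : F) = 1` by `Wh_Gd_valn` (private in Wh.lean: copy it) from `R.valuation (l : F) < 1`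
(third property of `R` for `x = l`). Integral coefficients: second property. Discriminant: `Δ = algebraMap (-8 * (2 * (4 A^3 + 27 B^2)))`; for `x : 𝓞 K`, `x ∉ v`, the valuation of `algebraMap K F x` is one: there is `y : 𝓞 K` with `x y - 1 ∈ v` (`v` is maximal), so `R.valuation (x y) = 1` and both are `≤ 1`.
-/

set_option autoImplicit false
set_option linter.unusedSectionVars false
open scoped Classical

open WithZero NumberField IsDedekindDomain H76PP H36CY H24PD

namespace H36O2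

private theorem Ow_val {F : Type*} [Field F] (A : ValuationSubring F) {l : ℕ} (hl : l.Prime)
    (h : A.valuation (l : F) < 1) {k : ℤ} (hk : ¬ (l : ℤ) ∣ k) : A.valuation (k : F) = 1 := by
  have hle : ∀ j : ℤ, A.valuation (j : F) ≤ 1 := fun j =>
    (A.valuation_le_one_iff _).2 (intCast_mem A j)
  refine le_antisymm (hle k) (not_lt.1 fun hlt => ?_)
  have hco : IsCoprime (l : ℤ) k := ((Nat.prime_iff_prime_int.1 hl).coprime_iff_not_dvd).2 hk
  obtain ⟨u, v, huv⟩ := hco
  have h1 : A.valuation ((u * (l : ℤ) + v * k : ℤ) : F) < 1 := by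
    rw [Int.cast_add, Int.cast_mul, Int.cast_mul, Int.cast_natCast]
    refine (A.valuation.map_add _ _).trans_lt (max_lt ?_ ?_)
    · rw [map_mul]
      exact (mul_le_of_le_one_left' (hle u)).trans_lt h
    · rw [map_mul]
      exact (mul_le_of_le_one_left' (hle v)).trans_lt hlt
  rw [huv, Int.cast_one, map_one] at h1
  exact lt_irrefl _ h1

private theorem Ow_valn {F : Type*} [Field F] (A : ValuationSubring F) {l : ℕ} (hl : l.Prime)
    (h : A.valuation (l : F) < 1) (n : ℕ) (hn : n.Coprime l) : A.valuation (n : F) = 1 := by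
  have h1 := Ow_val A hl h (k := (n : ℤ)) (fun hd => by
    have h2 : l ∣ n := Int.natCast_dvd_natCast.1 hd
    exact (Nat.Prime.coprime_iff_not_dvd hl).1 hn.symm h2)
  rwa [Int.cast_natCast] at h1

section

variable {K : Type} [Field K] [NumberField K] {F : Type} [Field F] [Algebra K F]
  {v : HeightOneSpectrum (𝓞 K)} {R : ValuationSubring F}

private lemma Ow_l (hR : ∀ x : 𝓞 K, x ∈ v.asIdeal → R.valuation (algebraMap K F (x : K)) < 1)
    {l : ℕ} (hv : (l : 𝓞 K) ∈ v.asIdeal) : R.valuation (l : F) < 1 := by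
  have e : (l : F) = algebraMap K F (algebraMap (𝓞 K) K (l : 𝓞 K)) := by
    rw [map_natCast, map_natCast]
  rw [e]
  exact hR _ hv

private lemma Ow_unit (h0 : ∀ x : 𝓞 K, algebraMap K F (x : K) ∈ R)
    (hR : ∀ x : 𝓞 K, x ∈ v.asIdeal → R.valuation (algebraMap K F (x : K)) < 1)
    {x : 𝓞 K} (hx : x ∉ v.asIdeal) : R.valuation (algebraMap K F (x : K)) = 1 := by
  have hle : ∀ y : 𝓞 K, R.valuation (algebraMap K F (y : K)) ≤ 1 := fun y =>
    (R.valuation_le_one_iff _).2 (h0 y)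
  obtain ⟨y, hy⟩ := v.isMaximal.exists_inv hx
  obtain ⟨i, hi, hyi⟩ := hy
  refine le_antisymm (hle x) (not_lt.1 fun hlt => ?_)
  have h1 : R.valuation (algebraMap K F ((y * x + i : 𝓞 K) : K)) < 1 := by
    have e : algebraMap K F ((y * x + i : 𝓞 K) : K) =
        algebraMap K F (y : K) * algebraMap K F (x : K) + algebraMap K F (i : K) := by
      rw [← map_mul, ← map_add, ← map_mul, ← map_add]
    rw [e]
    refine (R.valuation.map_add _ _).trans_lt (max_lt ?_ (hR i hi))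
    rw [map_mul]
    exact (mul_le_of_le_one_left' (hle y)).trans_lt hlt
  have e1 : algebraMap K F ((1 : 𝓞 K) : K) = 1 := by
    rw [show ((1 : 𝓞 K) : K) = 1 from map_one (algebraMap (𝓞 K) K), map_one]
  rw [hyi, e1, map_one] at h1
  exact lt_irrefl _ h1

private lemma Ow_Δ (h0 : ∀ x : 𝓞 K, algebraMap K F (x : K) ∈ R)
    (hR : ∀ x : 𝓞 K, x ∈ v.asIdeal → R.valuation (algebraMap K F (x : K)) < 1) {A B : 𝓞 K}
    (hg : 2 * (4 * A ^ 3 + 27 * B ^ 2) ∉ v.asIdeal) :
    R.valuation (⟨0, 0, 0, algebraMap K F A, algebraMap K F B⟩ : WeierstrassCurve F).Δ = 1 := by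
  have e : (⟨0, 0, 0, algebraMap K F A, algebraMap K F B⟩ : WeierstrassCurve F).Δ =
      algebraMap K F (algebraMap (𝓞 K) K (-8 * (2 * (4 * A ^ 3 + 27 * B ^ 2)))) := by
    simp only [WeierstrassCurve.Δ, WeierstrassCurve.b₂, WeierstrassCurve.b₄, WeierstrassCurve.b₆,
      WeierstrassCurve.b₈, map_mul, map_add, map_pow, map_neg, map_ofNat]
    ring
  rw [e]
  refine Ow_unit h0 hR fun hlt => ?_
  rcases v.isPrime.mem_or_mem hlt with h | h
  · have h2 : (2 : 𝓞 K) ∈ v.asIdeal := by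
      have h3 : (2 : 𝓞 K) ^ 3 ∈ v.asIdeal := by
        have h4 := v.asIdeal.neg_mem h
        have e2 : -(-8 : 𝓞 K) = 2 ^ 3 := by norm_num
        rwa [e2] at h4
      exact v.isPrime.mem_of_pow_mem 3 h3
    exact hg (v.asIdeal.mul_mem_right _ h2)
  · exact hg h

private lemma Ow_int (h0 : ∀ x : 𝓞 K, algebraMap K F (x : K) ∈ R) (A B : 𝓞 K) :
    Pool.Agent.H11.Integral R
      (⟨0, 0, 0, algebraMap K F A, algebraMap K F B⟩ : WeierstrassCurve F) :=
  ⟨zero_mem _, zero_mem _, zero_mem _, h0 A, h0 B⟩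

end

theorem tors_dec {K : Type} [Field K] [NumberField K] {A B : 𝓞 K} {F : Type} [Field F]
    [Algebra K F] [IsGalois K F] {v v' : HeightOneSpectrum (𝓞 K)} {l l' : ℕ} (hl : l.Prime)
    (hl' : l'.Prime) (hne : l ≠ l') (hv : (l : 𝓞 K) ∈ v.asIdeal) (hv' : (l' : 𝓞 K) ∈ v'.asIdeal)
    (hg : 2 * (4 * A ^ 3 + 27 * B ^ 2) ∉ v.asIdeal) (hg' : 2 * (4 * A ^ 3 + 27 * B ^ 2) ∉ v'.asIdeal)
    (hdec : ∀ (N : IntermediateField K F) [NumberField N], IsGalois K N → Dec2 N v)
    (hdec' : ∀ (N : IntermediateField K F) [NumberField N], IsGalois K N → Dec2 N v') :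
    {P : (⟨0, 0, 0, algebraMap K F A, algebraMap K F B⟩ : WeierstrassCurve F).toAffine.Point |
      ∃ n : ℕ, n ≠ 0 ∧ n • P = 0}.Finite := by
  obtain ⟨R, hf, h0, hR⟩ := exists_vs hdec
  obtain ⟨R', hf', h0', hR'⟩ := exists_vs hdec'
  have hΔ := Ow_Δ h0 hR hg
  have hΔ' := Ow_Δ h0' hR' hg'
  have hell : (⟨0, 0, 0, algebraMap K F A, algebraMap K F B⟩ : WeierstrassCurve F).IsElliptic := by
    refine ⟨isUnit_iff_ne_zero.2 fun h0 => ?_⟩
    rw [h0, map_zero] at hΔ
    exact zero_ne_one hΔ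
  exact H38T1.tors_of_two R R' hl hl' hne (Ow_valn _ hl (Ow_l hR hv))
    (Ow_valn _ hl' (Ow_l hR' hv')) (Ow_int h0 A B) hΔ (Ow_int h0' A B) hΔ'

end H36O2
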