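import Pool.Agent.H36.O2.Oh
import Pool.Agent.H36.O2.Oi
import Pool.Agent.H36.O2.Ow
import Pool.Agent.H30.ZO.Is

/-!
Assembly for the project MP_78d38b_O2: the auxiliary primes have decomposition groups of order at most two
(modification of `Pool/Agent/H30/ZO/{Ms,Gs,Is}.lean`; no row).
-/

set_option autoImplicit false
set_option linter.unusedSectionVars false
open scoped Classical

open WithZero NumberField IsDedekindDomain H38RT H76PP H36MT
open H30CY hiding main_inS main_B2 two_fin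
open H30ZO hiding main_B3 main_gen main_inf
open H38T1 (SC sc scu rep eo la si Pri OddP tp unif)

namespace H36O2

variable {K : Type} [Field K] [NumberField K]

/-- The pair is a twist of a pair with exactly one root or no root modulo `v`. -/
def TwAt (v : HeightOneSpectrum (𝓞 K)) (p : 𝓞 K × 𝓞 K) : Prop :=
  ∃ D A B : 𝓞 K, D ≠ 0 ∧ p.1 = D ^ 2 * A ∧ p.2 = D ^ 3 * B ∧
    4 * (A : K) ^ 3 + 27 * (B : K) ^ 2 ≠ 0 ∧ (∀ x : K, x ^ 3 + (A : K) * x + (B : K) ≠ 0) ∧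
    ((∃ t : 𝓞 K, t ^ 3 + A * t + B ∈ v.asIdeal ∧ ∀ s : 𝓞 K, -3 * t ^ 2 - 4 * A - s ^ 2 ∉ v.asIdeal) ∨
      ∀ t : 𝓞 K, t ^ 3 + A * t + B ∉ v.asIdeal)

/-- The decomposition groups above `v` in the finite Galois extensions inside `F` have order at most
two. -/
def DecF (F : Type) [Field F] [Algebra K F] (v : HeightOneSpectrum (𝓞 K)) : Prop :=
  ∀ (N : IntermediateField K F) [NumberField N], IsGalois K N → Dec2 N v

/-- The descent property at the auxiliary primes. -/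
theorem descAt_Tw {N : Type} [Field N] [NumberField N] [Algebra K N] [IsGalois K N] {r : ℕ}
    (hr : Module.finrank K N = 2 ^ r) {v : HeightOneSpectrum (𝓞 K)} (h6 : (6 : 𝓞 K) ∉ v.asIdeal)
    (hu : ∀ V : HeightOneSpectrum (𝓞 N), dn K V = v → ¬ H73P2.Ram K V) (hdec : Dec2 N v)
    {p : 𝓞 K × 𝓞 K} (h : TwAt v p) : H36CY.DescAt K N v (p.1 : K) (p.2 : K) := by
  have h2 : (2 : 𝓞 K) ∉ v.asIdeal := by
    intro h3
    apply h6
    have e : (6 : 𝓞 K) = 3 * 2 := by norm_num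
    rw [e]
    exact v.asIdeal.mul_mem_left _ h3
  obtain ⟨D, A, B, hD, hA, hB, hd, hirr, h3⟩ := h
  have e1 : (p.1 : K) = (D : K) ^ 2 * (A : K) := by
    rw [hA]
    push_cast
    rfl
  have e2 : (p.2 : K) = (D : K) ^ 3 * (B : K) := by
    rw [hB]
    push_cast
    rfl
  rw [e1, e2]
  rcases h3 with ⟨t, ht, hs⟩ | hn
  · exact descAt_T hr h2 hu hdec hD hirr ht hs
  · have h2' : v.valuation K (2 : K) = 1 := by
      have h4 := notMem_iff h2
      have e : ((2 : 𝓞 K) : K) = 2 := map_ofNat (algebraMap (𝓞 K) K) 2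
      rwa [e] at h4
    exact descAt_noroot hr h2' hD hd hirr hn

/-- The counting theorem: residue classes and auxiliary primes given in advance. -/
theorem main_B4 (K : Type) [Field K] [NumberField K] {S : Finset (HeightOneSpectrum (𝓞 K))}
    (hSv : ∀ v : HeightOneSpectrum (𝓞 K), (2 : 𝓞 K) ∈ v.asIdeal → v ∈ S) {e : ℕ} (he : 1 ≤ e)
    {Z : Set (HeightOneSpectrum (𝓞 K))} (hZ : Z.Infinite) {m : Ideal (𝓞 K)} (hm0 : m ≠ ⊥)
    {A₀ B₀ : 𝓞 K} (hmS : ∀ v ∈ S, m ≤ v.asIdeal ^ e ∧ dsc A₀ B₀ ∉ v.asIdeal ^ e)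
    (hm : ∀ v : HeightOneSpectrum (𝓞 K), v ∉ S → m ≤ v.asIdeal → dsc A₀ B₀ ∉ v.asIdeal) :
    ∃ (T : Finset (HeightOneSpectrum (𝓞 K))) (c X₀ : ℝ),
      (∀ v ∈ T, v ∈ Z ∧ v ∉ S ∧ (6 : 𝓞 K) ∉ v.asIdeal) ∧ 0 < c ∧ ∀ X : ℝ, X₀ ≤ X →
        ∃ G : Finset (𝓞 K × 𝓞 K),
          (∀ p ∈ G, p ∈ Bx K X ∧ p.1 - A₀ ∈ m ∧ p.2 - B₀ ∈ m ∧
            (∀ s : K →+* ℝ, 0 < s (p.1 : K)) ∧ RelG K (S ∪ T) p.1 p.2 ∧ ∀ v ∈ T, TwAt v p) ∧
          (∀ p ∈ G, ∀ q ∈ G, p.1 ^ 3 * q.2 ^ 2 = q.1 ^ 3 * p.2 ^ 2 → p = q) ∧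
          c * ((Bx K X).ncard : ℝ) ≤ (G.card : ℝ) := by
  have H : Blocks K := blocks_of_HR2 K fun h hd => hr2 h hd
  obtain ⟨m', hm'0, hm't, hm'm, hm'S, -⟩ := exists_mod hm0 S
  obtain ⟨Z', hZ'Z, hZ', hZ'm, hZr⟩ := aux_set_in K hm'0 hZ
  have hmZ : ∀ v ∈ Z', ¬ m ≤ v.asIdeal ∧ (6 : 𝓞 K) ∉ v.asIdeal := fun v hv =>
    ⟨fun h => (hZ'm v hv).1 (hm'm.trans h), (hZ'm v hv).2⟩
  have hS6 : ∀ v : HeightOneSpectrum (𝓞 K), ¬ m ≤ v.asIdeal → v ∉ S := by
    intro v hv hvS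
    exact hv ((hmS v hvS).1.trans (Ideal.pow_le_self (by omega)))
  have hS2 : ∀ v : HeightOneSpectrum (𝓞 K), v.valuation K 2 < 1 → v ∈ S := by
    intro v hv
    refine hSv v ?_
    by_contra h
    have h4 := (v.valuation_eq_one_iff_notMem (K := K) (r := (2 : 𝓞 K))).2 h
    have h5 : v.valuation K (2 : K) = 1 := by
      rw [← h4]
      congr 1
    exact absurd h5 hv.ne
  obtain ⟨q₀, T, c, X₀, hq₀, hT, hc, hmain⟩ := main_inS3 H hSv he hZ' hm0 hmZ hmS hm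
  obtain ⟨c', X₁, hc', h⟩ := count_genS H (S := S) (e := e) (q₀ := q₀) (T := T) (m' := m')
    (fun J hJ => exists_twistS hm'0 hm't hm'S (hZ'm q₀ hq₀).1 fun p hp =>
      hZr q₀ hq₀ p (hT p (hJ hp)).1 (hT p (hJ hp)).2)
    (fun p => p.1 - A₀ ∈ m ∧ p.2 - B₀ ∈ m ∧ ∀ s : K →+* ℝ, 0 < s (p.1 : K))
    (fun p => p.1 - A₀ ∈ m ∧ p.2 - B₀ ∈ m ∧
            (∀ s : K →+* ℝ, 0 < s (p.1 : K)) ∧ RelG K (S ∪ insert q₀ T) p.1 p.2 ∧
            ∀ v ∈ insert q₀ T, TwAt v p) hc hmain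
    (by
      intro p hF hP hB
      obtain ⟨J, hJ, hg⟩ := good_S2 hS2
        (fun v hv => ⟨(hT v hv).2, hS6 v (hmZ v (hT v hv).1).1, (hZ'm v (hT v hv).1).2⟩) hF hB
      refine ⟨J, hJ, fun D hDm hD => ?_⟩
      have hDm' := hm'm hDm
      obtain ⟨h1, h2, h3⟩ := hP
      refine ⟨?_, ?_, ?_, hg D hD _ Finset.subset_union_left ?_ ?_, ?_⟩
      · change D ^ 2 * p.1 - A₀ ∈ m
        have e1 : D ^ 2 * p.1 - A₀ = (p.1 - A₀) + (D - 1) * ((D + 1) * p.1) := by ring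
        rw [e1]
        exact m.add_mem h1 (m.mul_mem_right _ hDm')
      · change D ^ 3 * p.2 - B₀ ∈ m
        have e1 : D ^ 3 * p.2 - B₀ = (p.2 - B₀) + (D - 1) * ((D ^ 2 + D + 1) * p.2) := by ring
        rw [e1]
        exact m.add_mem h2 (m.mul_mem_right _ hDm')
      · intro s
        change 0 < s ((D ^ 2 * p.1 : 𝓞 K) : K)
        have e1 : ((D ^ 2 * p.1 : 𝓞 K) : K) = (D : K) ^ 2 * (p.1 : K) := by push_cast; rfl
        rw [e1, map_mul, map_pow]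
        exact mul_pos (pow_pos (hD.pos s) 2) (h3 s)
      · exact (Finset.subset_insert _ _).trans Finset.subset_union_right
      · exact Finset.mem_union_right _ (Finset.mem_insert_self _ _)
      · intro v hv
        refine ⟨D, p.1, p.2, fun h0 => hD.ne (by rw [h0]; exact map_zero (algebraMap (𝓞 K) K)), rfl,
          rfl, hF.dsc_ne, fun t => hF.no_root t, ?_⟩
        rw [Finset.mem_insert] at hv
        rcases hv with hv | hv
        · rw [hv]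
          exact Or.inr hF.irr
        · exact Or.inl (hF.typ v hv))
  refine ⟨insert q₀ T, c', X₁, fun v hv => ?_, hc', h⟩
  have hv' : v ∈ Z' := by
    rw [Finset.mem_insert] at hv
    rcases hv with h | h
    · rw [h]
      exact hq₀
    · exact (hT v h).1
  exact ⟨hZ'Z hv', hS6 v (hmZ v hv').1, (hZ'm v hv').2⟩

/-- `N / K` is a Galois extension whose degree is a power of two, every ramified prime lies above `S` or
`R`, the primes of `T` are unramified with decomposition groups of order at most two, and the local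
conditions above `S` descend in the quadratic extensions between `K` and `N`. -/
structure AdmG4 (K : Type) (N : Type) [Field K] [NumberField K] [Field N] [NumberField N]
    [Algebra K N] (S R T : Finset (HeightOneSpectrum (𝓞 K))) (a b : K) : Prop where
  gal : IsGalois K N
  two : ∃ r : ℕ, Module.finrank K N = 2 ^ r
  ram : ∀ V : HeightOneSpectrum (𝓞 N), dn K V ∉ S → H73P2.Ram K V → dn K V ∈ R
  dec : ∀ v ∈ T, (∀ V : HeightOneSpectrum (𝓞 N), dn K V = v → ¬ H73P2.Ram K V) ∧ Dec2 N v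
  desc : ∀ v ∈ S, H36CY.DescAt K N v a b

/-- The general theorem. -/
theorem main_gen4 (K : Type) [Field K] [NumberField K] {S R : Finset (HeightOneSpectrum (𝓞 K))}
    (hSv : ∀ v : HeightOneSpectrum (𝓞 K), (2 : 𝓞 K) ∈ v.asIdeal → v ∈ S)
    (hR : ∀ v ∈ R, v ∉ S) {Z : Set (HeightOneSpectrum (𝓞 K))}
    (hZ : Z.Infinite) (e : HeightOneSpectrum (𝓞 K) → ℕ) (Av Bv : HeightOneSpectrum (𝓞 K) → 𝓞 K)
    (hcl : ∀ v ∈ S, dsc (Av v) (Bv v) ∉ v.asIdeal ^ e v) :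
    ∃ (T : Finset (HeightOneSpectrum (𝓞 K))) (c X₀ : ℝ),
      (∀ v ∈ T, v ∈ Z) ∧ 0 < c ∧ ∀ X : ℝ, X₀ ≤ X → ∃ G : Finset (𝓞 K × 𝓞 K),
        (∀ p ∈ G, p ∈ Bx K X ∧ 4 * p.1 ^ 3 + 27 * p.2 ^ 2 ≠ 0 ∧
          (∀ v ∈ S, p.1 - Av v ∈ v.asIdeal ^ e v ∧ p.2 - Bv v ∈ v.asIdeal ^ e v) ∧
          ∀ (N : Type) [Field N] [NumberField N] [Algebra K N],
            AdmG4 K N S R T (p.1 : K) (p.2 : K) → ∀ (M : Type) [Field M] [NumberField M]
            [Algebra K M] [Algebra M N] [IsScalarTower K M N],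
            Tv M (algebraMap K M p.1) (algebraMap K M p.2)) ∧
        (∀ p ∈ G, ∀ q ∈ G, p.1 ^ 3 * q.2 ^ 2 = q.1 ^ 3 * p.2 ^ 2 → p = q) ∧
        c * ((Bx K X).ncard : ℝ) ≤ (G.card : ℝ) := by
  obtain ⟨m, E, A₀, B₀, hm0, hE, hmS, hm, hclass⟩ :=
    exists_cls hSv hR e Av Bv hcl
  obtain ⟨T, c, X₀, hT, hc, h⟩ := main_B4 K hSv hE hZ hm0 hmS hm
  refine ⟨T, c, X₀, fun v hv => (hT v hv).1, hc, fun X hX => ?_⟩
  obtain ⟨G, hG, hj, hcard⟩ := h X hX
  refine ⟨G, fun p hp => ?_, hj, hcard⟩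
  obtain ⟨hB, h1, h2, hpos, hrel, htw⟩ := hG p hp
  obtain ⟨hc1, hc2⟩ := hclass p.1 p.2 h1 h2
  refine ⟨hB, hrel.ne, hc1, ?_⟩
  intro N _ _ _ hN M _ _ _ _ _
  have _ := hN.gal
  obtain ⟨r, hr⟩ := hN.two
  have hd : 4 * (p.1 : K) ^ 3 + 27 * (p.2 : K) ^ 2 ≠ 0 := by
    rw [← dsc_coe]
    intro h0
    apply hrel.ne
    apply RingOfIntegers.coe_injective
    rw [map_zero]
    exact h0
  have _ : FiniteDimensional K N := Module.Finite.of_restrictScalars_finite ℚ K N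
  have hnr := H73P2.noroot (K := K) (N := N) (k := M) hr hrel.irr
  obtain ⟨L, _, _, _, θ, hL⟩ := H24PD.exists_cub (K := M) hnr
  have hdes := H24PD.descent hL (H73ZO.selS_mid (K := K) (N := N) ordSub hr (Sg := S ∪ T) (S := ∅)
    (fun v hv => Finset.mem_union_left _ (hSv v (H30ZO.two_mem_iff.1 hv))) hd
    (fun v hv _ => hrel.nice v hv) (fun v hv => absurd hv (Finset.notMem_empty v)) ?_ ?_ ?_ ?_
    M L θ hL)
  · exact ⟨hdes.1, tors_of_noroot hnr, hdes.2⟩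
  · intro s
    left
    rw [map_add, map_mul, map_mul, map_pow, map_pow, map_ofNat, map_ofNat]
    have h1 := hpos s
    positivity
  · intro V hVST _ hV
    have hVS : dn K V ∉ S := fun h => hVST (Finset.mem_union_left _ h)
    have h1 := H30PN.noroot_of (D := (1 : K)) one_ne_zero (hc2 _ (hN.ram V hVS hV)) (by
      have : ord ((dn K V).valuation K) (1 : K) = 0 := by
        unfold ord
        rw [map_one]
        simp
      rw [this]
      exact Even.zero)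
    rw [one_pow, one_pow, one_mul, one_mul] at h1
    exact h1
  · intro v hv
    rcases Finset.mem_union.1 hv with h | h
    · exact hN.desc v h
    · exact descAt_Tw hr (hT v h).2.2 (hN.dec v h).1 (hN.dec v h).2 (htw v h)
  · intro L _ _ _ θ hL
    refine H73ZO.relST_of ?_
    rw [Finset.union_empty]
    exact hrel.rel L θ hL

/-- The theorem for a finite or infinite extension `F / K` with infinitely many primes with decomposition
groups of order at most two,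
given the local data at the primes of `S`. -/
theorem main_inf4 (K F : Type) [Field K] [NumberField K] [Field F] [Algebra K F] [IsGalois K F]
    (hdeg : ∀ (N : IntermediateField K F) [NumberField N], IsGalois K N →
      ∃ r : ℕ, Module.finrank K N = 2 ^ r)
    (hram : {v : HeightOneSpectrum (𝓞 K) | ∃ (N : IntermediateField K F) (_ : NumberField N)
      (V : HeightOneSpectrum (𝓞 N)), dn K V = v ∧ H73P2.Ram K V}.Finite)
    (hdec : {v : HeightOneSpectrum (𝓞 K) | DecF F v}.Infinite)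
    {S : Finset (HeightOneSpectrum (𝓞 K))}
    (hSv : ∀ v : HeightOneSpectrum (𝓞 K), (2 : 𝓞 K) ∈ v.asIdeal → v ∈ S)
    (e : HeightOneSpectrum (𝓞 K) → ℕ) (A₀ B₀ : HeightOneSpectrum (𝓞 K) → 𝓞 K)
    (hcl : ∀ v ∈ S, dsc (A₀ v) (B₀ v) ∉ v.asIdeal ^ e v)
    (hloc : ∀ v ∈ S, ∀ A B : 𝓞 K, A - A₀ v ∈ v.asIdeal ^ e v → B - B₀ v ∈ v.asIdeal ^ e v →
        ∀ (N : IntermediateField K F) [NumberField N], IsGalois K N →
          H36CY.DescAt K N v (A : K) (B : K)) :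
    ∃ (c X₀ : ℝ), 0 < c ∧ ∀ X : ℝ, X₀ ≤ X → ∃ G : Finset (𝓞 K × 𝓞 K),
      (∀ p ∈ G, p ∈ Bx K X ∧ 4 * p.1 ^ 3 + 27 * p.2 ^ 2 ≠ 0 ∧
        (∀ v ∈ S, p.1 - A₀ v ∈ v.asIdeal ^ e v ∧ p.2 - B₀ v ∈ v.asIdeal ^ e v) ∧
        Finite (⟨0, 0, 0, algebraMap K F p.1, algebraMap K F p.2⟩ :
          WeierstrassCurve F).toAffine.Point ∧ PF K F p) ∧
      (∀ p ∈ G, ∀ q ∈ G, p.1 ^ 3 * q.2 ^ 2 = q.1 ^ 3 * p.2 ^ 2 → p = q) ∧
      c * ((Bx K X).ncard : ℝ) ≤ (G.card : ℝ) := by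
  obtain ⟨R, hR⟩ : ∃ R : Finset (HeightOneSpectrum (𝓞 K)), ∀ v, v ∈ R ↔
      ((∃ (N : IntermediateField K F) (_ : NumberField N)
      (V : HeightOneSpectrum (𝓞 N)), dn K V = v ∧ H73P2.Ram K V) ∧ v ∉ S) := by
    refine ⟨hram.toFinset.filter fun v => v ∉ S, fun v => ?_⟩
    rw [Finset.mem_filter, Set.Finite.mem_toFinset]
    rfl
  have hspl := hdec.sdiff hram
  obtain ⟨T, c, X₀, hT, hc, h⟩ := main_gen4 K hSv (fun v hv => ((hR v).1 hv).2) hspl e A₀ B₀ hcl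
  refine ⟨c, X₀, hc, fun X hX => ?_⟩
  obtain ⟨G, hG, hj, hcard⟩ := h X hX
  refine ⟨G, fun p hp => ?_, hj, hcard⟩
  obtain ⟨hB, hne, hpc, hall⟩ := hG p hp
  have hM : PF K F p := by
    intro M _
    obtain ⟨N, _, hNg, hMN, -⟩ := exists_big M (∅ : Finset ℕ) (fun _ => ⊥)
      fun v hv => absurd hv (Finset.notMem_empty v)
    let _ : Algebra M N := (IntermediateField.inclusion hMN).toRingHom.toAlgebra
    have _ : IsScalarTower K M N := IsScalarTower.of_algebraMap_eq fun _ => rfl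
    refine hall N ⟨hNg, hdeg N hNg, ?_, ?_, ?_⟩ M
    · intro V h2 hV
      exact (hR _).2 ⟨⟨N, inferInstance, V, rfl, hV⟩, h2⟩
    · intro v hv
      exact ⟨fun V hV hr => (hT v hv).2 ⟨N, inferInstance, V, hV, hr⟩, (hT v hv).1 N hNg⟩
    · intro v hv
      obtain ⟨h1, h2⟩ := hpc v hv
      exact hloc v hv p.1 p.2 h1 h2 N hNg
  refine ⟨hB, hne, hpc, ?_, hM⟩
  obtain ⟨l, l', v, v', hd, hd', hl, hl', hll, hv, hv', hg, hg'⟩ := exists_two_in hdec hne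
  exact fin_any (fun M _ => (hM M).1) (tors_dec hl hl' hll hv hv' hg hg' hd hd')


end H36O2
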