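import Pool.Agent.H36.O2.Df
import Mathlib.RingTheory.Frobenius

/-!
ROW Or (project MP_78d38b_O2, about 110 lines): Frobenius elements in the decomposition group.

PROOF. Mathlib: `IsArithFrobAt.exists_of_isInvariant` (`Mathlib/RingTheory/Frobenius.lean`) for `R := 𝓞 K`, `S := 𝓞 N`, `Q := W.asIdeal` and the group `G := N ≃ₐ[K] N` acting on `𝓞 N` (there is an action of the Galois group on the ring of integers, `NumberField.RingOfIntegers` instances / `MulSemiringAction (K ≃ₐ[F] K) (𝓞 K)`, and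
`Algebra.IsInvariant (𝓞 K) (𝓞 N) (N ≃ₐ[K] N)` or `IsGaloisGroup` for `IsGalois K N`; otherwise take the group `𝓞 N ≃ₐ[𝓞 K] 𝓞 N` and extend the automorphisms to the fraction field with `galRestrict`). It gives `φ` with `φ x - x ^ q ∈ W` for `x : 𝓞 N` (`q = Nat.card (𝓞 K ⧸ W ∩ 𝓞 K)`, and `W ∩ 𝓞 K = (dn K W).asIdeal`
by definition or `rfl`/`Ideal.under_def`), `W.valuation_lt_one_iff_mem`. `mem_stabilizer`: `φ • W = W`.
`Stb K W φ`: for `x : 𝓞 N` and `n`, `x ∈ W ^ n ↔ φ x ∈ W ^ n` (`Ideal.map_pow` / `Ideal.comap` of an automorphism which maps `W` onto `W`), and the valuation on `𝓞 N` is determined by the membership in the powers (`HeightOneSpectrum.valuation_le_pow_iff_mem` or `intValuation_le_pow_iff_mem`), and extends to quotients (`IsFractionRing.div_surjective`).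
A similar argument (valuations of conjugate primes) is in Pool/Agent/H10/StarGal.lean `exists_conj` and in Pool/Agent/H36/CY/De.lean.
-/

set_option autoImplicit false
set_option linter.unusedSectionVars false
open scoped Classical

open WithZero NumberField IsDedekindDomain H76PP H36CY H24PD

namespace H36O2

private lemma Or_stb {K N : Type} [Field K] [NumberField K] [Field N] [NumberField N] [Algebra K N]
    (W : HeightOneSpectrum (𝓞 N)) (φ : N ≃ₐ[K] N)
    (h : ∀ x : 𝓞 N, x ∈ W.asIdeal ↔ galRestrict (𝓞 K) K N (𝓞 N) φ x ∈ W.asIdeal) : Stb K W φ := by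
  let s := galRestrict (𝓞 K) K N (𝓞 N) φ
  have hs : ∀ x : 𝓞 N, algebraMap (𝓞 N) N (s x) = φ (algebraMap (𝓞 N) N x) :=
    fun x => algebraMap_galRestrict_apply (𝓞 K) φ x
  have hcm : W.asIdeal = W.asIdeal.comap (s : 𝓞 N →+* 𝓞 N) := by
    ext x
    rw [Ideal.mem_comap]
    exact h x
  have hpow : ∀ (x : 𝓞 N) (n : ℕ), x ∈ W.asIdeal ^ n ↔ s x ∈ W.asIdeal ^ n := by
    intro x n
    have e1 : W.asIdeal = W.asIdeal.map (s.symm.toRingEquiv : 𝓞 N →+* 𝓞 N) := by
      refine hcm.trans ?_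
      exact (Ideal.map_symm (I := W.asIdeal) s.toRingEquiv).symm
    have e2 : W.asIdeal ^ n = (W.asIdeal ^ n).comap (s : 𝓞 N →+* 𝓞 N) := by
      have e3 : W.asIdeal ^ n = (W.asIdeal.map (s.symm.toRingEquiv : 𝓞 N →+* 𝓞 N)) ^ n := by
        rw [← e1]
      refine e3.trans ?_
      rw [← Ideal.map_pow]
      exact Ideal.map_symm (I := W.asIdeal ^ n) s.toRingEquiv
    constructor
    · intro hx
      rw [e2, Ideal.mem_comap] at hx
      exact hx
    · intro hx
      rw [e2, Ideal.mem_comap]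
      exact hx
  have hint : ∀ x : 𝓞 N, W.intValuation (s x) = W.intValuation x := by
    intro x
    by_cases hx : x = 0
    · rw [hx, map_zero]
    · have hsx : s x ≠ 0 := by
        intro h
        apply hx
        rw [← s.symm_apply_apply x, h, map_zero]
      apply le_antisymm
      · rw [W.intValuation_eq_exp_neg_multiplicity hx, HeightOneSpectrum.intValuation_le_pow_iff_mem, ← hpow,
          ← HeightOneSpectrum.intValuation_le_pow_iff_mem, W.intValuation_eq_exp_neg_multiplicity hx]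
      · rw [W.intValuation_eq_exp_neg_multiplicity hsx, HeightOneSpectrum.intValuation_le_pow_iff_mem, hpow,
          ← HeightOneSpectrum.intValuation_le_pow_iff_mem, W.intValuation_eq_exp_neg_multiplicity hsx]
  intro x
  obtain ⟨a, b, hb, rfl⟩ := IsFractionRing.div_surjective (A := 𝓞 N) x
  rw [map_div₀, ← hs, ← hs, map_div₀, map_div₀, W.valuation_of_algebraMap,
    W.valuation_of_algebraMap, W.valuation_of_algebraMap, W.valuation_of_algebraMap, hint, hint]

theorem exists_frob {K N : Type} [Field K] [NumberField K] [Field N] [NumberField N] [Algebra K N]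
    [IsGalois K N] (W : HeightOneSpectrum (𝓞 N)) :
    ∃ φ : N ≃ₐ[K] N, Stb K W φ ∧ ∀ x : 𝓞 N,
      W.valuation N (φ (x : N) - (x : N) ^ Nat.card (𝓞 K ⧸ (dn K W).asIdeal)) < 1 := by
  haveI : Algebra.IsInvariant (𝓞 K) (𝓞 N) (𝓞 N ≃ₐ[𝓞 K] 𝓞 N) :=
    Algebra.isInvariant_of_isGalois' (𝓞 K) K N (𝓞 N)
  haveI : Finite (𝓞 N ≃ₐ[𝓞 K] 𝓞 N) :=
    Finite.of_equiv _ (galRestrict (𝓞 K) K N (𝓞 N)).toEquiv
  haveI : W.asIdeal.IsPrime := W.isPrime
  haveI : Finite (𝓞 N ⧸ W.asIdeal) := Ring.HasFiniteQuotients.finiteQuotient W.ne_bot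
  obtain ⟨σ, hσ⟩ := IsArithFrobAt.exists_of_isInvariant (𝓞 K) (𝓞 N ≃ₐ[𝓞 K] 𝓞 N) W.asIdeal
  have hσ' : ∀ x : 𝓞 N, σ x - x ^ Nat.card (𝓞 K ⧸ W.asIdeal.under (𝓞 K)) ∈ W.asIdeal := hσ
  have hgs : galRestrict (𝓞 K) K N (𝓞 N) ((galRestrict (𝓞 K) K N (𝓞 N)).symm σ) = σ :=
    (galRestrict (𝓞 K) K N (𝓞 N)).apply_symm_apply σ
  have hmem : ∀ x : 𝓞 N, x ∈ W.asIdeal ↔ σ x ∈ W.asIdeal := by
    intro x
    have h1 := AlgHom.IsArithFrobAt.comap_eq hσ
    constructor
    · intro hx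
      rw [← h1] at hx
      exact hx
    · intro hx
      rw [← h1]
      exact hx
  refine ⟨(galRestrict (𝓞 K) K N (𝓞 N)).symm σ, ?_, ?_⟩
  · apply Or_stb
    intro x
    rw [hgs]
    exact hmem x
  · intro x
    have h1 : ((galRestrict (𝓞 K) K N (𝓞 N)).symm σ) (x : N) = ((σ x : 𝓞 N) : N) := by
      have h2 := algebraMap_galRestrict_apply (𝓞 K) ((galRestrict (𝓞 K) K N (𝓞 N)).symm σ) x
      rw [hgs] at h2
      exact h2.symm
    rw [h1]
    have h3 : ((σ x : 𝓞 N) : N) - (x : N) ^ Nat.card (𝓞 K ⧸ (dn K W).asIdeal) =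
        algebraMap (𝓞 N) N (σ x - x ^ Nat.card (𝓞 K ⧸ W.asIdeal.under (𝓞 K))) := by
      rw [map_sub, map_pow]
      rfl
    rw [h3, W.valuation_lt_one_iff_mem]
    exact hσ' x

end H36O2
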