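import Pool.Agent.H36.O2.Fi

/-!
Let `F / K` be a finite or infinite Galois extension of a number field `K` with finite layers of
two-power degree, ramified at finitely many primes, such that `F / K` is finite or infinitely many
primes have decomposition groups of order at most two.  A pair `(A, B)` is good if over all number fields `M` between `K` and `F` the
elliptic curve `E : y² = x³ + A x + B` has a finite group of points of odd order and trivial
two-primary part of the Tate-Shafarevich group.  Every residue class of pairs contains no good pair or a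
positive proportion of good pairs, and there is a good pair in the class if and only if there are local
ones at the primes which divide two or the modulus.
-/

set_option autoImplicit false
open scoped Classical

namespace Pool.Agent.Results.MP_78d38b_nt.ZeroOneLaw

open NumberField WeierstrassCurve IsDedekindDomain Pool.Agent.H10

/-- The pairs `(A, B)` of algebraic integers of `K` of height at most `X`: the absolute values of all
complex conjugates of `A` are at most `X²` and those of `B` are at most `X³`. -/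
def Box (K : Type) [Field K] [NumberField K] (X : ℝ) : Set (𝓞 K × 𝓞 K) :=
  {p | ∀ s : K →+* ℂ, ‖s (p.1 : K)‖ ≤ X ^ 2 ∧ ‖s (p.2 : K)‖ ≤ X ^ 3}

variable {K : Type} [Field K] [NumberField K]

/-- The curve `E : y² = x³ + A x + B` over the extension `M` of `K`, where `p = (A, B)`. -/
def curve (p : 𝓞 K × 𝓞 K) (M : Type) [Field M] [Algebra K M] : WeierstrassCurve M :=
  ⟨0, 0, 0, algebraMap K M p.1, algebraMap K M p.2⟩

/-- `E` is an elliptic curve, and for all number fields `M` between `K` and `F` the group `E(M)` is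
finite of odd order and the Tate-Shafarevich group of `E` over `M` has no nontrivial element of
two-power order. -/
def Good (F : Type) [Field F] [Algebra K F] (p : 𝓞 K × 𝓞 K) : Prop :=
  4 * p.1 ^ 3 + 27 * p.2 ^ 2 ≠ 0 ∧ ∀ (M : IntermediateField K F) [NumberField M],
    Finite (curve p M).toAffine.Point ∧ Odd (Nat.card (curve p M).toAffine.Point) ∧
      Sha2Trivial M (curve p M)

/-- A positive proportion of all pairs, with pairwise different `j`-invariants, are good, satisfy
`S` and have finitely many points over `F`. -/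
def PosProp (F : Type) [Field F] [Algebra K F] (S : 𝓞 K × 𝓞 K → Prop) : Prop :=
  ∃ c X₀ : ℝ, 0 < c ∧ ∀ X : ℝ, X₀ ≤ X → (Box K X).Finite ∧
    ∃ G : Finset (𝓞 K × 𝓞 K), c * ((Box K X).ncard : ℝ) ≤ (G.card : ℝ) ∧
      (∀ p ∈ G, p ∈ Box K X ∧ S p ∧ Good F p ∧ Finite (curve p F).toAffine.Point) ∧
      ∀ p ∈ G, ∀ q ∈ G, p ≠ q → p.1 ^ 3 * q.2 ^ 2 ≠ q.1 ^ 3 * p.2 ^ 2

/-- The cocycle `f` of the Galois group of `k` in `W` becomes a coboundary over the extension `L`
of `k`. -/
def TrivialOver (k L : Type) [Field k] [NumberField k] [Field L] [Algebra k L]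
    (W : WeierstrassCurve k) (f : (AlgebraicClosure k ≃ₐ[k] AlgebraicClosure k) →
      (W.baseChange (AlgebraicClosure k)).toAffine.Point) : Prop :=
  ∀ ι : AlgebraicClosure k →ₐ[k] AlgebraicClosure L,
    ∃ P : (W.baseChange (AlgebraicClosure L)).toAffine.Point,
    ∀ τ : AlgebraicClosure L ≃ₐ[L] AlgebraicClosure L,
    ∀ σ : AlgebraicClosure k ≃ₐ[k] AlgebraicClosure k,
      (τ.toAlgHom.restrictScalars k).comp ι = ι.comp σ.toAlgHom →
      (WeierstrassCurve.Affine.Point.map ι :
        (W.baseChange (AlgebraicClosure k)).toAffine.Point →+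
          (W.baseChange (AlgebraicClosure L)).toAffine.Point) (f σ) =
        (WeierstrassCurve.Affine.Point.map (τ.toAlgHom.restrictScalars k) :
          (W.baseChange (AlgebraicClosure L)).toAffine.Point →+
            (W.baseChange (AlgebraicClosure L)).toAffine.Point) P - P

/-- The completion of `k'` at `w` as an extension of the subfield `k` of `k'`. -/
noncomputable abbrev compl (k k' : Type) [Field k] [Field k'] [NumberField k'] [Algebra k k']
    (w : HeightOneSpectrum (𝓞 k')) : Algebra k (w.adicCompletion k') :=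
  ((algebraMap k' (w.adicCompletion k')).comp (algebraMap k k')).toAlgebra

/-- The local condition at the prime `v` of `K`: `x³ + A x + B` is irreducible over `K`, and for all
number fields `k ≤ k'` between `K` and `F` with `[k' : k] = 2`, every class of `H¹(k, E)` killed by two
which is trivial over the completions of `k'` at all the places above `v` is trivial over the completions
of `k` at all the places above `v`. -/
def Loc (F : Type) [Field F] [Algebra K F] (v : HeightOneSpectrum (𝓞 K)) (p : 𝓞 K × 𝓞 K) : Prop :=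
  (∀ t : K, t ^ 3 + (p.1 : K) * t + (p.2 : K) ≠ 0) ∧
  ∀ (k k' : Type) [Field k] [NumberField k] [Field k'] [NumberField k'] [Algebra K k] [Algebra K k']
    [Algebra k k'] [IsScalarTower K k k'] [Algebra k' F] [IsScalarTower K k' F],
    Module.finrank k k' = 2 → ∀ f : (AlgebraicClosure k ≃ₐ[k] AlgebraicClosure k) →
      ((curve p k).baseChange (AlgebraicClosure k)).toAffine.Point,
    IsCocycle k (curve p k) f → IsCobound k (curve p k) (fun σ => 2 • f σ) →
    (∀ w : HeightOneSpectrum (𝓞 k'), w.asIdeal.under (𝓞 K) = v.asIdeal →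
      @TrivialOver k (w.adicCompletion k') _ _ _ (compl k k' w) (curve p k) f) →
    ∀ u : HeightOneSpectrum (𝓞 k), u.asIdeal.under (𝓞 K) = v.asIdeal →
      TrivialOver k (u.adicCompletion k) (curve p k) f

/-- The automorphism `g` of `N / K` lies in the decomposition group of the prime `W` of `N`: it
preserves the valuation at `W`. -/
def InDec {N : Type} [Field N] [NumberField N] [Algebra K N] (W : HeightOneSpectrum (𝓞 N))
    (g : N ≃ₐ[K] N) : Prop :=
  ∀ x : N, W.valuation N (g x) = W.valuation N x

/-- The decomposition groups of the primes above `v` in the finite Galois extensions `N / K` inside `F`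
are cyclic. -/
def Cyclic (F : Type) [Field F] [Algebra K F] (v : HeightOneSpectrum (𝓞 K)) : Prop :=
  ∀ (N : IntermediateField K F) [NumberField N], IsGalois K N →
    ∀ W : HeightOneSpectrum (𝓞 N), W.asIdeal.under (𝓞 K) = v.asIdeal →
      ∃ t : N ≃ₐ[K] N, ∀ g : N ≃ₐ[K] N, InDec W g ↔ g ∈ Subgroup.zpowers t

variable (K) in
/-- The primes of `K` which are ramified in some number field between `K` and `F`. -/
def Ramified (F : Type) [Field F] [Algebra K F] : Set (HeightOneSpectrum (𝓞 K)) :=
  {v | ∃ (N : IntermediateField K F) (_ : NumberField N) (V : HeightOneSpectrum (𝓞 N)),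
    V.asIdeal.under (𝓞 K) = v.asIdeal ∧ v.asIdeal.map (algebraMap (𝓞 K) (𝓞 N)) ≤ V.asIdeal ^ 2}

variable (K) in
/-- The primes of `K` whose decomposition groups in the finite Galois extensions `N / K` inside `F` have
order at most two. -/
def Small (F : Type) [Field F] [Algebra K F] : Set (HeightOneSpectrum (𝓞 K)) :=
  {v | ∀ (N : IntermediateField K F) [NumberField N], IsGalois K N →
    ∀ W : HeightOneSpectrum (𝓞 N), W.asIdeal.under (𝓞 K) = v.asIdeal →
      ∃ t : N ≃ₐ[K] N, ∀ g : N ≃ₐ[K] N, InDec W g → g = 1 ∨ g = t}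

/-- `F / K` is a Galois extension, finite or infinite, the finite Galois extensions `N / K` inside `F`
have two-power degree, only finitely many primes of `K` are ramified in `F`, and `F / K` is finite or
infinitely many primes of `K` have decomposition groups of order at most two. -/
structure Adm (K F : Type) [Field K] [NumberField K] [Field F] [Algebra K F] : Prop where
  gal : IsGalois K F
  deg : ∀ (N : IntermediateField K F) [NumberField N], IsGalois K N →
    ∃ r : ℕ, Module.finrank K N = 2 ^ r
  ram : (Ramified K F).Finite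
  dec : FiniteDimensional K F ∨ (Small K F).Infinite

/-- The pairs `p` and `q` are congruent modulo `m`. -/
def Cong (m : Ideal (𝓞 K)) (q p : 𝓞 K × 𝓞 K) : Prop := p.1 - q.1 ∈ m ∧ p.2 - q.2 ∈ m

/-- The prime `v` is exempt for the class of `q` modulo `m`: it does not divide `m` and its
decomposition groups in `F / K` are cyclic, or it does not divide `2` and either it is unramified in `F`
and does not divide the discriminant of `q`, or the polynomial of `q` has no root modulo `v`. -/
def Exempt (F : Type) [Field F] [Algebra K F] (m : Ideal (𝓞 K)) (q : 𝓞 K × 𝓞 K)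
    (v : HeightOneSpectrum (𝓞 K)) : Prop :=
  (¬ m ≤ v.asIdeal ∧ Cyclic F v) ∨ ((2 : 𝓞 K) ∉ v.asIdeal ∧
    ((v ∉ Ramified K F ∧ 4 * q.1 ^ 3 + 27 * q.2 ^ 2 ∉ v.asIdeal) ∨
      ∀ t : 𝓞 K, t ^ 3 + q.1 * t + q.2 ∉ v.asIdeal))

/-- Finite abelian groups of odd order. -/
private theorem odd_iff {G : Type} [AddCommGroup G] [Finite G] :
    Odd (Nat.card G) ↔ ∀ P : G, P + P = 0 → P = 0 := by
  constructor
  · intro h P hP
    have h1 : addOrderOf P ∣ 2 := addOrderOf_dvd_of_nsmul_eq_zero (by rw [two_nsmul, hP])
    rcases (Nat.dvd_prime Nat.prime_two).1 h1 with h2 | h2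
    · exact AddMonoid.addOrderOf_eq_one_iff.1 h2
    · exfalso
      have h3 := addOrderOf_dvd_natCard P
      rw [h2] at h3
      exact (Nat.not_even_iff_odd.2 h) (even_iff_two_dvd.2 h3)
  · intro h
    rw [← Nat.not_even_iff_odd, even_iff_two_dvd]
    intro h2
    obtain ⟨P, hP⟩ := exists_prime_addOrderOf_dvd_card' 2 h2
    have h3 : P + P = 0 := by
      rw [← two_nsmul, ← hP]
      exact addOrderOf_nsmul_eq_zero P
    rw [h P h3, addOrderOf_zero] at hP
    norm_num at hP

private theorem tv_iff {M : Type} [Field M] [NumberField M] {a b : M} :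
    (Finite (⟨0, 0, 0, a, b⟩ : WeierstrassCurve M).toAffine.Point ∧
      Odd (Nat.card (⟨0, 0, 0, a, b⟩ : WeierstrassCurve M).toAffine.Point) ∧
      Sha2Trivial M (⟨0, 0, 0, a, b⟩ : WeierstrassCurve M)) ↔ H30ZO.Tv M a b := by
  constructor
  · rintro ⟨h1, h2, h3⟩
    exact ⟨h1, odd_iff.1 h2, h3⟩
  · rintro ⟨h1, h2, h3⟩
    exact ⟨h1, (@odd_iff _ _ h1).2 h2, h3⟩

private theorem good_iff {F : Type} [Field F] [Algebra K F] {p : 𝓞 K × 𝓞 K} :
    Good F p ↔ H36ZO.Gd K F p :=
  and_congr Iff.rfl (forall_congr' fun _ => forall_congr' fun _ => tv_iff)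

private theorem posProp_iff {F : Type} [Field F] [Algebra K F] {S : 𝓞 K × 𝓞 K → Prop} :
    PosProp F S ↔ H36ZO.PosP K F S := by
  have hbox : ∀ X : ℝ, Box K X = H76PP.Bx K X := by
    intro X
    ext p
    exact ⟨fun h => ⟨fun s => (h s).1, fun s => (h s).2⟩, fun h s => ⟨h.1 s, h.2 s⟩⟩
  refine exists_congr fun c => exists_congr fun X₀ => and_congr Iff.rfl
    (forall_congr' fun X => imp_congr Iff.rfl ?_)
  rw [hbox X]
  constructor
  · rintro ⟨-, G, h1, h2, h3⟩
    refine ⟨G, fun p hp => ⟨(h2 p hp).1, (h2 p hp).2.1, good_iff.1 (h2 p hp).2.2.1,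
      (h2 p hp).2.2.2⟩, fun p hp q hq h => ?_, h1⟩
    by_contra hne
    exact h3 p hp q hq hne h
  · rintro ⟨G, h2, h3, h1⟩
    exact ⟨H76PP.Bx_fin K X, G, h1, fun p hp => ⟨(h2 p hp).1, (h2 p hp).2.1,
      good_iff.2 (h2 p hp).2.2.1, (h2 p hp).2.2.2⟩, fun p hp q hq hne h => hne (h3 p hp q hq h)⟩

omit [NumberField K] in
private theorem under_iff {L : Type} [Field L] [NumberField L] [Algebra K L]
    {v : HeightOneSpectrum (𝓞 K)} {w : HeightOneSpectrum (𝓞 L)} :
    w.asIdeal.under (𝓞 K) = v.asIdeal ↔ H76PP.dn K w = v :=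
  ⟨fun h => HeightOneSpectrum.ext h, fun h => by rw [← h]; rfl⟩

private theorem loc_iff {F : Type} [Field F] [Algebra K F] {v : HeightOneSpectrum (𝓞 K)}
    {p : 𝓞 K × 𝓞 K} : Loc F v p ↔ (∀ t : K, t ^ 3 + (p.1 : K) * t + (p.2 : K) ≠ 0) ∧
      H36ZO.LocC K F v (p.1 : K) (p.2 : K) := by
  unfold Loc H36ZO.LocC
  simp only [under_iff]
  exact Iff.rfl

/-- Let `F / K` be an admissible extension.  For a residue class modulo a nonzero ideal `m` the
following are equivalent: there is a good pair in the class; a positive proportion of all pairs are good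
and lie in the class; for every prime `v` of `K` which divides `2` or `m` and is not exempt, some pair
satisfies the local condition at `v` and lies in the class modulo all the powers of `v` that divide `m`.
In particular (`m = 1`) a positive proportion of all pairs is good if the decomposition groups above `2`
are cyclic. -/
theorem result (K F : Type) [Field K] [NumberField K] [Field F] [Algebra K F] (h : Adm K F)
    (m : Ideal (𝓞 K)) (hm : m ≠ ⊥) (q : 𝓞 K × 𝓞 K) :
    List.TFAE [∃ p, Cong m q p ∧ Good F p, PosProp F (Cong m q),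
      ∀ v : HeightOneSpectrum (𝓞 K), (2 : 𝓞 K) ∈ v.asIdeal ∨ m ≤ v.asIdeal → ¬ Exempt F m q v →
        ∃ p, (∀ n : ℕ, m ≤ v.asIdeal ^ n → Cong (v.asIdeal ^ n) q p) ∧ Loc F v p] := by
  have _ := h.gal
  have hadm : H36O2.AdmF2 K F := by
    refine ⟨h.gal, h.deg, h.ram.subset ?_, h.dec.imp_right fun h3 => h3.mono ?_⟩
    · rintro v ⟨N, hN, V, rfl, hV⟩
      exact ⟨N, hN, V, rfl, hV⟩
    · intro v hv N _ hN W hW
      exact hv N hN W (under_iff.2 hW)
  obtain ⟨h1, h2⟩ := H36ZO.main h.deg (H36O2.mainSig2 hadm) hm q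
  have h3 : (∃ p, Cong m q p ∧ Good F p) ↔
      ∃ p : 𝓞 K × 𝓞 K, (p.1 - q.1 ∈ m ∧ p.2 - q.2 ∈ m) ∧ H36ZO.Gd K F p :=
    exists_congr fun p => and_congr Iff.rfl good_iff
  tfae_have 1 ↔ 2 := h3.trans (h1.trans posProp_iff.symm)
  tfae_have 1 → 3 := by
    intro h4 v hv _
    obtain ⟨p, h5, h6⟩ := h2.1 (h3.1 h4) v hv
    exact ⟨p, h5, loc_iff.2 h6⟩
  tfae_have 3 → 1 := by
    intro h4
    refine h3.2 (h2.2 fun v hv => ?_)
    by_cases hex : Exempt F m q v
    · rcases hex with ⟨hmv, hc⟩ | ⟨hv2, ⟨hur, hq⟩ | hq⟩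
      · obtain ⟨p, h5, h6⟩ := H36O2.exists_irr2 hadm (H30ZO.loc_of_cyclic h.deg
          (hv.resolve_right hmv) fun N _ hN W hW => hc N hN W (under_iff.2 hW))
        refine ⟨p, fun n hn => ?_, h5, h6⟩
        have hn0 : n = 0 := by
          by_contra hn0
          exact hmv (hn.trans (Ideal.pow_le_self hn0))
        rw [hn0, pow_zero, Ideal.one_eq_top]
        exact ⟨trivial, trivial⟩
      · exact H36O2.exists_good2 hadm hm (hv.resolve_left hv2) hv2
          (fun N _ V hV hr => hur ⟨N, inferInstance, V, under_iff.2 hV, by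
            rw [← hV]
            exact hr⟩) hq
      · exact H36O2.exists_nort2 hadm hm (hv.resolve_left hv2) hv2 hq
    · obtain ⟨p, h5, h6⟩ := h4 v hv hex
      exact ⟨p, h5, loc_iff.1 h6⟩
  tfae_finish

end Pool.Agent.Results.MP_78d38b_nt.ZeroOneLaw
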